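import Pool.Agent.T2h16.TG.Stm
import Pool.Agent.Y715.Qr

/-!
# CHC2: the number of the characters of exact order `2 ^ k` (helper37)
-/

set_option autoImplicit false
set_option linter.all false

namespace T2h16.TG.CHC2

open Q283.GA.St (Adm)

open Pool.Agent.Y715.Qr (FF fld ftp card_FF)

lemma fin_mul {π : GaussianInt} (hπ : Prime π) : Finite (MulChar (GaussianInt ⧸ Ideal.span {π}) ℂ) := by
  letI := fld hπ
  letI := ftp hπ
  infer_instance

/-- the number of the characters of order `2 ^ k` -/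
lemma card_ord {k : ℕ} {π : GaussianInt} (hk : 1 ≤ k) (h : Adm k π) :
    Nat.card {lam : MulChar (GaussianInt ⧸ Ideal.span {π}) ℂ // orderOf lam = 2 ^ k} =
      2 ^ (k - 1) := by
  classical
  have hπ := h.1
  letI := fld hπ
  letI := ftp hπ
  haveI : Finite (MulChar (GaussianInt ⧸ Ideal.span {π}) ℂ) := fin_mul hπ
  letI : Fintype (MulChar (GaussianInt ⧸ Ideal.span {π}) ℂ) := Fintype.ofFinite _
  haveI : NeZero (Monoid.exponent (GaussianInt ⧸ Ideal.span {π})ˣ) :=
    ⟨Monoid.exponent_ne_zero_of_finite⟩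
  obtain ⟨eqv⟩ := MulChar.mulEquiv_units (GaussianInt ⧸ Ideal.span {π}) ℂ
  haveI hcyc : IsCyclic (MulChar (GaussianInt ⧸ Ideal.span {π}) ℂ) :=
    isCyclic_of_surjective eqv.symm eqv.symm.surjective
  have hcard : Fintype.card (MulChar (GaussianInt ⧸ Ideal.span {π}) ℂ) =
      Fintype.card (FF π) - 1 := by
    rw [← Nat.card_eq_fintype_card, Nat.card_congr eqv.toEquiv, Nat.card_units,
      Nat.card_eq_fintype_card]
  have hc : (Fintype.card (FF π) : ℤ) = π.norm := card_FF hπ
  have hpos : 0 < Fintype.card (FF π) := Fintype.card_pos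
  have hd : 2 ^ k ∣ Fintype.card (MulChar (GaussianInt ⧸ Ideal.span {π}) ℂ) := by
    rw [hcard]
    have h1 : ((2 ^ k : ℕ) : ℤ) ∣ ((Fintype.card (FF π) - 1 : ℕ) : ℤ) := by
      rw [Nat.cast_sub hpos, hc]
      push_cast
      exact dvd_trans (pow_dvd_pow 2 (by omega)) h.2.2
    exact_mod_cast h1
  have h2 := IsCyclic.card_orderOf_eq_totient hd
  rw [Nat.card_eq_fintype_card, Fintype.card_subtype, h2,
    Nat.totient_prime_pow Nat.prime_two (by omega)]
  ring

theorem t_CHC2 : S_CHC2 := by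
  intro k hk π hadm
  haveI hfin : Finite (MulChar (GaussianInt ⧸ Ideal.span {π}) ℂ) := fin_mul hadm.1
  exact ⟨card_ord hk hadm, inferInstance⟩

end T2h16.TG.CHC2
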