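import Pool.Agent.T2h16.TG.Stm

/-!
# Project TG: primary Gaussian integers (lemmas for the tasks CHR2 and DEN2)
-/

set_option autoImplicit false

namespace T2h16.TG

namespace H21

lemma norm_eq (z : GaussianInt) : z.norm = z.re ^ 2 + z.im ^ 2 := by
  rw [Zsqrtd.norm_def]
  ring

lemma unit_cases {u : GaussianInt} (hu : IsUnit u) :
    (u.re = 0 ∧ (u.im = 1 ∨ u.im = -1)) ∨ (u.im = 0 ∧ (u.re = 1 ∨ u.re = -1)) := by
  have hn : u.norm = 1 := (Zsqrtd.norm_eq_one_iff' (by norm_num) u).2 hu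
  rw [norm_eq] at hn
  rcases eq_or_ne u.re 0 with h | h
  · left
    refine ⟨h, ?_⟩
    rw [h] at hn
    have : u.im ^ 2 = 1 := by linarith
    exact sq_eq_one_iff.1 this
  · right
    have h1 : 0 < u.re ^ 2 := by positivity
    have h2 : 0 ≤ u.im ^ 2 := sq_nonneg _
    have h3 : u.im ^ 2 = 0 := by omega
    have h4 : u.im = 0 := by
      rw [sq_eq_zero_iff] at h3
      exact h3
    refine ⟨h4, ?_⟩
    have : u.re ^ 2 = 1 := by omega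
    exact sq_eq_one_iff.1 this

lemma tt_iff {α : GaussianInt} : tt ∣ α ↔ (4 : ℤ) ∣ α.re + α.im ∧ (4 : ℤ) ∣ α.im - α.re := by
  constructor
  · rintro ⟨c, rfl⟩
    have e1 : (tt * c).re = 2 * c.re - 2 * c.im := by
      rw [Zsqrtd.re_mul]
      show 2 * c.re + -1 * 2 * c.im = _
      ring
    have e2 : (tt * c).im = 2 * c.re + 2 * c.im := by
      rw [Zsqrtd.im_mul]
      show 2 * c.im + 2 * c.re = _
      ring
    rw [e1, e2]
    exact ⟨⟨c.re, by ring⟩, ⟨c.im, by ring⟩⟩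
  · rintro ⟨⟨x, hx⟩, ⟨y, hy⟩⟩
    refine ⟨⟨x, y⟩, ?_⟩
    apply Zsqrtd.ext
    · rw [Zsqrtd.re_mul]
      show α.re = 2 * x + -1 * 2 * y
      omega
    · rw [Zsqrtd.im_mul]
      show α.im = 2 * y + 2 * x
      omega

lemma tt_iff_one {α : GaussianInt} :
    tt ∣ α - 1 ↔ (4 : ℤ) ∣ α.re + α.im - 1 ∧ (4 : ℤ) ∣ α.im - α.re + 1 := by
  rw [tt_iff, Zsqrtd.re_sub, Zsqrtd.im_sub, Zsqrtd.re_one, Zsqrtd.im_one]
  constructor
  · rintro ⟨h1, h2⟩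
    constructor <;> omega
  · rintro ⟨h1, h2⟩
    constructor <;> omega

lemma tt_mul {α β : GaussianInt} (h : tt ∣ α - 1) (h' : tt ∣ β - 1) : tt ∣ α * β - 1 := by
  have e : α * β - 1 = (α - 1) * β + (β - 1) := by ring
  rw [e]
  exact dvd_add (Dvd.dvd.mul_right h _) h'

/-- a primary unit is one -/
lemma unit_one {u : GaussianInt} (hu : IsUnit u) (h : tt ∣ u - 1) : u = 1 := by
  obtain ⟨h1, h2⟩ := tt_iff_one.1 h
  rcases unit_cases hu with ⟨h3, h4 | h4⟩ | ⟨h3, h4 | h4⟩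
  · omega
  · omega
  · exact Zsqrtd.ext h4 h3
  · omega

lemma uniq {α u : GaussianInt} (h : tt ∣ α - 1) (hu : IsUnit u) (h' : tt ∣ α * u - 1) : u = 1 := by
  apply unit_one hu
  have e : u - 1 = (α * u - 1) - (α - 1) * u := by ring
  rw [e]
  exact dvd_sub h' (Dvd.dvd.mul_right h _)

lemma uniq_assoc {α β : GaussianInt} (h : tt ∣ α - 1) (h' : tt ∣ β - 1) (ha : Associated α β) : α = β := by
  obtain ⟨u, hu⟩ := ha
  rw [← hu] at h' ⊢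
  rw [uniq h u.isUnit h', mul_one]

lemma odd_norm {β : GaussianInt} (h : ¬ (2 : ℤ) ∣ β.norm) : ¬ (2 : ℤ) ∣ β.re + β.im := by
  rintro ⟨c, hc⟩
  apply h
  rw [norm_eq]
  have e : β.re = 2 * c - β.im := by omega
  rw [e]
  exact ⟨2 * c ^ 2 - 2 * c * β.im + β.im ^ 2, by ring⟩

/-- an odd element has a primary associate -/
lemma exists_prim {β : GaussianInt} (h : ¬ (2 : ℤ) ∣ β.norm) :
    ∃ u : GaussianInt, IsUnit u ∧ tt ∣ β * u - 1 := by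
  have h1 := odd_norm h
  have hI : IsUnit (⟨0, 1⟩ : GaussianInt) := IsUnit.of_mul_eq_one ⟨0, -1⟩ (by decide)
  have hI' : IsUnit (⟨0, -1⟩ : GaussianInt) := IsUnit.of_mul_eq_one ⟨0, 1⟩ (by decide)
  have h2 : (4 ∣ β.re + β.im - 1 ∧ 4 ∣ β.im - β.re + 1) ∨
      (4 ∣ -β.re + -β.im - 1 ∧ 4 ∣ -β.im - -β.re + 1) ∨
      (4 ∣ -β.im + β.re - 1 ∧ 4 ∣ β.re - -β.im + 1) ∨
      (4 ∣ β.im + -β.re - 1 ∧ 4 ∣ -β.re - β.im + 1) := by omega
  rcases h2 with h2 | h2 | h2 | h2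
  · exact ⟨1, isUnit_one, by rw [mul_one]; exact tt_iff_one.2 h2⟩
  · refine ⟨-1, isUnit_one.neg, ?_⟩
    rw [tt_iff_one, mul_neg, mul_one, Zsqrtd.re_neg, Zsqrtd.im_neg]
    exact h2
  · refine ⟨⟨0, 1⟩, hI, ?_⟩
    rw [tt_iff_one, Zsqrtd.re_mul, Zsqrtd.im_mul]
    have e1 : β.re * 0 + -1 * β.im * 1 = -β.im := by ring
    have e2 : β.re * 1 + β.im * 0 = β.re := by ring
    show 4 ∣ (β.re * 0 + -1 * β.im * 1) + (β.re * 1 + β.im * 0) - 1 ∧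
      4 ∣ (β.re * 1 + β.im * 0) - (β.re * 0 + -1 * β.im * 1) + 1
    rw [e1, e2]
    exact h2
  · refine ⟨⟨0, -1⟩, hI', ?_⟩
    rw [tt_iff_one, Zsqrtd.re_mul, Zsqrtd.im_mul]
    have e1 : β.re * 0 + -1 * β.im * -1 = β.im := by ring
    have e2 : β.re * -1 + β.im * 0 = -β.re := by ring
    show 4 ∣ (β.re * 0 + -1 * β.im * -1) + (β.re * -1 + β.im * 0) - 1 ∧
      4 ∣ (β.re * -1 + β.im * 0) - (β.re * 0 + -1 * β.im * -1) + 1
    rw [e1, e2]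
    exact h2

lemma norm_odd {α : GaussianInt} (h : tt ∣ α - 1) : ¬ (2 : ℤ) ∣ α.norm := by
  obtain ⟨h1, h2⟩ := tt_iff_one.1 h
  obtain ⟨c, hc⟩ : ∃ c, α.re = 2 * c + 1 := ⟨(α.re - 1) / 2, by omega⟩
  obtain ⟨d, hd⟩ : ∃ d, α.im = 2 * d := ⟨α.im / 2, by omega⟩
  rw [norm_eq, hc, hd]
  have e : (2 * c + 1) ^ 2 + (2 * d) ^ 2 = 2 * (2 * c ^ 2 + 2 * c + 2 * d ^ 2) + 1 := by ring
  rw [e]
  omega

lemma norm_sub {n : ℤ} {α : GaussianInt} (h : (n : GaussianInt) ∣ α - 1) : n ∣ α.norm - 1 := by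
  rw [Zsqrtd.intCast_dvd, Zsqrtd.re_sub, Zsqrtd.im_sub, Zsqrtd.re_one, Zsqrtd.im_one, sub_zero] at h
  obtain ⟨⟨a, ha⟩, ⟨b, hb⟩⟩ := h
  refine ⟨n * a ^ 2 + 2 * a + n * b ^ 2, ?_⟩
  have e4 : α.re = n * a + 1 := by linarith
  rw [norm_eq, e4, hb]
  ring

lemma cop_two {β : GaussianInt} : IsCoprime β 2 ↔ ¬ (2 : ℤ) ∣ β.norm := by
  constructor
  · rintro ⟨x, y, hxy⟩ h
    have h1 : (((2 : ℤ) : GaussianInt)) ∣ x * β - 1 := by
      refine ⟨-y, ?_⟩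
      push_cast
      linear_combination hxy
    have h2 := norm_sub h1
    rw [Zsqrtd.norm_mul] at h2
    have h3 : (2 : ℤ) ∣ x.norm * β.norm := Dvd.dvd.mul_left h _
    omega
  · intro h
    obtain ⟨m, hm⟩ : ∃ m, β.norm = 2 * m + 1 := ⟨(β.norm - 1) / 2, by omega⟩
    refine ⟨star β, -(m : GaussianInt), ?_⟩
    have h1 := Zsqrtd.norm_eq_mul_conj β
    rw [hm] at h1
    push_cast at h1
    linear_combination -h1

lemma star_tt {α : GaussianInt} (h : tt ∣ α - 1) : tt ∣ star α - 1 := by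
  rw [tt_iff_one] at h ⊢
  rw [Zsqrtd.re_star, Zsqrtd.im_star]
  omega

end H21
end T2h16.TG
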