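import Pool.Agent.T2h16.TG.Stm
import Pool.Agent.T2h16.TG.H21

/-!
# Project TG (helper16, MP_a43263), task CHR2: the ray class characters

Adapted from `Pool/Agent/T3h73/TK/T_CHR.lean`.
-/

set_option autoImplicit false
set_option linter.all false

open NumberField IsDedekindDomain Filter Topology

namespace T2h16.TG.CHR2

open Pool.Agent.T3h73.SL (Pl)
open Pool.Agent.Y773.G (IsModChar)
open Pool.Agent.T3h73.SD (ee)
open Q283.GA.St (sy)
open T2h16.TG.H21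

/-! ### roots of unity -/

lemma ee_eq (ℓ : ℕ) [NeZero ℓ] (a : ZMod ℓ) : ee ℓ a = ZMod.stdAddChar a := by
  rw [ZMod.stdAddChar_apply, ZMod.toCircle_apply]
  rfl

lemma ee_add (a b : ZMod 2) : ee 2 (a + b) = ee 2 a * ee 2 b := by
  rw [ee_eq, ee_eq, ee_eq, AddChar.map_add_eq_mul]

lemma ee_zero : ee 2 0 = 1 := by
  rw [ee_eq, AddChar.map_zero_eq_one]

lemma ee_ne_one {a : ZMod 2} (ha : a ≠ 0) : ee 2 a ≠ 1 := by
  rw [ee_eq]
  intro h
  apply ha
  have := ZMod.injective_stdAddChar (N := 2) (a₁ := a) (a₂ := 0) (by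
    rw [h, AddChar.map_zero_eq_one])
  exact this

lemma ee_sq (a : ZMod 2) : ee 2 a ^ 2 = 1 := by
  have h : a + a = 0 := by
    revert a
    decide
  rw [pow_two, ← ee_add, h, ee_zero]

lemma ee_ne_zero (a : ZMod 2) : ee 2 a ≠ 0 := by
  intro h
  have := ee_sq a
  rw [h] at this
  norm_num at this

lemma ee_norm (a : ZMod 2) : ‖ee 2 a‖ = 1 := by
  have h := congrArg norm (ee_sq a)
  rw [norm_pow, norm_one] at h
  exact (pow_eq_one_iff_of_nonneg (norm_nonneg _) (by norm_num)).1 h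

section
variable {K : Type} [Field K] [NumberField K]

/-- the ideals are principal -/
lemma exists_gen (f : GaussianInt ≃+* 𝓞 K) (𝔞 : Ideal (𝓞 K)) :
    ∃ β : GaussianInt, 𝔞 = Ideal.span {f β} := by
  have : IsPrincipalIdealRing (𝓞 K) :=
    IsPrincipalIdealRing.of_surjective (f : GaussianInt →+* 𝓞 K) f.surjective
  obtain ⟨x, hx⟩ := (IsPrincipalIdealRing.principal 𝔞).principal
  refine ⟨f.symm x, ?_⟩
  rw [hx, RingEquiv.apply_symm_apply]

lemma assoc_of (f : GaussianInt ≃+* 𝓞 K) {β γ : GaussianInt}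
    (h : Ideal.span {f β} = Ideal.span {f γ}) : Associated β γ := by
  rw [Ideal.span_singleton_eq_span_singleton] at h
  obtain ⟨u, hu⟩ := h
  refine ⟨⟨f.symm u, f.symm (u⁻¹ : (𝓞 K)ˣ), ?_, ?_⟩, ?_⟩
  · rw [← map_mul, Units.mul_inv, map_one]
  · rw [← map_mul, Units.inv_mul, map_one]
  · apply f.injective
    rw [map_mul]
    simp only [RingEquiv.apply_symm_apply]
    exact hu

open Classical in
/-- the primary generator -/
noncomputable def pg (f : GaussianInt ≃+* 𝓞 K) (𝔞 : Ideal (𝓞 K)) : GaussianInt :=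
  if h : ∃ γ : GaussianInt, tt ∣ γ - 1 ∧ 𝔞 = Ideal.span {f γ} then h.choose else 0

lemma pg_of (f : GaussianInt ≃+* 𝓞 K) {𝔞 : Ideal (𝓞 K)} {γ : GaussianInt} (h : tt ∣ γ - 1)
    (hs : 𝔞 = Ideal.span {f γ}) : pg f 𝔞 = γ := by
  have h1 : ∃ γ : GaussianInt, tt ∣ γ - 1 ∧ 𝔞 = Ideal.span {f γ} := ⟨γ, h, hs⟩
  unfold pg
  rw [dif_pos h1]
  obtain ⟨h2, h3⟩ := h1.choose_spec
  exact uniq_assoc h2 h (assoc_of f (h3.symm.trans hs))

lemma cop_span (f : GaussianInt ≃+* 𝓞 K) (β γ : GaussianInt) :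
    IsCoprime (Ideal.span {f β}) (Ideal.span {f γ}) ↔ IsCoprime β γ := by
  rw [Ideal.isCoprime_span_singleton_iff]
  constructor
  · intro h
    have := h.map (f.symm : 𝓞 K →+* GaussianInt)
    simpa using this
  · intro h
    exact h.map (f : GaussianInt →+* 𝓞 K)

lemma f_two (f : GaussianInt ≃+* 𝓞 K) : f (2 : GaussianInt) = 2 := map_ofNat f 2

/-- coprimality -/
lemma cop_iff (f : GaussianInt ≃+* 𝓞 K) (k : ℕ) (B : Finset (Pl K)) (g : Pl K → GaussianInt)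
    (hg : ∀ b ∈ B, Prime (g b) ∧ Ideal.span {f (g b)} = b.asIdeal) (β : GaussianInt) :
    IsCoprime (Ideal.span {f β}) (Ideal.span {(2 : 𝓞 K) ^ (k + 2)} * ∏ b ∈ B, b.asIdeal) ↔
      ¬ (2 : ℤ) ∣ β.norm ∧ ∀ b ∈ B, ¬ g b ∣ β := by
  rw [IsCoprime.mul_right_iff, IsCoprime.prod_right_iff]
  refine and_congr ?_ (forall₂_congr fun b hb => ?_)
  · rw [← Ideal.span_singleton_pow, IsCoprime.pow_right_iff (Nat.succ_pos (k + 1)), ← f_two f,
      cop_span, cop_two]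
  · obtain ⟨h1, h2⟩ := hg b hb
    rw [← h2, cop_span, isCoprime_comm, h1.coprime_iff_not_dvd]

/-- the value at a primary element -/
noncomputable def va (k : ℕ) (h : ZMod 2) (j : Pl K → ZMod 2) (B : Finset (Pl K))
    (g : Pl K → GaussianInt) (ψ : DirichletCharacter ℂ (2 ^ (k + 2))) (α : GaussianInt) : ℂ :=
  ψ ((α.norm : ℤ) : ZMod (2 ^ (k + 2))) * ee 2 (h * ap α + ∑ b ∈ B, j b * sy (g b) α)

section
variable {k : ℕ} {h : ZMod 2} {j : Pl K → ZMod 2} {B : Finset (Pl K)} {g : Pl K → GaussianInt}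
  {ψ : DirichletCharacter ℂ (2 ^ (k + 2))}

lemma va_mul (hQ : S_QRS) (hP : S_PAR2) (hg : ∀ b ∈ B, Prime (g b) ∧ ¬ g b ∣ 2)
    {α β : GaussianInt} (hα : tt ∣ α - 1)
    (hβ : tt ∣ β - 1) (hα' : ∀ b ∈ B, ¬ g b ∣ α) (hβ' : ∀ b ∈ B, ¬ g b ∣ β) :
    va k h j B g ψ (α * β) = va k h j B g ψ α * va k h j B g ψ β := by
  unfold va
  rw [Zsqrtd.norm_mul, Int.cast_mul, map_mul, (hP.1 α β hα hβ).2]
  have e : ∑ b ∈ B, j b * sy (g b) (α * β) = ∑ b ∈ B, j b * sy (g b) α + ∑ b ∈ B, j b * sy (g b) β := by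
    rw [← Finset.sum_add_distrib]
    refine Finset.sum_congr rfl fun b hb => ?_
    rw [(hQ (g b) (hg b hb).1 (hg b hb).2).2.1 α β (hα' b hb) (hβ' b hb), mul_add]
  rw [e, mul_add, add_add_add_comm, ee_add]
  ring

lemma va_cong (hQ : S_QRS) (hP : S_PAR2) (hk : 1 ≤ k) (hg : ∀ b ∈ B, Prime (g b) ∧ ¬ g b ∣ 2)
    {α : GaussianInt} (hα : ((2 : GaussianInt) ^ (k + 2)) ∣ α - 1) (hα' : ∀ b ∈ B, g b ∣ α - 1) :
    va k h j B g ψ α = 1 := by
  unfold va
  have h8 : (8 : GaussianInt) ∣ 1 - α := by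
    rw [← neg_sub]
    refine (dvd_neg).2 (dvd_trans ⟨2 ^ (k - 1), ?_⟩ hα)
    have e : k + 2 = 3 + (k - 1) := by omega
    rw [e, pow_add]
    norm_num
  have h1 : ap α = 0 := by
    rw [← (hP.2.1 1 α (by rw [sub_self]; exact dvd_zero _) h8).2]
    exact hP.2.2.2.2.2
  have h2 : ((α.norm : ℤ) : ZMod (2 ^ (k + 2))) = 1 := by
    have h3 : (((2 : ℤ) ^ (k + 2) : ℤ) : GaussianInt) ∣ α - 1 := by
      push_cast
      exact hα
    have h4 := norm_sub h3
    have h5 : (((α.norm - 1 : ℤ)) : ZMod (2 ^ (k + 2))) = 0 := by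
      rw [ZMod.intCast_zmod_eq_zero_iff_dvd]
      exact_mod_cast h4
    rw [Int.cast_sub, Int.cast_one, sub_eq_zero] at h5
    exact h5
  have h3 : ∑ b ∈ B, j b * sy (g b) α = 0 := by
    refine Finset.sum_eq_zero fun b hb => ?_
    obtain ⟨q1, q2, q3, q4⟩ := hQ (g b) (hg b hb).1 (hg b hb).2
    rw [q1 α 1 (hα' b hb), q4, mul_zero]
  rw [h1, h2, h3, mul_zero, add_zero, ee_zero, map_one, mul_one]

lemma psi_ne {α : GaussianInt} (hα : ¬ (2 : ℤ) ∣ α.norm) :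
    IsUnit ((α.norm : ℤ) : ZMod (2 ^ (k + 2))) := by
  rw [ZMod.coe_int_isUnit_iff_isCoprime]
  push_cast
  refine IsCoprime.pow_left ?_
  rw [Int.isCoprime_iff_gcd_eq_one]
  have : Nat.Coprime 2 α.norm.natAbs := by
    rw [Nat.Prime.coprime_iff_not_dvd Nat.prime_two]
    intro h4
    exact hα (by
      have := Int.natCast_dvd_natCast.2 h4
      rwa [Int.dvd_natAbs] at this)
  exact this

lemma va_ne {α : GaussianInt} (hα : ¬ (2 : ℤ) ∣ α.norm) : va k h j B g ψ α ≠ 0 := by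
  unfold va
  refine mul_ne_zero ?_ (ee_ne_zero _)
  exact ((psi_ne hα).map ψ).ne_zero

lemma va_norm (α : GaussianInt) : ‖va k h j B g ψ α‖ ≤ 1 := by
  unfold va
  rw [norm_mul, ee_norm, mul_one]
  exact DirichletCharacter.norm_le_one ψ _

end

lemma data (f : GaussianInt ≃+* 𝓞 K) (k : ℕ) (B : Finset (Pl K)) (g : Pl K → GaussianInt)
    (hg : ∀ b ∈ B, Prime (g b) ∧ Ideal.span {f (g b)} = b.asIdeal) (𝔞 : Ideal (𝓞 K))
    (hc : IsCoprime 𝔞 (Ideal.span {(2 : 𝓞 K) ^ (k + 2)} * ∏ b ∈ B, b.asIdeal)) :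
    tt ∣ pg f 𝔞 - 1 ∧ ¬ (2 : ℤ) ∣ (pg f 𝔞).norm ∧ (∀ b ∈ B, ¬ g b ∣ pg f 𝔞) ∧
      𝔞 = Ideal.span {f (pg f 𝔞)} := by
  obtain ⟨β, rfl⟩ := exists_gen f 𝔞
  obtain ⟨h1, h2⟩ := (cop_iff f k B g hg β).1 hc
  obtain ⟨u, hu, hu1⟩ := exists_prim h1
  have hs : Ideal.span {f β} = Ideal.span {f (β * u)} := by
    rw [map_mul, Ideal.span_singleton_mul_right_unit (hu.map f)]
  rw [pg_of f hu1 hs]
  refine ⟨hu1, norm_odd hu1, fun b hb hd => h2 b hb ?_, hs⟩
  exact (IsUnit.dvd_mul_right hu).1 hd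

end

theorem t_CHR2 (hD : S_DIC2) (hN : S_NTR2) (hQ : S_QRS) (hP : S_PAR2) : S_CHR2 := by
  classical
  intro K _ _ f k hk S hS h j B hBS hj ψ
  obtain ⟨S', hS', hgen, -⟩ := hD K f
  have hg : ∀ b, b ∉ S → Prime (gn f b) ∧ tt ∣ gn f b - 1 ∧
      Ideal.span {f (gn f b)} = b.asIdeal ∧ (gn f b).norm = Ideal.absNorm b.asIdeal :=
    fun b hb => hgen b (fun h' => hb ((hS b).2 ((hS' b).1 h')))
  have hB : ∀ b ∈ B, b ∉ S := fun b hb => Finset.disjoint_left.1 hBS hb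
  have hgB : ∀ b ∈ B, Prime (gn f b) ∧ Ideal.span {f (gn f b)} = b.asIdeal := fun b hb =>
    ⟨(hg b (hB b hb)).1, (hg b (hB b hb)).2.2.1⟩
  have hgB' : ∀ b ∈ B, Prime (gn f b) ∧ ¬ gn f b ∣ 2 := fun b hb => by
    refine ⟨(hg b (hB b hb)).1, fun hd => ?_⟩
    have h1 := cop_two.2 (norm_odd (hg b (hB b hb)).2.1)
    exact (hg b (hB b hb)).1.not_isUnit (h1.isUnit_of_dvd' (dvd_refl _) hd)
  have hcop := cop_iff f k B (gn f) hgB
  have hdat := data f k B (gn f) hgB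
  set 𝔐 : Ideal (𝓞 K) := Ideal.span {(2 : 𝓞 K) ^ (k + 2)} * ∏ b ∈ B, b.asIdeal with h𝔐
  have hM1 : 𝔐 ≤ Ideal.span {(2 : 𝓞 K) ^ (k + 2)} := by
    rw [h𝔐]
    exact Ideal.mul_le_left
  have hM2 : 𝔐 ≤ ∏ b ∈ B, b.asIdeal := by
    rw [h𝔐]
    exact Ideal.mul_le_right
  have htop : 𝔐 ≠ ⊤ := by
    intro h1
    have h2 := (hcop 0).1 (by
      rw [h1, ← Ideal.one_eq_top]
      exact isCoprime_one_right)
    apply h2.1
    rw [Zsqrtd.norm_zero]
    exact dvd_zero _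
  let η : Ideal (𝓞 K) →*₀ ℂ :=
    { toFun := fun 𝔞 => if IsCoprime 𝔞 𝔐 then va k h j B (gn f) ψ (pg f 𝔞) else 0
      map_zero' := by
        rw [if_neg]
        intro h1
        rw [isCoprime_zero_left, Ideal.isUnit_iff] at h1
        exact htop h1
      map_one' := by
        have e1 : (1 : Ideal (𝓞 K)) = Ideal.span {f 1} := by
          rw [map_one, Ideal.span_singleton_one, Ideal.one_eq_top]
        rw [if_pos isCoprime_one_left, pg_of f (by rw [sub_self]; exact dvd_zero _) e1]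
        exact va_cong hQ hP hk hgB' (by rw [sub_self]; exact dvd_zero _)
          (fun b _ => by rw [sub_self]; exact dvd_zero _)
      map_mul' := fun 𝔞 𝔟 => by
        by_cases h1 : IsCoprime 𝔞 𝔐
        · by_cases h2 : IsCoprime 𝔟 𝔐
          · rw [if_pos h1, if_pos h2, if_pos (h1.mul_left h2)]
            obtain ⟨a1, a2, a3, a4⟩ := hdat 𝔞 h1
            obtain ⟨b1, b2, b3, b4⟩ := hdat 𝔟 h2
            have e2 : pg f (𝔞 * 𝔟) = pg f 𝔞 * pg f 𝔟 := by
              apply pg_of f (tt_mul a1 b1)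
              rw [map_mul, ← Ideal.span_singleton_mul_span_singleton, ← a4, ← b4]
            rw [e2]
            exact va_mul hQ hP hgB' a1 b1 a3 b3
          · rw [if_neg h2, mul_zero, if_neg]
            intro h3
            exact h2 h3.of_mul_left_right
        · rw [if_neg h1, zero_mul, if_neg]
          intro h3
          exact h1 h3.of_mul_left_left }
  have hη : ∀ 𝔞, η 𝔞 = if IsCoprime 𝔞 𝔐 then va k h j B (gn f) ψ (pg f 𝔞) else 0 := fun _ => rfl
  refine ⟨η, ⟨?_, htop, fun _ => Nat.zero_le _, fun _ _ => rfl, ?_, ?_⟩, ?_, ?_, ?_, ?_⟩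
  · -- `ne_bot`
    rw [h𝔐]
    refine mul_ne_zero ?_ (Finset.prod_ne_zero_iff.2 fun b _ => b.ne_bot)
    rw [Ne, Ideal.zero_eq_bot, Ideal.span_singleton_eq_bot]
    exact pow_ne_zero _ (by norm_num)
  · -- `supp`
    intro 𝔞
    rw [hη]
    constructor
    · intro h1
      by_contra h2
      exact h1 (if_neg h2)
    · intro h1
      rw [if_pos h1]
      exact va_ne (hdat 𝔞 h1).2.1
  · -- `sig`
    intro x hx hx1
    have hsg : Pool.Agent.Y773.G.sg (fun _ => 0) (x : K) = 1 := by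
      unfold Pool.Agent.Y773.G.sg
      simp
    rw [hsg, hη]
    obtain ⟨α, rfl⟩ : ∃ α : GaussianInt, x = f α := ⟨f.symm x, by rw [RingEquiv.apply_symm_apply]⟩
    have hc : IsCoprime (Ideal.span {f α}) 𝔐 := by
      rw [Ideal.isCoprime_iff_exists]
      refine ⟨f α, Ideal.mem_span_singleton_self _, 1 - f α, ?_, by ring⟩
      rw [← neg_sub]
      exact 𝔐.neg_mem hx1
    have hm1 : f α - 1 ∈ Ideal.span {(2 : 𝓞 K) ^ (k + 2)} := hM1 hx1
    have hm2 : ∀ b ∈ B, f α - 1 ∈ b.asIdeal := fun b hb => by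
      have h1 : f α - 1 ∈ ∏ b ∈ B, b.asIdeal := hM2 hx1
      exact (Ideal.prod_le_inf.trans (Finset.inf_le hb)) h1
    have hd : ∀ β γ : GaussianInt, f γ ∣ f β → γ ∣ β := by
      rintro β γ ⟨c, hc⟩
      refine ⟨f.symm c, f.injective ?_⟩
      rw [map_mul, RingEquiv.apply_symm_apply, hc]
    have h1 : ((2 : GaussianInt) ^ (k + 2)) ∣ α - 1 := by
      apply hd
      rw [map_pow, f_two, map_sub, map_one]
      exact Ideal.mem_span_singleton.1 hm1
    have h2 : ∀ b ∈ B, gn f b ∣ α - 1 := by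
      intro b hb
      apply hd
      rw [map_sub, map_one]
      have := hm2 b hb
      rw [← (hgB b hb).2] at this
      exact Ideal.mem_span_singleton.1 this
    have h3 : tt ∣ α - 1 := by
      have h4 : (4 : GaussianInt) ∣ α - 1 := by
        refine dvd_trans ⟨2 ^ k, ?_⟩ h1
        rw [pow_add]
        ring
      exact hP.2.2.2.1 α h4
    rw [if_pos hc, pg_of f h3 rfl]
    exact va_cong hQ hP hk hgB' h1 h2
  · -- bound
    intro 𝔞
    rw [hη]
    split_ifs with h1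
    · exact va_norm _
    · rw [norm_zero]
      exact zero_le_one
  · -- square
    intro hψ 𝔞 h1
    rw [hη, if_pos h1]
    obtain ⟨a1, a2, a3, a4⟩ := hdat 𝔞 h1
    unfold va
    rw [hψ, MulChar.one_apply (psi_ne a2), one_mul, ee_sq]
  · -- primes
    intro q hq hqB
    obtain ⟨h1, h2, h3, h4⟩ := hg q hq
    have hc : IsCoprime q.asIdeal 𝔐 := by
      rw [← h3]
      refine (hcop _).2 ⟨norm_odd h2, fun b hb hd => ?_⟩
      have h5 : q.asIdeal ≤ b.asIdeal := by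
        rw [← h3, ← (hgB b hb).2, Ideal.span_singleton_le_span_singleton]
        exact map_dvd f hd
      have h6 : q.asIdeal = b.asIdeal := q.isMaximal.eq_of_le b.isPrime.ne_top h5
      have h7 : q = b := HeightOneSpectrum.ext h6
      exact hqB (h7 ▸ hb)
    rw [hη, if_pos hc]
    have h5 : pg f q.asIdeal = gn f q := pg_of f h2 h3.symm
    rw [h5]
    unfold va Ps
    rw [h4, Int.cast_natCast]
  · -- not trivial
    intro hor
    set j' : GaussianInt → ZMod 2 := fun e => if h : ∃ b ∈ B, gn f b = e then j h.choose else 0 with hj'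
    have hinj : ∀ b ∈ B, ∀ b' ∈ B, gn f b = gn f b' → b = b' := by
      intro b hb b' hb' h1
      apply HeightOneSpectrum.ext
      rw [← (hgB b hb).2, ← (hgB b' hb').2, h1]
    have hjb : ∀ b ∈ B, j' (gn f b) = j b := by
      intro b hb
      have h1 : ∃ b' ∈ B, gn f b' = gn f b := ⟨b, hb, rfl⟩
      rw [hj']
      simp only
      rw [dif_pos h1]
      congr 1
      exact hinj _ h1.choose_spec.1 _ hb h1.choose_spec.2
    obtain ⟨α, h1, h2, h3, h4⟩ := hN k hk h j' (B.image (gn f)) (by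
      intro b₀ hb₀
      obtain ⟨b, hb, rfl⟩ := Finset.mem_image.1 hb₀
      refine ⟨(hg b (hB b hb)).1, (hg b (hB b hb)).2.1, ?_⟩
      rw [hjb b hb]
      exact (hj b).2 hb) (hor.imp id fun h => h.image _)
    have hc : IsCoprime (Ideal.span {f α}) 𝔐 :=
      (hcop α).2 ⟨norm_odd h1, fun b hb => h3 _ (Finset.mem_image_of_mem _ hb)⟩
    refine ⟨f α, hc, ?_⟩
    rw [hη, if_pos hc, pg_of f h1 rfl]
    unfold va
    have h5 : ((α.norm : ℤ) : ZMod (2 ^ (k + 2))) = 1 := by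
      have h5 : (((α.norm - 1 : ℤ)) : ZMod (2 ^ (k + 2))) = 0 := by
        rw [ZMod.intCast_zmod_eq_zero_iff_dvd]
        exact_mod_cast h2
      rw [Int.cast_sub, Int.cast_one, sub_eq_zero] at h5
      exact h5
    rw [h5, map_one, one_mul]
    apply ee_ne_one
    rw [Finset.sum_image (fun b hb b' hb' => hinj b hb b' hb')] at h4
    have h6 : ∑ b ∈ B, j' (gn f b) * sy (gn f b) α = ∑ b ∈ B, j b * sy (gn f b) α :=
      Finset.sum_congr rfl fun b hb => by rw [hjb b hb]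
    rw [h6] at h4
    exact h4

end T2h16.TG.CHR2
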