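import Pool.Agent.T2h16.TG.Stm
import Pool.Agent.T3h73.SD.T_UNL

/-!
# Task CNT2 of project TG (adapted from `Pool/Agent/T3h73/SD/T_CNTU.lean` of helper64)
-/

set_option autoImplicit false
set_option linter.all false

namespace T2h16.TG.CNT2

open Pool.Agent.T3h73.SD.UNL
open Pool.Agent.T3h73.SD (Cl Rc)

/-- the bound for the unlinked sets, for one prime number `ℓ` -/
def UL (ℓ : ℕ) [Fact ℓ.Prime] : Prop := ∀ (k : ℕ) (U : Finset (Cl ℓ k)),
  (∀ a ∈ U, ∀ b ∈ U, Rc ℓ k a b + Rc ℓ k b a = 0) → U.card ≤ ℓ ^ k ∧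
  (U.card = ℓ ^ k → ∃ (x₀ : Cl ℓ k) (X : Submodule (ZMod ℓ) (Cl ℓ k)),
    (∀ x ∈ X, ∀ y ∈ X, B ℓ k x y = 0) ∧
    (∀ x ∈ X, Q x = 0) ∧ Module.finrank (ZMod ℓ) X = k ∧
    ∀ a, a ∈ U ↔ a - x₀ ∈ X)

section
variable {ℓ k : ℕ} [Fact ℓ.Prime]

/-- a vector of the larger space -/
def mk (w : Cl ℓ k) (s g : ZMod ℓ) : Cl ℓ (k + 1) := (Fin.cons s w.1, Fin.cons g w.2)

lemma mk_surj (x : Cl ℓ (k + 1)) : ∃ w s g, x = mk w s g :=
  ⟨(Fin.tail x.1, Fin.tail x.2), x.1 0, x.2 0, by
    unfold mk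
    simp only [Fin.cons_self_tail]⟩

lemma mk_inj {w w' : Cl ℓ k} {s s' g g' : ZMod ℓ} (h : mk w s g = mk w' s' g') :
    w = w' ∧ s = s' ∧ g = g' := by
  have h1 := congrArg Prod.fst h
  have h2 := congrArg Prod.snd h
  unfold mk at h1 h2
  simp only [Fin.cons_inj] at h1 h2
  exact ⟨Prod.ext h1.2 h2.2, h1.1, h2.1⟩

lemma mk_add (w w' : Cl ℓ k) (s s' g g' : ZMod ℓ) :
    mk w s g + mk w' s' g' = mk (w + w') (s + s') (g + g') := by
  refine Prod.ext (funext fun i => ?_) (funext fun i => ?_) <;>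
    refine Fin.cases ?_ (fun j => ?_) i <;> simp [mk]

lemma mk_sub (w w' : Cl ℓ k) (s s' g g' : ZMod ℓ) :
    mk w s g - mk w' s' g' = mk (w - w') (s - s') (g - g') := by
  refine Prod.ext (funext fun i => ?_) (funext fun i => ?_) <;>
    refine Fin.cases ?_ (fun j => ?_) i <;> simp [mk]

lemma mk_smul (c : ZMod ℓ) (w : Cl ℓ k) (s g : ZMod ℓ) :
    c • mk w s g = mk (c • w) (c * s) (c * g) := by
  refine Prod.ext (funext fun i => ?_) (funext fun i => ?_) <;>
    refine Fin.cases ?_ (fun j => ?_) i <;> simp [mk]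

lemma mk_zero : mk (0 : Cl ℓ k) 0 0 = 0 := by
  refine Prod.ext (funext fun i => ?_) (funext fun i => ?_) <;>
    refine Fin.cases ?_ (fun j => ?_) i <;> simp [mk]

lemma Q_mk (w : Cl ℓ k) (s g : ZMod ℓ) : Q (mk w s g) = s * g + Q w := by
  unfold Q
  rw [Fin.sum_univ_succ]
  rfl

lemma B_mk (w w' : Cl ℓ k) (s s' g g' : ZMod ℓ) :
    B ℓ (k + 1) (mk w s g) (mk w' s' g') = s * g' + s' * g + B ℓ k w w' := by
  rw [B_apply, B_apply, Fin.sum_univ_succ]
  rfl

/-- maximal unlinked sets -/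
def Un (U : Finset (Cl ℓ k)) : Prop := (∀ a ∈ U, ∀ b ∈ U, Q (a - b) = 0) ∧ U.card = ℓ ^ k

/-- the structure of the maximal unlinked sets -/
lemma Un.str (hUNL : UL ℓ) {U : Finset (Cl ℓ k)} (hU : Un U) {a₀ : Cl ℓ k}
    (ha₀ : a₀ ∈ U) : ∃ X : Submodule (ZMod ℓ) (Cl ℓ k), (∀ x ∈ X, ∀ y ∈ X, B ℓ k x y = 0) ∧
      (∀ x ∈ X, Q x = 0) ∧ ∀ a, a ∈ U ↔ a - a₀ ∈ X := by
  obtain ⟨-, h2⟩ := hUNL k U fun a ha b hb => by
    rw [rc_eq, hU.1 a ha b hb, neg_zero]
  obtain ⟨x₀, X, hX1, hX2, -, hX3⟩ := h2 hU.2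
  refine ⟨X, hX1, hX2, fun a => ?_⟩
  have h3 := (hX3 a₀).1 ha₀
  rw [hX3 a]
  constructor
  · intro h
    have h4 := X.sub_mem h h3
    rwa [sub_sub_sub_cancel_right] at h4
  · intro h
    have h4 := X.add_mem h h3
    rwa [sub_add_sub_cancel] at h4

/-- maximality -/
lemma Un.max (hUNL : UL ℓ) {U : Finset (Cl ℓ k)} (hU : Un U) {v : Cl ℓ k}
    (hv : ∀ a ∈ U, Q (v - a) = 0) : v ∈ U := by
  classical
  by_contra hvU
  have hneg : ∀ x : Cl ℓ k, Q (-x) = Q x := fun x => by
    unfold Q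
    refine Finset.sum_congr rfl fun i _ => ?_
    simp
  have h0 : Q (0 : Cl ℓ k) = 0 := by
    unfold Q
    simp
  have h1 := (hUNL k (insert v U) (fun a ha b hb => by
    rw [rc_eq, neg_eq_zero]
    rw [Finset.mem_insert] at ha hb
    rcases ha with rfl | ha
    · rcases hb with rfl | hb
      · rw [sub_self, h0]
      · exact hv b hb
    · rcases hb with rfl | hb
      · rw [← hneg, neg_sub]
        exact hv a ha
      · exact hU.1 a ha b hb)).1
  rw [Finset.card_insert_of_notMem hvU, hU.2] at h1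
  omega

lemma Un.nonempty {U : Finset (Cl ℓ k)} (hU : Un U) : U.Nonempty := by
  rw [← Finset.card_pos, hU.2]
  exact pow_pos (Fact.out : ℓ.Prime).pos k

end

section
variable (ℓ k : ℕ) [Fact ℓ.Prime]

open Classical in
/-- the maximal unlinked sets -/
noncomputable def MU : Finset (Finset (Cl ℓ k)) := Finset.univ.filter fun U => Un U

open Classical in
/-- the maximal unlinked sets which contain `0` -/
noncomputable def NX : Finset (Finset (Cl ℓ k)) := (MU ℓ k).filter fun U => 0 ∈ U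

variable {ℓ k}

lemma mem_MU {U : Finset (Cl ℓ k)} : U ∈ MU ℓ k ↔ Un U := by
  classical
  unfold MU
  rw [Finset.mem_filter]
  exact ⟨fun h => h.2, fun h => ⟨Finset.mem_univ _, h⟩⟩

lemma mem_NX {U : Finset (Cl ℓ k)} : U ∈ NX ℓ k ↔ Un U ∧ 0 ∈ U := by
  classical
  unfold NX
  rw [Finset.mem_filter, mem_MU]

lemma Un.map {U : Finset (Cl ℓ k)} (hU : Un U) (a : Cl ℓ k) :
    Un (U.map (Equiv.addRight a).toEmbedding) := by
  refine ⟨?_, by rw [Finset.card_map, hU.2]⟩
  intro x hx y hy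
  rw [Finset.mem_map] at hx hy
  obtain ⟨x, hx, rfl⟩ := hx
  obtain ⟨y, hy, rfl⟩ := hy
  change Q (x + a - (y + a)) = 0
  rw [add_sub_add_right_eq_sub]
  exact hU.1 x hx y hy

open Classical in
lemma card_at (a : Cl ℓ k) : ((MU ℓ k).filter fun U => a ∈ U).card = (NX ℓ k).card := by
  unfold NX
  refine Finset.card_nbij' (fun U => U.map (Equiv.addRight (-a)).toEmbedding)
    (fun U => U.map (Equiv.addRight a).toEmbedding) ?_ ?_ ?_ ?_
  · intro U hU
    rw [Finset.mem_coe, Finset.mem_filter, mem_MU] at hU ⊢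
    refine ⟨hU.1.map _, ?_⟩
    rw [Finset.mem_map]
    exact ⟨a, hU.2, by simp⟩
  · intro U hU
    rw [Finset.mem_coe, Finset.mem_filter, mem_MU] at hU ⊢
    refine ⟨hU.1.map _, ?_⟩
    rw [Finset.mem_map]
    exact ⟨0, hU.2, by simp⟩
  · intro U _
    ext x
    simp [Finset.mem_map]
  · intro U _
    ext x
    simp [Finset.mem_map]

lemma card_MU : (MU ℓ k).card = ℓ ^ k * (NX ℓ k).card := by
  classical
  have h1 : ∑ U ∈ MU ℓ k, U.card = ∑ a : Cl ℓ k, ((MU ℓ k).filter fun U => a ∈ U).card := by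
    simp_rw [Finset.card_eq_sum_ones (Finset.filter _ _), Finset.sum_filter]
    rw [Finset.sum_comm]
    refine Finset.sum_congr rfl fun U _ => ?_
    rw [← Finset.sum_filter, ← Finset.card_eq_sum_ones]
    congr 1
    ext x
    simp
  rw [Finset.sum_congr rfl fun a _ => card_at a, Finset.sum_const, Finset.card_univ,
    Finset.sum_congr rfl fun U hU => (mem_MU.1 hU).2, Finset.sum_const, smul_eq_mul,
    smul_eq_mul] at h1
  have h2 : Fintype.card (Cl ℓ k) = ℓ ^ k * ℓ ^ k := by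
    rw [Fintype.card_prod, Fintype.card_fun, ZMod.card, Fintype.card_fin]
  rw [h2] at h1
  have h3 : 0 < ℓ ^ k := pow_pos (Fact.out : ℓ.Prime).pos k
  apply Nat.eq_of_mul_eq_mul_right h3
  rw [h1]
  ring

/-- the special vector -/
def ev : Cl ℓ (k + 1) := mk 0 0 1

open Classical in
/-- first case -/
lemma card_one (hUNL : UL ℓ) :
    ((NX ℓ (k + 1)).filter fun X => ev ∈ X).card = (NX ℓ k).card := by
  have hpos : 0 < ℓ := (Fact.out : ℓ.Prime).pos
  -- the set is determined by its trace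
  have key : ∀ X : Finset (Cl ℓ (k + 1)), Un X → 0 ∈ X → ev ∈ X →
      X = ((Finset.univ.filter fun w => mk w 0 0 ∈ X) ×ˢ
        (Finset.univ : Finset (ZMod ℓ))).image fun p => mk p.1 0 p.2 := by
    intro X hX h0 he
    obtain ⟨Y, hY1, hY2, hY3⟩ := hX.str hUNL h0
    have hY : ∀ a, a ∈ X ↔ a ∈ Y := fun a => by rw [hY3, sub_zero]
    ext x
    rw [Finset.mem_image]
    constructor
    · intro hx
      obtain ⟨w, s, g, rfl⟩ := mk_surj x
      have hs : s = 0 := by
        have h1 := hY1 _ ((hY _).1 hx) _ ((hY _).1 he)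
        unfold ev at h1
        rw [B_mk, map_zero, add_zero, zero_mul, add_zero, mul_one] at h1
        exact h1
      subst hs
      refine ⟨(w, g), ?_, rfl⟩
      rw [Finset.mem_product, Finset.mem_filter]
      refine ⟨⟨Finset.mem_univ _, ?_⟩, Finset.mem_univ _⟩
      rw [hY] at hx he ⊢
      have h1 := Y.sub_mem hx (Y.smul_mem g he)
      unfold ev at h1
      rw [mk_smul, mk_sub, smul_zero, mul_zero, mul_one, sub_zero, sub_zero, sub_self] at h1
      exact h1
    · rintro ⟨⟨w, g⟩, hw, rfl⟩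
      rw [Finset.mem_product, Finset.mem_filter] at hw
      have hw1 := hw.1.2
      rw [hY] at hw1 he ⊢
      have h1 := Y.add_mem hw1 (Y.smul_mem g he)
      unfold ev at h1
      rw [mk_smul, mk_add, smul_zero, mul_zero, mul_one, add_zero, zero_add, zero_add] at h1
      exact h1
  have hinj : ∀ X' : Finset (Cl ℓ k), Set.InjOn
      (fun p : Cl ℓ k × ZMod ℓ => (mk p.1 0 p.2 : Cl ℓ (k + 1)))
      (X' ×ˢ (Finset.univ : Finset (ZMod ℓ)) : Finset _) := by
    rintro X' ⟨w, g⟩ _ ⟨w', g'⟩ _ h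
    obtain ⟨h1, -, h2⟩ := mk_inj h
    exact Prod.ext h1 h2
  refine Finset.card_bij (fun X _ => Finset.univ.filter fun w => mk w 0 0 ∈ X) ?_ ?_ ?_
  · intro X hX
    rw [Finset.mem_filter, mem_NX] at hX
    obtain ⟨⟨hX, h0⟩, he⟩ := hX
    have h1 := congrArg Finset.card (key X hX h0 he)
    rw [Finset.card_image_of_injOn (hinj _), Finset.card_product, hX.2, Finset.card_univ,
      ZMod.card, pow_succ] at h1
    rw [mem_NX]
    refine ⟨⟨?_, (Nat.eq_of_mul_eq_mul_right hpos h1).symm⟩, ?_⟩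
    · intro a ha b hb
      rw [Finset.mem_filter] at ha hb
      have h2 := hX.1 _ ha.2 _ hb.2
      rw [mk_sub, Q_mk, sub_self, zero_mul, zero_add] at h2
      exact h2
    · rw [Finset.mem_filter, mk_zero]
      exact ⟨Finset.mem_univ _, h0⟩
  · intro X hX X' hX' h
    rw [Finset.mem_filter, mem_NX] at hX hX'
    rw [key X hX.1.1 hX.1.2 hX.2, key X' hX'.1.1 hX'.1.2 hX'.2, h]
  · intro X' hX'
    rw [mem_NX] at hX'
    refine ⟨(X' ×ˢ (Finset.univ : Finset (ZMod ℓ))).image fun p => mk p.1 0 p.2, ?_, ?_⟩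
    · rw [Finset.mem_filter, mem_NX]
      refine ⟨⟨⟨?_, ?_⟩, ?_⟩, ?_⟩
      · intro a ha b hb
        rw [Finset.mem_image] at ha hb
        obtain ⟨⟨w, g⟩, hw, rfl⟩ := ha
        obtain ⟨⟨w', g'⟩, hw', rfl⟩ := hb
        rw [Finset.mem_product] at hw hw'
        rw [mk_sub, Q_mk, sub_self, zero_mul, zero_add]
        exact hX'.1.1 _ hw.1 _ hw'.1
      · rw [Finset.card_image_of_injOn (hinj _), Finset.card_product, hX'.1.2, Finset.card_univ,
          ZMod.card, pow_succ]
      · rw [Finset.mem_image]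
        exact ⟨(0, 0), Finset.mem_product.2 ⟨hX'.2, Finset.mem_univ _⟩, mk_zero⟩
      · rw [Finset.mem_image]
        exact ⟨(0, 1), Finset.mem_product.2 ⟨hX'.2, Finset.mem_univ _⟩, rfl⟩
    · ext w
      rw [Finset.mem_filter, Finset.mem_image]
      constructor
      · rintro ⟨-, ⟨v, g⟩, hv, h⟩
        rw [Finset.mem_product] at hv
        obtain ⟨h1, -, -⟩ := mk_inj h
        rw [← h1]
        exact hv.1
      · intro hw
        exact ⟨Finset.mem_univ _, (w, 0), Finset.mem_product.2 ⟨hw, Finset.mem_univ _⟩, rfl⟩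

/-- the lift of a vector to a singular vector -/
def hat (w : Cl ℓ k) : Cl ℓ (k + 1) := mk w 1 (- Q w)

open Classical in
/-- second case -/
lemma card_two (hUNL : UL ℓ) :
    ((NX ℓ (k + 1)).filter fun X => ¬ ev ∈ X).card = (MU ℓ k).card := by
  have hpos : 0 < ℓ := (Fact.out : ℓ.Prime).pos
  have hQ0 : ∀ n : ℕ, Q (0 : Cl ℓ n) = 0 := fun n => by
    unfold Q
    simp
  -- an element with second coordinate `1`
  have key : ∀ X : Finset (Cl ℓ (k + 1)), Un X → 0 ∈ X → ev ∉ X →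
      ∃ w₁ : Cl ℓ k, hat w₁ ∈ X ∧ X = ((Finset.univ : Finset (ZMod ℓ)) ×ˢ
        (Finset.univ.filter fun w => hat w ∈ X)).image fun p => p.1 • hat w₁ + hat p.2 := by
    intro X hX h0 he
    obtain ⟨Y, hY1, hY2, hY3⟩ := hX.str hUNL h0
    have hY : ∀ a, a ∈ X ↔ a ∈ Y := fun a => by rw [hY3, sub_zero]
    have hat_of : ∀ w g, mk w 1 g ∈ X → mk w 1 g = hat w := fun w g h => by
      have h1 := hY2 _ ((hY _).1 h)
      rw [Q_mk, one_mul] at h1
      unfold hat
      rw [eq_neg_of_add_eq_zero_left h1]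
    have hex : ∃ w₁ : Cl ℓ k, hat w₁ ∈ X := by
      by_contra hne
      push Not at hne
      apply he
      refine hX.max hUNL fun x hx => ?_
      obtain ⟨w, s, g, rfl⟩ := mk_surj x
      have hs : s = 0 := by
        by_contra hs
        have h1 := Y.smul_mem s⁻¹ ((hY _).1 hx)
        rw [mk_smul, inv_mul_cancel₀ hs, ← hY] at h1
        have h2 := hat_of _ _ h1
        rw [h2] at h1
        exact hne _ h1
      subst hs
      have h1 := hY2 _ ((hY _).1 hx)
      rw [Q_mk, zero_mul, zero_add] at h1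
      unfold ev
      rw [mk_sub, Q_mk, sub_self, zero_mul, zero_add, zero_sub]
      have h2 : Q (-w) = Q w := by
        unfold Q
        refine Finset.sum_congr rfl fun i _ => ?_
        simp
      rw [h2, h1]
    obtain ⟨w₁, hw₁⟩ := hex
    refine ⟨w₁, hw₁, ?_⟩
    ext x
    rw [Finset.mem_image]
    constructor
    · intro hx
      obtain ⟨w, s, g, rfl⟩ := mk_surj x
      have h1 := Y.sub_mem ((hY _).1 hx) (Y.smul_mem (s - 1) ((hY _).1 hw₁))
      rw [← hY] at h1
      have h2 : mk w s g - (s - 1) • hat w₁ =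
          mk (w - (s - 1) • w₁) 1 (g - (s - 1) * (- Q w₁)) := by
        unfold hat
        rw [mk_smul, mk_sub]
        congr 1
        ring
      rw [h2] at h1
      have h3 := hat_of _ _ h1
      rw [h3] at h1
      refine ⟨(s - 1, w - (s - 1) • w₁), ?_, ?_⟩
      · rw [Finset.mem_product, Finset.mem_filter]
        exact ⟨Finset.mem_univ _, Finset.mem_univ _, h1⟩
      · simp only
        rw [← h3, ← h2]
        abel
    · rintro ⟨⟨s, w⟩, hw, rfl⟩
      rw [Finset.mem_product, Finset.mem_filter] at hw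
      rw [hY]
      exact Y.add_mem (Y.smul_mem _ ((hY _).1 hw₁)) ((hY _).1 hw.2.2)
  have hat_inj : ∀ w w' : Cl ℓ k, hat w = hat w' → w = w' := fun w w' h => (mk_inj h).1
  have hinj : ∀ (w₁ : Cl ℓ k) (U : Finset (Cl ℓ k)), Set.InjOn
      (fun p : ZMod ℓ × Cl ℓ k => (p.1 • hat w₁ + hat p.2 : Cl ℓ (k + 1)))
      ((Finset.univ : Finset (ZMod ℓ)) ×ˢ U : Finset _) := by
    rintro w₁ U ⟨s, w⟩ _ ⟨s', w'⟩ _ h
    simp only at h
    have h1 := h
    unfold hat at h1
    rw [mk_smul, mk_smul, mk_add, mk_add] at h1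
    obtain ⟨-, h2, -⟩ := mk_inj h1
    have h3 : s = s' := by
      rw [mul_one, mul_one] at h2
      exact add_right_cancel h2
    subst h3
    exact Prod.ext rfl (hat_inj _ _ (add_left_cancel h))
  refine Finset.card_bij (fun X _ => Finset.univ.filter fun w => hat w ∈ X) ?_ ?_ ?_
  · intro X hX
    rw [Finset.mem_filter, mem_NX] at hX
    obtain ⟨⟨hX, h0⟩, he⟩ := hX
    obtain ⟨w₁, hw₁, hk⟩ := key X hX h0 he
    have h1 := congrArg Finset.card hk
    rw [Finset.card_image_of_injOn (hinj _ _), Finset.card_product, hX.2, Finset.card_univ,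
      ZMod.card, pow_succ'] at h1
    rw [mem_MU]
    refine ⟨?_, (Nat.eq_of_mul_eq_mul_left hpos h1).symm⟩
    intro a ha b hb
    rw [Finset.mem_filter] at ha hb
    have h2 := hX.1 _ ha.2 _ hb.2
    unfold hat at h2
    rw [mk_sub, Q_mk, sub_self, zero_mul, zero_add] at h2
    exact h2
  · intro X hX X' hX' h
    rw [Finset.mem_filter, mem_NX] at hX hX'
    obtain ⟨w₁, hw₁, hk⟩ := key X hX.1.1 hX.1.2 hX.2
    obtain ⟨Y, hY1, hY2, hY3⟩ := hX'.1.1.str hUNL hX'.1.2
    have hY : ∀ a, a ∈ X' ↔ a ∈ Y := fun a => by rw [hY3, sub_zero]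
    have hiff : ∀ w, hat w ∈ X ↔ hat w ∈ X' := fun w => by
      have h1 : (w ∈ Finset.univ.filter fun w => hat w ∈ X) ↔
          (w ∈ Finset.univ.filter fun w => hat w ∈ X') := by rw [h]
      rw [Finset.mem_filter, Finset.mem_filter] at h1
      exact ⟨fun h2 => (h1.1 ⟨Finset.mem_univ _, h2⟩).2,
        fun h2 => (h1.2 ⟨Finset.mem_univ _, h2⟩).2⟩
    refine Finset.eq_of_subset_of_card_le ?_ (by rw [hX.1.1.2, hX'.1.1.2])
    intro x hx
    rw [hk, Finset.mem_image] at hx
    obtain ⟨⟨s, w⟩, hw, rfl⟩ := hx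
    rw [Finset.mem_product, Finset.mem_filter] at hw
    rw [hY]
    exact Y.add_mem (Y.smul_mem _ ((hY _).1 ((hiff _).1 hw₁))) ((hY _).1 ((hiff _).1 hw.2.2))
  · intro U hU
    rw [mem_MU] at hU
    obtain ⟨u₀, hu₀⟩ := hU.nonempty
    obtain ⟨Y, hY1, hY2, hY3⟩ := hU.str hUNL hu₀
    -- the lifted space
    let φ : ZMod ℓ × Cl ℓ k → Cl ℓ (k + 1) := fun p =>
      mk (p.1 • u₀ + (p.2 - u₀)) p.1 (- (p.1 * Q u₀) - B ℓ k (p.2 - u₀) u₀)
    have hφinj : Function.Injective φ := by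
      rintro ⟨s, w⟩ ⟨s', w'⟩ h
      obtain ⟨h1, h2, -⟩ := mk_inj h
      simp only at h1 h2
      subst h2
      exact Prod.ext rfl (sub_left_injective (add_left_cancel h1))
    have hQφ : ∀ (s : ZMod ℓ) (v : Cl ℓ k), Q v = 0 →
        Q (mk (s • u₀ + v) s (- (s * Q u₀) - B ℓ k v u₀)) = 0 := by
      intro s v hv
      rw [Q_mk]
      have h1 : Q (s • u₀ + v) = s * s * Q u₀ + s * B ℓ k v u₀ + Q v := by
        rw [B_apply]
        unfold Q
        rw [Finset.mul_sum, Finset.mul_sum, ← Finset.sum_add_distrib, ← Finset.sum_add_distrib]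
        refine Finset.sum_congr rfl fun i _ => ?_
        simp only [Prod.fst_add, Prod.snd_add, Pi.add_apply, Prod.smul_fst, Prod.smul_snd,
          Pi.smul_apply, smul_eq_mul]
        ring
      rw [h1, hv]
      ring
    refine ⟨((Finset.univ : Finset (ZMod ℓ)) ×ˢ U).image φ, ?_, ?_⟩
    · rw [Finset.mem_filter, mem_NX]
      refine ⟨⟨⟨?_, ?_⟩, ?_⟩, ?_⟩
      · intro a ha b hb
        rw [Finset.mem_image] at ha hb
        obtain ⟨⟨s, w⟩, hw, rfl⟩ := ha
        obtain ⟨⟨s', w'⟩, hw', rfl⟩ := hb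
        rw [Finset.mem_product] at hw hw'
        have h1 : φ (s, w) - φ (s', w') = mk ((s - s') • u₀ + (w - w')) (s - s')
            (- ((s - s') * Q u₀) - B ℓ k (w - w') u₀) := by
          change mk _ _ _ - mk _ _ _ = _
          rw [mk_sub]
          congr 1
          · simp only [sub_smul]
            abel
          · simp only [map_sub, LinearMap.sub_apply]
            ring
        rw [h1]
        exact hQφ _ _ (hU.1 _ hw.2 _ hw'.2)
      · rw [Finset.card_image_of_injective _ hφinj, Finset.card_product, hU.2, Finset.card_univ,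
          ZMod.card, pow_succ']
      · rw [Finset.mem_image]
        refine ⟨(0, u₀), Finset.mem_product.2 ⟨Finset.mem_univ _, hu₀⟩, ?_⟩
        change mk _ _ _ = _
        simp only [zero_smul, sub_self, add_zero, zero_mul, neg_zero, map_zero,
          LinearMap.zero_apply]
        exact mk_zero
      · rw [Finset.mem_image]
        rintro ⟨⟨s, w⟩, hw, h⟩
        obtain ⟨h1, h2, h3⟩ := mk_inj h
        simp only at h1 h2 h3
        subst h2
        rw [zero_smul, zero_add] at h1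
        rw [h1, zero_mul, neg_zero, map_zero, LinearMap.zero_apply, sub_zero] at h3
        exact zero_ne_one h3
    · ext w
      rw [Finset.mem_filter, Finset.mem_image]
      constructor
      · rintro ⟨-, ⟨s, v⟩, hv, h⟩
        rw [Finset.mem_product] at hv
        obtain ⟨h1, h2, -⟩ := mk_inj h
        simp only at h1 h2
        subst h2
        rw [one_smul, add_sub_cancel] at h1
        rw [← h1]
        exact hv.2
      · intro hw
        refine ⟨Finset.mem_univ _, (1, w), Finset.mem_product.2 ⟨Finset.mem_univ _, hw⟩, ?_⟩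
        change mk _ _ _ = mk _ _ _
        simp only [one_smul, add_sub_cancel, one_mul]
        congr 1
        have h1 := hU.1 _ hw _ hu₀
        have h2 : Q w = Q (w - u₀) + B ℓ k (w - u₀) u₀ + Q u₀ := by
          rw [B_apply]
          unfold Q
          rw [← Finset.sum_add_distrib, ← Finset.sum_add_distrib]
          refine Finset.sum_congr rfl fun i _ => ?_
          simp only [Prod.fst_sub, Prod.snd_sub, Pi.sub_apply]
          ring
        rw [h2, h1]
        ring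

lemma card_NX_succ (hUNL : UL ℓ) :
    (NX ℓ (k + 1)).card = (NX ℓ k).card * (1 + ℓ ^ k) := by
  classical
  rw [← Finset.card_filter_add_card_filter_not (s := NX ℓ (k + 1)) (fun X => ev ∈ X),
    card_one hUNL, card_two hUNL, card_MU]
  ring

lemma card_NX_zero : (NX ℓ 0).card = 1 := by
  rw [Finset.card_eq_one]
  refine ⟨{0}, ?_⟩
  ext U
  rw [mem_NX, Finset.mem_singleton]
  constructor
  · rintro ⟨-, h⟩
    refine Finset.eq_singleton_iff_unique_mem.2 ⟨h, fun x _ => Subsingleton.elim _ _⟩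
  · rintro rfl
    refine ⟨⟨fun a _ b _ => ?_, by simp⟩, Finset.mem_singleton_self _⟩
    unfold Q
    simp

lemma card_NX (hUNL : UL ℓ) (k : ℕ) :
    (NX ℓ k).card = ∏ i ∈ Finset.range k, (1 + ℓ ^ i) := by
  induction k with
  | zero => rw [card_NX_zero, Finset.prod_range_zero]
  | succ k ih => rw [card_NX_succ hUNL, ih, Finset.prod_range_succ]

end

theorem t_CNT2 (hUNL : S_UNL2) : S_CNT2 := by
  intro k
  have hU : UL 2 := by
    intro k U h
    obtain ⟨h1, h2⟩ := hUNL k U h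
    refine ⟨h1, fun h3 => ?_⟩
    obtain ⟨x₀, X, h4, h5, h6, h7⟩ := h2 h3
    refine ⟨x₀, X, fun x hx y hy => ?_, fun x hx => ?_, h6, h7⟩
    · rw [B_apply]
      exact h4 x hx y hy
    · exact h5 x hx
  rw [← card_NX hU k, ← card_MU, ← Nat.card_eq_finsetCard]
  refine Nat.card_congr (Equiv.subtypeEquivRight fun U => ?_)
  rw [mem_MU]
  unfold Un
  refine and_congr_left fun _ => ?_
  refine forall₂_congr fun a _ => forall₂_congr fun b _ => ?_
  rw [rc_eq, neg_eq_zero]

end T2h16.TG.CNT2
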