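import Pool.Agent.T2h16.TG.Stm
import Pool.Agent.Q283.GA.Cri

/-!
# CRI2: the criterion for one member (Gaussian primes)
-/

set_option autoImplicit false

namespace T2h16.TG.CRI2

open T2h16.TG T2h16.TG.Def
open Q283.GA.St (Adm sy Concl)

theorem qs_eq (π x : GaussianInt) : Pool.Agent.Y715.Qr.qs π x = sy π x := by
  classical
  unfold Pool.Agent.Y715.Qr.qs sy
  by_cases h : ∃ y, π ∣ x - y ^ 2
  · have h' : Pool.Agent.Y715.Qr.Sqm π x := h
    rw [if_pos h', if_pos h]
  · have h' : ¬ Pool.Agent.Y715.Qr.Sqm π x := h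
    rw [if_neg h', if_neg h]

theorem ap_prod (hP : S_PAR2) {ι : Type} (s : Finset ι) (g : ι → GaussianInt)
    (hg : ∀ i ∈ s, tt ∣ g i - 1) :
    tt ∣ ∏ i ∈ s, g i - 1 ∧ ap (∏ i ∈ s, g i) = ∑ i ∈ s, ap (g i) := by
  classical
  obtain ⟨h1, -, -, -, -, h6⟩ := hP
  induction s using Finset.induction_on with
  | empty =>
    rw [Finset.prod_empty, Finset.sum_empty, sub_self]
    exact ⟨dvd_zero _, h6⟩
  | insert a s ha ih =>
    obtain ⟨h2, h3⟩ := ih fun i hi => hg i (Finset.mem_insert_of_mem hi)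
    have h4 := h1 (g a) (∏ i ∈ s, g i) (hg a (Finset.mem_insert_self a s)) h2
    rw [Finset.prod_insert ha, Finset.sum_insert ha]
    exact ⟨h4.1, by rw [h4.2, h3]⟩

theorem t_CRI2 (hP : S_PAR2) : S_CRI2 := by
  intro k hk x hx hker haS σ ζ hζ
  refine Q283.GA.concl_of k x.1.card hk (fun j => (σ j : GaussianInt)) (fun j => (hx (σ j)).1.1)
    (fun i j hij => σ.injective (Subtype.ext hij)) (fun j => (hx (σ j)).1.2.1)
    (fun j => (hx (σ j)).1.2.2) ?_ ?_ (fun j => x.2 (σ j)) (fun j => (hx (σ j)).2) ζ hζ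
  · intro v hv
    have h1 := hker (fun i => v (σ.symm i)) (by
      intro j
      obtain ⟨j, rfl⟩ := σ.surjective j
      rw [← σ.sum_comp]
      refine Eq.trans ?_ (hv j)
      refine Finset.sum_congr rfl fun i _ => ?_
      rw [σ.symm_apply_apply, σ.symm_apply_apply]
      have h2 : Pool.Agent.Y715.Sel.aij (fun j => (σ j : GaussianInt)) i j =
          sy (σ j : GaussianInt) (σ i : GaussianInt) := qs_eq _ _
      rw [h2]
      congr 1
      have h3 : ∀ a b : ZMod 2, a - b = a + b := by decide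
      exact h3 _ _)
    intro i j
    have h2 := h1 (σ i) (σ j)
    rwa [σ.symm_apply_apply, σ.symm_apply_apply] at h2
  · intro h9
    apply haS
    have h1 := hP.2.2.2.2.1 _ h9
    rw [(ap_prod hP Finset.univ (fun j => (σ j : GaussianInt))
      fun j _ => hP.2.2.2.1 _ (hx (σ j)).1.2.1).2] at h1
    rw [← σ.sum_comp]
    exact h1

end T2h16.TG.CRI2
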