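import Pool.Agent.T2h16.TG.Stm
import Pool.Agent.T2h16.TG.H21

/-!
# Project TG (helper16, MP_a43263), task DEN2: the density of the places of norm one modulo a power of two

Adapted from `Pool/Agent/T3h73/TK/T_DENQ.lean`.
-/

set_option autoImplicit false
set_option linter.all false

open NumberField IsDedekindDomain Filter Topology

namespace T2h16.TG.DEN2

open Pool.Agent.T3h73.SL (Pl)
open Pool.Agent.T3h73.TK (Dens S_PAP)
open T2h16.TG.H21

theorem eq_of_dvd {π ρ : GaussianInt} (h : Prime π) (h3 : tt ∣ π - 1) (h' : Prime ρ)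
    (h3' : tt ∣ ρ - 1) (hd : ρ ∣ π) : ρ = π :=
  uniq_assoc h3' h3 ((h'.dvd_prime_iff_associated h).1 hd)

theorem prime_of_norm {π : GaussianInt} {p : ℕ} (hp : p.Prime) (h : π.norm = p) : Prime π := by
  rw [← irreducible_iff_prime]
  constructor
  · intro hu
    have h1 := (Zsqrtd.norm_eq_one_iff' (by norm_num) π).2 hu
    rw [h] at h1
    have h2 := hp.one_lt
    omega
  · intro a b hab
    have h1 : a.norm * b.norm = p := by rw [← Zsqrtd.norm_mul, ← hab, h]
    have h2 : a.norm.natAbs * b.norm.natAbs = p := by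
      rw [← Int.natAbs_mul, h1, Int.natAbs_natCast]
    rw [← h2] at hp
    rcases Nat.prime_mul_iff.1 hp with ⟨-, h3⟩ | ⟨-, h3⟩
    · right; exact Zsqrtd.norm_eq_one_iff.1 h3
    · left; exact Zsqrtd.norm_eq_one_iff.1 h3

theorem star_norm (z : GaussianInt) : (star z).norm = z.norm := by
  rw [norm_eq, norm_eq, Zsqrtd.re_star, Zsqrtd.im_star]
  ring

theorem mul_star (z : GaussianInt) : z * star z = ((z.norm : ℤ) : GaussianInt) :=
  (Zsqrtd.norm_eq_mul_conj z).symm

/-- a primary prime of norm `p` -/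
theorem exists_norm {p : ℕ} (hp : p.Prime) (h1 : 4 ∣ p - 1) :
    ∃ π : GaussianInt, Prime π ∧ tt ∣ π - 1 ∧ π.norm = p := by
  have := Fact.mk hp
  have hp1 := hp.one_lt
  obtain ⟨a, b, hab⟩ := Nat.Prime.sq_add_sq (p := p) (by omega)
  have h2 : (⟨a, b⟩ : GaussianInt).norm = p := by
    rw [norm_eq]
    show (a : ℤ) ^ 2 + (b : ℤ) ^ 2 = p
    exact_mod_cast hab
  obtain ⟨u, hu, hu1⟩ := exists_prim (β := ⟨a, b⟩) (by
    rw [h2]
    omega)
  have h3 : ((⟨a, b⟩ : GaussianInt) * u).norm = p := by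
    rw [Zsqrtd.norm_mul, h2, (Zsqrtd.norm_eq_one_iff' (by norm_num) u).2 hu, mul_one]
  exact ⟨⟨a, b⟩ * u, prime_of_norm hp h3, hu1, h3⟩

theorem ne_star {π : GaussianInt} {p : ℕ} (hp : p.Prime) (h : π.norm = p) : π ≠ star π := by
  intro he
  have h1 := congrArg Zsqrtd.im he
  rw [Zsqrtd.im_star] at h1
  have h2 : π.im = 0 := by omega
  rw [norm_eq, h2] at h
  have h3 : (π.re) ^ 2 = (p : ℤ) := by rw [← h]; ring
  have h4 : (π.re.natAbs) ^ 2 = p := by
    have := congrArg Int.natAbs h3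
    rwa [Int.natAbs_pow, Int.natAbs_natCast] at this
  rw [← h4] at hp
  exact Nat.Prime.not_prime_pow (le_refl 2) hp

/-- a rational prime -/
theorem exists_rat {π : GaussianInt} (hπ : Prime π) : ∃ l : ℕ, l.Prime ∧ π ∣ (l : GaussianInt) := by
  have hN : π ∣ ((π.norm.natAbs : ℕ) : GaussianInt) := by
    refine ⟨star π, ?_⟩
    rw [← Zsqrtd.norm_eq_mul_conj]
    have h1 : ((π.norm.natAbs : ℕ) : ℤ) = π.norm := Int.natAbs_of_nonneg (GaussianInt.norm_nonneg π)
    have h2 := congrArg (fun a : ℤ => (a : GaussianInt)) h1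
    simp only [Int.cast_natCast] at h2
    exact h2
  have hN0 : π.norm.natAbs ≠ 0 := fun h0 =>
    hπ.ne_zero (GaussianInt.norm_eq_zero.1 (Int.natAbs_eq_zero.1 h0))
  rw [← Nat.prod_primeFactorsList hN0, Nat.cast_list_prod, hπ.dvd_prod_iff] at hN
  obtain ⟨a, ha, hd⟩ := hN
  rw [List.mem_map] at ha
  obtain ⟨l, hl, rfl⟩ := ha
  exact ⟨l, Nat.prime_of_mem_primeFactorsList hl, hd⟩

theorem exists_p {π : GaussianInt} (hπ : Prime π) : ∃ l : ℕ, l.Prime ∧ π ∣ (l : GaussianInt) ∧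
    (π.norm = l ∨ π.norm = (l : ℤ) ^ 2) := by
  obtain ⟨l, hl, w, hw⟩ := exists_rat hπ
  refine ⟨l, hl, ⟨w, hw⟩, ?_⟩
  have hn : π.norm * w.norm = l * l := by
    rw [← Zsqrtd.norm_mul, ← hw, Zsqrtd.norm_natCast]
  have hn' : π.norm.natAbs * w.norm.natAbs = l ^ 2 := by
    rw [← Int.natAbs_mul, hn, Int.natAbs_mul, Int.natAbs_natCast, pow_two]
  have hN1 : π.norm.natAbs ≠ 1 := fun h0 => hπ.not_isUnit (Zsqrtd.norm_eq_one_iff.1 h0)
  have hnn : ((π.norm.natAbs : ℕ) : ℤ) = π.norm := Int.natAbs_of_nonneg (GaussianInt.norm_nonneg π)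
  obtain ⟨e, he, hπe⟩ := (Nat.dvd_prime_pow hl).1 (⟨_, hn'.symm⟩ : π.norm.natAbs ∣ l ^ 2)
  rcases (by omega : e = 0 ∨ e = 1 ∨ e = 2) with rfl | rfl | rfl
  · exact absurd hπe hN1
  · left
    rw [pow_one] at hπe
    rw [← hnn, hπe]
  · right
    rw [← hnn, hπe]
    push_cast
    rfl

theorem star_prime {π : GaussianInt} {p : ℕ} (hp : p.Prime) (h : π.norm = p) : Prime (star π) :=
  prime_of_norm hp (by rw [star_norm, h])

theorem log_top : Tendsto (fun s : ℝ => Real.log (1 / (s - 1))) (𝓝[>] 1) atTop := by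
  refine Real.tendsto_log_atTop.comp ?_
  have h1 : Tendsto (fun s : ℝ => s - 1) (𝓝[>] 1) (𝓝[>] 0) := by
    refine tendsto_nhdsWithin_iff.2 ⟨?_, ?_⟩
    · have : Tendsto (fun s : ℝ => s - 1) (𝓝 1) (𝓝 (1 - 1)) := by
        exact (continuous_id.sub continuous_const).tendsto 1
      rw [sub_self] at this
      exact this.mono_left nhdsWithin_le_nhds
    · filter_upwards [self_mem_nhdsWithin] with s hs
      exact sub_pos.2 (Set.mem_Ioi.1 hs)
  have h2 := tendsto_inv_nhdsGT_zero.comp h1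
  refine h2.congr fun s => ?_
  simp [Function.comp, one_div]

theorem t_DEN2 (hPAP : S_PAP) (hDIC : S_DIC2) : S_DEN2 := by
  intro K _ _ f k hk
  classical
  obtain ⟨S, hS, hg, hex⟩ := hDIC K f
  have hinj : ∀ q, q ∉ S → ∀ q', q' ∉ S → gn f q = gn f q' → q = q' := by
    intro q hq q' hq' h
    apply HeightOneSpectrum.ext
    rw [← (hg q hq).2.2.1, ← (hg q' hq').2.2.1, h]
  have hQS : ∀ q ∈ Qk f k, q ∉ S := fun q hq h => hq.1 ((hS q).1 h)
  have hk3 : ∀ n : ℕ, (2 : ℤ) ^ (k + 2) ∣ (n : ℤ) - 1 ↔ (n : ZMod (2 ^ (k + 2))) = 1 := by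
    intro n
    have h1 := ZMod.intCast_eq_intCast_iff_dvd_sub 1 (n : ℤ) (2 ^ (k + 2))
    push_cast at h1
    rw [← h1]
    exact eq_comm
  let P : Type := {p : ℕ | p.Prime ∧ (p : ZMod (2 ^ (k + 2))) = 1}
  have hP3 : ∀ p : P, 4 ∣ p.1 - 1 := by
    intro p
    have h1 := (hk3 p.1).2 p.2.2
    have h2 : (4 : ℤ) ∣ (p.1 : ℤ) - 1 := Dvd.dvd.trans ⟨2 ^ k, by rw [pow_add]; ring⟩ h1
    have h3 := p.2.1.one_lt
    omega
  choose π hπ using fun p : P => exists_norm p.2.1 (hP3 p)
  choose V1 hV1 using fun p : P => hex (π p) (hπ p).1 (hπ p).2.1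
  choose V2 hV2 using fun p : P => hex (star (π p)) (star_prime p.2.1 (hπ p).2.2) (star_tt (hπ p).2.1)
  have hN1 : ∀ p : P, Ideal.absNorm (V1 p).asIdeal = p.1 := by
    intro p
    have h1 := (hg (V1 p) (hV1 p).1).2.2.2
    rw [(hV1 p).2] at h1
    rw [(hπ p).2.2] at h1
    exact_mod_cast h1.symm
  have hN2 : ∀ p : P, Ideal.absNorm (V2 p).asIdeal = p.1 := by
    intro p
    have h1 := (hg (V2 p) (hV2 p).1).2.2.2
    rw [(hV2 p).2] at h1
    rw [star_norm, (hπ p).2.2] at h1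
    exact_mod_cast h1.symm
  have hi1 : Function.Injective V1 := by
    intro p p' h
    apply Subtype.ext
    rw [← hN1 p, ← hN1 p', h]
  have hi2 : Function.Injective V2 := by
    intro p p' h
    apply Subtype.ext
    rw [← hN2 p, ← hN2 p', h]
  have hdis : ∀ p p' : P, V1 p ≠ V2 p' := by
    intro p p' h
    have h1 : p = p' := by
      apply Subtype.ext
      rw [← hN1 p, ← hN2 p', h]
    subst h1
    exact ne_star p.2.1 (hπ p).2.2 ((hV1 p).2.symm.trans ((congrArg (gn f) h).trans (hV2 p).2))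
  have hm1 : ∀ p : P, V1 p ∈ Qk f k := by
    intro p
    refine ⟨fun h => (hV1 p).1 ((hS _).2 h), ?_⟩
    rw [hN1]
    exact (hk3 _).2 p.2.2
  have hm2 : ∀ p : P, V2 p ∈ Qk f k := by
    intro p
    refine ⟨fun h => (hV2 p).1 ((hS _).2 h), ?_⟩
    rw [hN2]
    exact (hk3 _).2 p.2.2
  have hcov : ∀ q ∈ Qk f k, (Ideal.absNorm q.asIdeal).Prime →
      q ∈ Set.range V1 ∨ q ∈ Set.range V2 := by
    intro q hq hpr
    have hq0 := hQS q hq
    obtain ⟨h1, h2, h3, h4⟩ := hg q hq0
    obtain ⟨p, hp⟩ : ∃ p : P, p.1 = Ideal.absNorm q.asIdeal := ⟨⟨_, hpr, (hk3 _).1 hq.2⟩, rfl⟩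
    have h5 : gn f q ∣ π p * star (π p) := by
      rw [mul_star, (hπ p).2.2, hp, ← h4]
      rw [← mul_star]
      exact dvd_mul_right _ _
    rcases h1.dvd_or_dvd h5 with h6 | h6
    · left
      have h7 := eq_of_dvd (hπ p).1 (hπ p).2.1 h1 h2 h6
      refine ⟨p, hinj _ (hV1 p).1 _ hq0 ?_⟩
      rw [(hV1 p).2, h7]
    · right
      have h7 := eq_of_dvd (star_prime p.2.1 (hπ p).2.2) (star_tt (hπ p).2.1) h1 h2 h6
      refine ⟨p, hinj _ (hV2 p).1 _ hq0 ?_⟩
      rw [(hV2 p).2, h7]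
  -- the other places
  let I : Set (Pl K) := {q | q ∈ Qk f k ∧ ¬ (Ideal.absNorm q.asIdeal).Prime}
  have hI : ∀ q : I, ∃ l : ℕ, l.Prime ∧ gn f q.1 ∣ (l : GaussianInt) ∧
      Ideal.absNorm q.1.asIdeal = l ^ 2 := by
    rintro ⟨q, hq, hn⟩
    obtain ⟨h1, h2, h3, h4⟩ := hg q (hQS q hq)
    obtain ⟨l, hl, hd, h5⟩ := exists_p (π := gn f q) h1
    rw [h4] at h5
    refine ⟨l, hl, hd, ?_⟩
    rcases h5 with h5 | h5
    · exfalso
      apply hn
      have h7 : Ideal.absNorm q.asIdeal = l := by exact_mod_cast h5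
      rw [h7]; exact hl
    · exact_mod_cast h5
  choose l hl hd hNl using hI
  have hli : Function.Injective l := by
    intro q q' h
    apply Subtype.ext
    have hq0 := hQS q.1 q.2.1
    have hq0' := hQS q'.1 q'.2.1
    obtain ⟨h1, h2, h3, h4⟩ := hg q.1 hq0
    obtain ⟨h1', h2', h3', h4'⟩ := hg q'.1 hq0'
    apply hinj _ hq0 _ hq0'
    apply eq_of_dvd h1' h2' h1 h2
    -- `l` is an associate of `gn f q'`
    obtain ⟨c, hc⟩ := hd q'
    have h5 : (gn f q'.1).norm = (l q' : ℤ) ^ 2 := by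
      rw [h4', hNl q']
      push_cast
      rfl
    have h6 : c.norm = 1 := by
      have h7 := Zsqrtd.norm_natCast (d := -1) (l q')
      rw [← pow_two] at h7
      rw [show ((l q' : ℕ) : ℤ√(-1)) = gn f q'.1 * c from hc, Zsqrtd.norm_mul, h5] at h7
      have h8 : ((l q' : ℤ)) ^ 2 ≠ 0 := by
        have := (hl q').ne_zero
        positivity
      exact mul_left_cancel₀ h8 (by rw [h7, mul_one])
    have h7 : gn f q.1 ∣ gn f q'.1 * c := by
      rw [← hc, ← h]
      exact hd q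
    rcases h1.dvd_or_dvd h7 with h8 | h8
    · exact h8
    · exact absurd (isUnit_of_dvd_unit h8 ((Zsqrtd.norm_eq_one_iff' (by norm_num) c).1 h6)) h1.not_isUnit
  -- analysis
  let G : ℝ → Pl K → ℝ := fun s q => (Ideal.absNorm q.asIdeal : ℝ) ^ (-s)
  have hsP : ∀ s : ℝ, 1 < s → Summable (fun p : P => ((p.1 : ℕ) : ℝ) ^ (-s)) := by
    intro s hs
    have h1 : Summable (fun n : ℕ => (n : ℝ) ^ (-s)) := Real.summable_nat_rpow.2 (by linarith)
    exact h1.comp_injective Subtype.val_injective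
  have hsum1 : ∀ s : ℝ, 1 < s → HasSum (Set.indicator (Set.range V1) (G s))
      (∑' p : P, ((p.1 : ℕ) : ℝ) ^ (-s)) := by
    intro s hs
    rw [← hi1.hasSum_iff (fun x hx => Set.indicator_of_notMem hx _)]
    have h1 : Set.indicator (Set.range V1) (G s) ∘ V1 = fun p : P => ((p.1 : ℕ) : ℝ) ^ (-s) := by
      funext p
      simp only [Function.comp]
      rw [Set.indicator_of_mem (Set.mem_range_self p)]
      show (Ideal.absNorm (V1 p).asIdeal : ℝ) ^ (-s) = _
      rw [hN1]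
    rw [h1]
    exact (hsP s hs).hasSum
  have hsum2 : ∀ s : ℝ, 1 < s → HasSum (Set.indicator (Set.range V2) (G s))
      (∑' p : P, ((p.1 : ℕ) : ℝ) ^ (-s)) := by
    intro s hs
    rw [← hi2.hasSum_iff (fun x hx => Set.indicator_of_notMem hx _)]
    have h1 : Set.indicator (Set.range V2) (G s) ∘ V2 = fun p : P => ((p.1 : ℕ) : ℝ) ^ (-s) := by
      funext p
      simp only [Function.comp]
      rw [Set.indicator_of_mem (Set.mem_range_self p)]
      show (Ideal.absNorm (V2 p).asIdeal : ℝ) ^ (-s) = _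
      rw [hN2]
    rw [h1]
    exact (hsP s hs).hasSum
  have hI1 : Summable (Set.indicator I (G 1)) := by
    rw [← summable_subtype_iff_indicator]
    have h1 : (G 1 ∘ ((↑) : I → Pl K)) = (fun n : ℕ => (n : ℝ) ^ (-(2 : ℝ))) ∘ l := by
      funext q
      simp only [Function.comp]
      show (Ideal.absNorm q.1.asIdeal : ℝ) ^ (-(1 : ℝ)) = _
      rw [hNl q]
      push_cast
      rw [← Real.rpow_natCast, ← Real.rpow_mul (Nat.cast_nonneg _)]
      norm_num
    rw [h1]
    exact (Real.summable_nat_rpow.2 (by norm_num)).comp_injective hli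
  have hG1 : ∀ s : ℝ, 1 < s → ∀ q, Set.indicator I (G s) q ≤ Set.indicator I (G 1) q := by
    intro s hs q
    apply Set.indicator_le_indicator
    apply Real.rpow_le_rpow_of_exponent_le
    · have h1 : 0 < Ideal.absNorm q.asIdeal := Nat.pos_of_ne_zero (by
        rw [Ne, Ideal.absNorm_eq_zero_iff]; exact q.ne_bot)
      exact_mod_cast h1
    · linarith
  have hG0 : ∀ s : ℝ, ∀ q, 0 ≤ Set.indicator I (G s) q := by
    intro s q
    apply Set.indicator_nonneg
    intro x _
    exact Real.rpow_nonneg (Nat.cast_nonneg _) _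
  have hIs : ∀ s : ℝ, 1 < s → Summable (Set.indicator I (G s)) := fun s hs =>
    Summable.of_nonneg_of_le (hG0 s) (hG1 s hs) hI1
  have hdec : ∀ s : ℝ, 1 < s → (∑' q : Pl K, if q ∈ Qk f k then
      (Ideal.absNorm q.asIdeal : ℝ) ^ (-s) else 0) =
      2 * (∑' p : ℕ, if p.Prime ∧ (p : ZMod (2 ^ (k + 2))) = 1 then (p : ℝ) ^ (-s) else 0) +
        ∑' q, Set.indicator I (G s) q := by
    intro s hs
    have h1 := ((hsum1 s hs).add (hsum2 s hs)).add (hIs s hs).hasSum
    have h2 : (∑' p : P, ((p.1 : ℕ) : ℝ) ^ (-s)) =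
        ∑' p : ℕ, if p.Prime ∧ (p : ZMod (2 ^ (k + 2))) = 1 then (p : ℝ) ^ (-s) else 0 := by
      have h3 := tsum_subtype {p : ℕ | p.Prime ∧ (p : ZMod (2 ^ (k + 2))) = 1}
        (fun p : ℕ => (p : ℝ) ^ (-s))
      refine h3.trans (tsum_congr fun p => ?_)
      by_cases h : p.Prime ∧ (p : ZMod (2 ^ (k + 2))) = 1
      · rw [Set.indicator_of_mem (show p ∈ {p : ℕ | p.Prime ∧ (p : ZMod (2 ^ (k + 2))) = 1} from h),
          if_pos h]
      · rw [Set.indicator_of_notMem
          (show p ∉ {p : ℕ | p.Prime ∧ (p : ZMod (2 ^ (k + 2))) = 1} from h), if_neg h]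
    rw [← h2]
    have h3 : (fun q : Pl K => if q ∈ Qk f k then (Ideal.absNorm q.asIdeal : ℝ) ^ (-s) else 0) =
        fun q => Set.indicator (Set.range V1) (G s) q + Set.indicator (Set.range V2) (G s) q +
          Set.indicator I (G s) q := by
      funext q
      by_cases hq : q ∈ Qk f k
      · rw [if_pos hq]
        by_cases hpr : (Ideal.absNorm q.asIdeal).Prime
        · have hqI : q ∉ I := fun h => h.2 hpr
          rw [Set.indicator_of_notMem hqI, add_zero]
          rcases hcov q hq hpr with h | h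
          · have h' : q ∉ Set.range V2 := by
              rintro ⟨p', hp'⟩
              obtain ⟨p, hp⟩ := h
              exact hdis p p' (hp.trans hp'.symm)
            rw [Set.indicator_of_mem h, Set.indicator_of_notMem h', add_zero]
          · have h' : q ∉ Set.range V1 := by
              rintro ⟨p', hp'⟩
              obtain ⟨p, hp⟩ := h
              exact hdis p' p (hp'.trans hp.symm)
            rw [Set.indicator_of_mem h, Set.indicator_of_notMem h', zero_add]
        · have hqI : q ∈ I := ⟨hq, hpr⟩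
          have h1 : q ∉ Set.range V1 := by
            rintro ⟨p, rfl⟩
            exact hpr (by rw [hN1]; exact p.2.1)
          have h2 : q ∉ Set.range V2 := by
            rintro ⟨p, rfl⟩
            exact hpr (by rw [hN2]; exact p.2.1)
          rw [Set.indicator_of_notMem h1, Set.indicator_of_notMem h2, Set.indicator_of_mem hqI,
            zero_add, zero_add]
      · rw [if_neg hq]
        have hqI : q ∉ I := fun h => hq h.1
        have h1 : q ∉ Set.range V1 := by
          rintro ⟨p, rfl⟩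
          exact hq (hm1 p)
        have h2 : q ∉ Set.range V2 := by
          rintro ⟨p, rfl⟩
          exact hq (hm2 p)
        rw [Set.indicator_of_notMem h1, Set.indicator_of_notMem h2, Set.indicator_of_notMem hqI,
          zero_add, zero_add]
    rw [h3, h1.tsum_eq]
    ring
  -- the limit
  show Tendsto _ _ _
  have hL := log_top
  have hT := hPAP (2 ^ (k + 2)) (Nat.one_le_pow _ _ (by norm_num))
  have hJ : Tendsto (fun s : ℝ => (∑' q, Set.indicator I (G s) q) / Real.log (1 / (s - 1)))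
      (𝓝[>] 1) (𝓝 0) := by
    have h0 : Tendsto (fun s : ℝ => (∑' q, Set.indicator I (G 1) q) / Real.log (1 / (s - 1)))
        (𝓝[>] 1) (𝓝 0) := hL.const_div_atTop _
    refine tendsto_of_tendsto_of_tendsto_of_le_of_le' tendsto_const_nhds h0 ?_ ?_
    · filter_upwards [hL.eventually_gt_atTop 0] with s hs
      exact div_nonneg (tsum_nonneg (hG0 s)) hs.le
    · filter_upwards [hL.eventually_gt_atTop 0, self_mem_nhdsWithin] with s hs hs1
      refine div_le_div_of_nonneg_right ?_ hs.le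
      exact (hIs s hs1).tsum_le_tsum (hG1 s hs1) hI1
  have h1 := (hT.const_mul 2).add hJ
  have h2 : 2 * (1 / ((2 ^ (k + 2)).totient : ℝ)) + 0 = 1 / ((2 ^ k : ℕ) : ℝ) := by
    rw [Nat.totient_prime_pow_succ Nat.prime_two]
    push_cast
    rw [pow_succ]
    field_simp
    norm_num
  rw [h2] at h1
  refine h1.congr' ?_
  filter_upwards [self_mem_nhdsWithin] with s hs
  rw [hdec s hs, add_div, mul_div_assoc]

end T2h16.TG.DEN2
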