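import Pool.Agent.T2h16.TG.Stm
import Pool.Agent.Y715.Rs

/-!
# Project TG, task DIC2 (helper67): the dictionary between places and primary primes
-/

set_option autoImplicit false
set_option linter.all false

open NumberField IsDedekindDomain

namespace T2h16.TG.DIC2

open Pool.Agent.T3h73.SL (Pl)
open T2h16.TG
open Pool.Agent.Y715.Rs

variable {K : Type} [Field K] [NumberField K]

theorem exists_gen (f : GaussianInt ≃+* 𝓞 K) (I : Ideal (𝓞 K)) :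
    ∃ α : GaussianInt, Ideal.span {f α} = I := by
  obtain ⟨α, hα⟩ := (IsPrincipalIdealRing.principal (I.comap (f : GaussianInt →+* 𝓞 K))).principal
  refine ⟨α, ?_⟩
  have h1 : Ideal.map (f : GaussianInt →+* 𝓞 K) (I.comap (f : GaussianInt →+* 𝓞 K)) = I :=
    Ideal.map_comap_of_surjective _ f.surjective I
  rw [← h1, hα]
  rw [Ideal.submodule_span_eq, Ideal.map_span, Set.image_singleton]
  rfl

theorem tt_dvd (z : GaussianInt) : tt ∣ z ↔ (4 : ℤ) ∣ z.re + z.im ∧ (4 : ℤ) ∣ z.re - z.im := by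
  constructor
  · rintro ⟨w, rfl⟩
    have h1 : (tt * w).re = 2 * w.re + (-1) * 2 * w.im := Zsqrtd.re_mul _ _
    have h2 : (tt * w).im = 2 * w.im + 2 * w.re := Zsqrtd.im_mul _ _
    rw [h1, h2]
    exact ⟨⟨w.re, by ring⟩, ⟨-w.im, by ring⟩⟩
  · rintro ⟨⟨a, ha⟩, ⟨b, hb⟩⟩
    refine ⟨⟨a, -b⟩, ?_⟩
    apply Zsqrtd.ext
    · rw [Zsqrtd.re_mul]
      show z.re = 2 * a + (-1) * 2 * (-b)
      omega
    · rw [Zsqrtd.im_mul]
      show z.im = 2 * (-b) + 2 * a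
      omega

theorem unit_one {u : GaussianInt} (hu : IsUnit u) (h3 : tt ∣ u - 1) : u = 1 := by
  rw [tt_dvd] at h3
  rw [Zsqrtd.re_sub, Zsqrtd.im_sub, Zsqrtd.re_one, Zsqrtd.im_one] at h3
  have h1 := (Zsqrtd.norm_eq_one_iff.2 hu)
  rw [Zsqrtd.norm_def] at h1
  have h2 : u.re * u.re + u.im * u.im = 1 := by
    have h4 : u.re * u.re - -1 * u.im * u.im = u.re * u.re + u.im * u.im := by ring
    rw [h4] at h1
    have h5 : 0 ≤ u.re * u.re + u.im * u.im :=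
      add_nonneg (mul_self_nonneg _) (mul_self_nonneg _)
    omega
  obtain ⟨h4, h5⟩ := h3
  have ha : -1 ≤ u.re ∧ u.re ≤ 1 := ⟨by nlinarith, by nlinarith⟩
  have hb : -1 ≤ u.im ∧ u.im ≤ 1 := ⟨by nlinarith, by nlinarith⟩
  have h6 : u.re = 1 ∧ u.im = 0 := by
    obtain ⟨ha1, ha2⟩ := ha
    obtain ⟨hb1, hb2⟩ := hb
    generalize u.re = x at *
    generalize u.im = y at *
    interval_cases x <;> interval_cases y <;> omega
  exact Zsqrtd.ext h6.1 h6.2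

theorem prim_uniq {π ρ : GaussianInt} (h3 : tt ∣ π - 1) (h3' : tt ∣ ρ - 1)
    (h : Associated π ρ) : π = ρ := by
  obtain ⟨u, hu⟩ := h
  have h1 : tt ∣ (u : GaussianInt) - 1 := by
    have e : (u : GaussianInt) - 1 = (ρ - 1) - (π - 1) * u := by rw [← hu]; ring
    rw [e]
    exact dvd_sub h3' (Dvd.dvd.mul_right h3 _)
  rw [← hu, unit_one u.isUnit h1, mul_one]

theorem one_add_i_dvd_two : (⟨1, 1⟩ : GaussianInt) ∣ 2 := by
  refine ⟨⟨1, -1⟩, ?_⟩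
  decide

theorem odd_of_prime {α : GaussianInt} (hp : Prime α) (h2 : ¬ α ∣ 2) : ¬ (2 : ℤ) ∣ α.re + α.im := by
  intro h
  have h3 : (⟨1, 1⟩ : GaussianInt) ∣ α := by
    obtain ⟨c, hc⟩ := h
    refine ⟨⟨c, α.im - c⟩, ?_⟩
    apply Zsqrtd.ext
    · rw [Zsqrtd.re_mul]
      show α.re = 1 * c + (-1) * 1 * (α.im - c)
      omega
    · rw [Zsqrtd.im_mul]
      show α.im = 1 * (α.im - c) + 1 * c
      omega
  obtain ⟨w, hw⟩ := h3
  have h4 : α ∣ ⟨1, 1⟩ * w := by rw [← hw]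
  rcases hp.dvd_or_dvd h4 with h5 | h5
  · exact h2 (h5.trans one_add_i_dvd_two)
  · obtain ⟨c, hc⟩ := h5
    have h6 : α * 1 = α * (⟨1, 1⟩ * c) := by
      rw [mul_one]
      conv_lhs => rw [hw, hc]
      ring
    have h7 : (1 : GaussianInt) = ⟨1, 1⟩ * c := mul_left_cancel₀ hp.ne_zero h6
    have h8 := congrArg Zsqrtd.norm h7
    rw [Zsqrtd.norm_mul, Zsqrtd.norm_one] at h8
    have h9 : Zsqrtd.norm (⟨1, 1⟩ : GaussianInt) = 2 := by decide
    rw [h9] at h8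
    omega

theorem exists_prim {α : GaussianInt} (hp : Prime α) (h2 : ¬ α ∣ 2) :
    ∃ u : GaussianInt, IsUnit u ∧ tt ∣ u * α - 1 := by
  have ho := odd_of_prime hp h2
  have hi : IsUnit (⟨0, 1⟩ : GaussianInt) :=
    IsUnit.of_mul_eq_one ⟨0, -1⟩ (by decide)
  have hu1 : IsUnit (-1 : GaussianInt) := isUnit_one.neg
  have key : ∀ x y : ℤ, ¬ (2 : ℤ) ∣ x + y →
      ((4 : ℤ) ∣ x - 1 + y ∧ (4 : ℤ) ∣ x - 1 - y) ∨
      ((4 : ℤ) ∣ -x - 1 + -y ∧ (4 : ℤ) ∣ -x - 1 - -y) ∨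
      ((4 : ℤ) ∣ -y - 1 + x ∧ (4 : ℤ) ∣ -y - 1 - x) ∨
      ((4 : ℤ) ∣ y - 1 + -x ∧ (4 : ℤ) ∣ y - 1 - -x) := by
    intro x y h
    omega
  rcases key α.re α.im ho with h | h | h | h
  · refine ⟨1, isUnit_one, ?_⟩
    rw [tt_dvd, one_mul, Zsqrtd.re_sub, Zsqrtd.im_sub, Zsqrtd.re_one, Zsqrtd.im_one, sub_zero]
    exact h
  · refine ⟨-1, hu1, ?_⟩
    rw [tt_dvd, neg_one_mul, Zsqrtd.re_sub, Zsqrtd.im_sub, Zsqrtd.re_one, Zsqrtd.im_one, sub_zero,
      Zsqrtd.re_neg, Zsqrtd.im_neg]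
    exact h
  · refine ⟨⟨0, 1⟩, hi, ?_⟩
    have e1 : ((⟨0, 1⟩ : GaussianInt) * α).re = -α.im := by
      rw [Zsqrtd.re_mul]
      ring
    have e2 : ((⟨0, 1⟩ : GaussianInt) * α).im = α.re := by
      rw [Zsqrtd.im_mul]
      ring
    rw [tt_dvd, Zsqrtd.re_sub, Zsqrtd.im_sub, Zsqrtd.re_one, Zsqrtd.im_one, sub_zero, e1, e2]
    exact h
  · refine ⟨-⟨0, 1⟩, hi.neg, ?_⟩
    have e1 : (-(⟨0, 1⟩ : GaussianInt) * α).re = α.im := by
      rw [neg_mul, Zsqrtd.re_neg, Zsqrtd.re_mul]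
      ring
    have e2 : (-(⟨0, 1⟩ : GaussianInt) * α).im = -α.re := by
      rw [neg_mul, Zsqrtd.im_neg, Zsqrtd.im_mul]
      ring
    rw [tt_dvd, Zsqrtd.re_sub, Zsqrtd.im_sub, Zsqrtd.re_one, Zsqrtd.im_one, sub_zero, e1, e2]
    exact h

theorem assoc_of_span (f : GaussianInt ≃+* 𝓞 K) {π ρ : GaussianInt}
    (h : Ideal.span {f π} = Ideal.span {f ρ}) : Associated π ρ := by
  rw [Ideal.span_singleton_eq_span_singleton] at h
  obtain ⟨u, hu⟩ := h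
  refine ⟨Units.map (f.symm : 𝓞 K →* GaussianInt) u, ?_⟩
  apply f.injective
  rw [map_mul]
  simpa using hu

theorem prime_f (f : GaussianInt ≃+* 𝓞 K) (π : GaussianInt) : Prime (f π) ↔ Prime π :=
  MulEquiv.prime_iff (f : GaussianInt ≃* 𝓞 K)

theorem dvd_f (f : GaussianInt ≃+* 𝓞 K) (π x : GaussianInt) : f π ∣ f x ↔ π ∣ x :=
  map_dvd_iff (f : GaussianInt ≃* 𝓞 K)

theorem two_mem (f : GaussianInt ≃+* 𝓞 K) (π : GaussianInt) :
    (2 : 𝓞 K) ∈ Ideal.span {f π} ↔ π ∣ 2 := by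
  rw [Ideal.mem_span_singleton, ← dvd_f f]
  have : f 2 = 2 := map_ofNat f 2
  rw [this]

theorem exists_prim' (f : GaussianInt ≃+* 𝓞 K) (v : Pl K) (h3 : (2 : 𝓞 K) ∉ v.asIdeal) :
    ∃ π : GaussianInt, Prime π ∧ tt ∣ π - 1 ∧ Ideal.span {f π} = v.asIdeal := by
  obtain ⟨α, hα⟩ := exists_gen f v.asIdeal
  have hp : Prime (f α) := by
    have h1 : f α ≠ 0 := by
      intro h
      rw [h] at hα
      apply v.ne_bot
      rw [← hα]
      simp
    have h2 := v.isPrime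
    rw [← hα, Ideal.span_singleton_prime h1] at h2
    exact h2
  rw [prime_f] at hp
  have h4 : ¬ α ∣ 2 := by
    rw [← two_mem f, hα]
    exact h3
  obtain ⟨u, hu, hu3⟩ := exists_prim hp h4
  have ha : Associated α (u * α) := by
    obtain ⟨v, rfl⟩ := hu
    exact ⟨v, mul_comm _ _⟩
  refine ⟨u * α, (ha.prime_iff).1 hp, hu3, ?_⟩
  rw [← hα, Ideal.span_singleton_eq_span_singleton]
  exact (ha.map (f : GaussianInt →* 𝓞 K)).symm

theorem norm_f (f : GaussianInt ≃+* 𝓞 K) (π : GaussianInt) :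
    π.norm = Ideal.absNorm (Ideal.span {f π}) := by
  have h1 : Ideal.span {f π} = Ideal.map (f : GaussianInt →+* 𝓞 K) (Ideal.span {π}) := by
    rw [Ideal.map_span, Set.image_singleton]
    rfl
  have h2 : Nat.card (GaussianInt ⧸ Ideal.span {π}) = Nat.card (𝓞 K ⧸ Ideal.span {f π}) :=
    Nat.card_congr (Ideal.quotientEquiv _ _ f h1).toEquiv
  rw [Ideal.absNorm_apply, Submodule.cardQuot_apply]
  have h3 := card_quo π
  rw [h2] at h3
  exact h3.symm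

/-- the place of a prime -/
noncomputable def pla (f : GaussianInt ≃+* 𝓞 K) (π : GaussianInt) (hp : Prime π) : Pl K where
  asIdeal := Ideal.span {f π}
  isPrime := by
    rw [Ideal.span_singleton_prime ((prime_f f π).2 hp).ne_zero]
    exact (prime_f f π).2 hp
  ne_bot := by
    intro h
    rw [Ideal.span_singleton_eq_bot] at h
    exact ((prime_f f π).2 hp).ne_zero h

theorem gn_spec (f : GaussianInt ≃+* 𝓞 K) (v : Pl K) (h3 : (2 : 𝓞 K) ∉ v.asIdeal) :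
    Prime (gn f v) ∧ tt ∣ gn f v - 1 ∧ Ideal.span {f (gn f v)} = v.asIdeal := by
  have h := exists_prim' f v h3
  unfold gn
  rw [dif_pos h]
  exact h.choose_spec

theorem t_DIC2 : S_DIC2 := by
  intro K _ _ f
  have h30 : Ideal.span {(2 : 𝓞 K)} ≠ 0 := by
    intro h
    rw [Ideal.zero_eq_bot, Ideal.span_singleton_eq_bot] at h
    exact (by norm_num : (2 : 𝓞 K) ≠ 0) h
  have hfin : {v : Pl K | (2 : 𝓞 K) ∈ v.asIdeal}.Finite := by
    refine (Ideal.finite_factors h30).subset ?_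
    intro v hv
    show v.asIdeal ∣ Ideal.span {(2 : 𝓞 K)}
    rw [Ideal.dvd_span_singleton]
    exact hv
  refine ⟨hfin.toFinset, ?_, ?_, ?_⟩
  · intro v
    rw [Set.Finite.mem_toFinset]
    rfl
  · intro v hv
    rw [Set.Finite.mem_toFinset] at hv
    obtain ⟨h1, h2, h3⟩ := gn_spec f v hv
    refine ⟨h1, h2, h3, ?_⟩
    rw [norm_f f, h3]
  · intro π hp h3
    have hn : ¬ π ∣ 2 := by
      intro h1
      have h5 : (2 : GaussianInt) ∣ tt := ⟨⟨1, 1⟩, by decide⟩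
      have h2 : π ∣ 1 := by
        have h4 := dvd_sub (dvd_refl π) (dvd_trans (dvd_trans h1 h5) h3)
        rwa [sub_sub_cancel] at h4
      exact hp.not_isUnit (isUnit_of_dvd_one h2)
    have hv : (2 : 𝓞 K) ∉ (pla f π hp).asIdeal := by
      show (2 : 𝓞 K) ∉ Ideal.span {f π}
      rw [two_mem]
      exact hn
    refine ⟨pla f π hp, ?_, ?_⟩
    · rw [Set.Finite.mem_toFinset]
      exact hv
    · obtain ⟨h1, h2, h4⟩ := gn_spec f (pla f π hp) hv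
      exact prim_uniq h2 h3 (assoc_of_span f h4)

end T2h16.TG.DIC2
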