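import Pool.Agent.T2h16.TG.Stm
import Pool.Agent.T3h73.SD.T_DIST

/-!
Task DIS2 of project TG (helper16): the proportion, by helper46 (adapted from `TK/T_DISTQ.lean` of helper84).
-/

set_option autoImplicit false
set_option linter.all false

open NumberField IsDedekindDomain Filter Topology Polynomial

namespace T2h16.TG.DIS2

open Pool.Agent.T3h73.SL (Pl)
open Pool.Agent.T3h73.SD (NA kap S_KAP)
open Pool.Agent.T3h73.SD.DIST (Lf BB BB_le Lf_BB Lf_monomial mm)
open Pool.Agent.T3h73.TK (In TQ Dens SymQ S_TQL)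

variable {K : Type} [Field K] [NumberField K]

/-- the kernel as a submodule -/
def VSub (sy : Pl K → Pl K → ZMod 2) (P : Finset (Pl K)) :
    Submodule (ZMod 2) (P → ZMod 2) where
  carrier := VV sy P
  add_mem' := by
    intro x y hx hy j
    have h1 := congrArg₂ (· + ·) (hx j) (hy j)
    simp only [add_zero] at h1
    refine Eq.trans ?_ h1
    rw [← Finset.sum_add_distrib]
    refine Finset.sum_congr rfl fun i _ => ?_
    rw [Pi.add_apply, Pi.add_apply]
    ring
  zero_mem' := by
    intro j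
    simp
  smul_mem' := by
    intro c x hx j
    have h1 := congrArg (fun z => c * z) (hx j)
    simp only [mul_zero, Finset.mul_sum] at h1
    refine Eq.trans ?_ h1
    refine Finset.sum_congr rfl fun i _ => ?_
    rw [Pi.smul_apply, Pi.smul_apply, smul_eq_mul, smul_eq_mul]
    ring

lemma nV_le (sy : Pl K → Pl K → ZMod 2) (P : Finset (Pl K)) :
    nV sy P ≤ 2 ^ P.card := by
  have h1 : Nat.card (P → ZMod 2) = 2 ^ P.card := by
    rw [Nat.card_fun, Nat.card_zmod, Nat.card_eq_fintype_card (α := P), Fintype.card_coe]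
  rw [← h1]
  exact Nat.card_le_card_of_injective _ Subtype.val_injective

lemma nV_pow (sy : Pl K → Pl K → ZMod 2) (P : Finset (Pl K)) (hP : P.Nonempty) :
    ∃ r : ℕ, nV sy P = 2 ^ (r + 1) := by
  haveI : Fact (Nat.Prime 2) := ⟨Nat.prime_two⟩
  have h0 : nV sy P = Nat.card (VSub sy P) := rfl
  have hmem : (fun _ => 1 : P → ZMod 2) ∈ VSub sy P := by
    intro j
    simp
  have hne : Nontrivial (VSub sy P) := by
    refine ⟨⟨_, hmem⟩, 0, fun h => ?_⟩
    obtain ⟨q, hq⟩ := hP
    have h1 := congrFun (congrArg (fun x : VSub sy P => (x : P → ZMod 2)) h) ⟨q, hq⟩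
    exact one_ne_zero h1
  have h1 : Nat.card (VSub sy P) = 2 ^ Module.finrank (ZMod 2) (VSub sy P) := by
    rw [Module.natCard_eq_pow_finrank (K := ZMod 2), Nat.card_zmod]
  have h2 : 0 < Module.finrank (ZMod 2) (VSub sy P) := Module.finrank_pos
  exact ⟨Module.finrank (ZMod 2) (VSub sy P) - 1, by
    rw [h0, h1, Nat.sub_add_cancel h2]⟩

open Classical in
/-- the general term of `SQ` -/
noncomputable def tm (w : ℕ) (F : Finset (Pl K) → ℝ) (s : ℝ)
    (P : Finset (Pl K)) : ℝ := (w : ℝ) ^ P.card * (NA P : ℝ) ^ (-s) * F P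

open Classical in
lemma summ (Q : Set (Pl K)) (n : ℕ) (hn : 1 ≤ n) (hD : Dens Q n) (hTQL : S_TQL) (w k : ℕ)
    (F : Finset (Pl K) → ℝ) (B : ℝ)
    (hF : ∀ P, |F P| ≤ B * ((2 : ℝ) ^ P.card) ^ k) (s : ℝ) (hs1 : 1 < s) (hs2 : s ≤ 2) :
    Summable (fun P : Finset (Pl K) => if In Q P then tm w F s P else 0) := by
  obtain ⟨h1, -⟩ := (hTQL K Q n hn hD ((w : ℝ) * 2 ^ k) (by positivity)).1 s hs1 hs2
  refine Summable.of_norm_bounded (h1.mul_left B) fun P => ?_
  by_cases hP : In Q P
  · rw [if_pos hP, if_pos hP]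
    unfold tm
    have hN : 0 ≤ (NA P : ℝ) ^ (-s) := Real.rpow_nonneg (Nat.cast_nonneg _) _
    rw [norm_mul, norm_mul, Real.norm_of_nonneg (by positivity), Real.norm_of_nonneg hN]
    refine (mul_le_mul_of_nonneg_left (hF P) (by positivity)).trans (le_of_eq ?_)
    rw [mul_pow, ← pow_mul, ← pow_mul, mul_comm k]
    ring
  · rw [if_neg hP, if_neg hP, mul_zero, norm_zero]

open Classical in
lemma SQ_eq (Q : Set (Pl K)) (w : ℕ) (F : Finset (Pl K) → ℝ) (s : ℝ) :
    SQ Q w F s = ∑' P : Finset (Pl K), if In Q P then tm w F s P else 0 := rfl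

open Classical in
theorem t_DIS2 (hMOM : S_MOM2) (hKAP : S_KAP) (hTQL : S_TQL) : S_DIS2 := by
  intro K _ _ S 𝔪 a sy Q n ι _ Ψ hM w hw ε hε
  have hmom := hMOM K S 𝔪 a sy Q n ι Ψ hM w
  have hn := hM.pos
  have hD := hM.dens
  have hTQ := hTQL K Q n hn hD w (by positivity)
  have hbd : ∀ (c : ZMod 2) (k : ℕ) (b : ℝ) (P : Finset (Pl K)),
      |if aS a P = c then b * (nV sy P : ℝ) ^ k else 0| ≤ |b| * ((2 : ℝ) ^ P.card) ^ k := by
    intro c k b P
    have h1 : (nV sy P : ℝ) ≤ (2 : ℝ) ^ P.card := by exact_mod_cast nV_le sy P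
    split_ifs
    · rw [abs_mul, abs_of_nonneg (by positivity : (0 : ℝ) ≤ (nV sy P : ℝ) ^ k)]
      exact mul_le_mul_of_nonneg_left (pow_le_pow_left₀ (by positivity) h1 k) (abs_nonneg b)
    · rw [abs_zero]
      positivity
  -- polynomials
  have hpb : ∀ f : ℝ[X], ∃ (k : ℕ) (B : ℝ), 0 ≤ B ∧ ∀ (c : ZMod 2) (P : Finset (Pl K)),
      |if aS a P = c then f.eval ((nV sy P : ℝ) / 2) else 0| ≤ B * ((2 : ℝ) ^ P.card) ^ k := by
    intro f
    induction f using Polynomial.induction_on' with
    | add p q hp hq =>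
      obtain ⟨k1, B1, hB1, h1⟩ := hp
      obtain ⟨k2, B2, hB2, h2⟩ := hq
      refine ⟨max k1 k2, B1 + B2, by positivity, fun c P => ?_⟩
      have h3 : (1 : ℝ) ≤ (2 : ℝ) ^ P.card := one_le_pow₀ (by norm_num)
      have h4 : B1 * ((2 : ℝ) ^ P.card) ^ k1 ≤ B1 * ((2 : ℝ) ^ P.card) ^ (max k1 k2) :=
        mul_le_mul_of_nonneg_left (pow_le_pow_right₀ h3 (le_max_left _ _)) hB1
      have h5 : B2 * ((2 : ℝ) ^ P.card) ^ k2 ≤ B2 * ((2 : ℝ) ^ P.card) ^ (max k1 k2) :=
        mul_le_mul_of_nonneg_left (pow_le_pow_right₀ h3 (le_max_right _ _)) hB2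
      have h6 := h1 c P
      have h7 := h2 c P
      rw [add_mul]
      by_cases hc : aS a P = c
      · rw [if_pos hc] at h6 h7 ⊢
        rw [eval_add]
        exact (abs_add_le _ _).trans (by linarith)
      · rw [if_neg hc] at h6 h7 ⊢
        rw [abs_zero] at h6 h7 ⊢
        linarith
    | monomial k b =>
      refine ⟨k, |b / 2 ^ k|, abs_nonneg _, fun c P => ?_⟩
      have h1 := hbd c k (b / 2 ^ k) P
      have h2 : eval ((nV sy P : ℝ) / 2) (monomial k b) = b / 2 ^ k * (nV sy P : ℝ) ^ k := by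
        rw [eval_monomial, div_pow]
        ring
      rw [h2]
      exact h1
  have hev : ∀ᶠ s : ℝ in 𝓝[>] 1, 1 < s ∧ s ≤ 2 := by
    have h1 : Set.Ioc (1 : ℝ) 2 ∈ 𝓝[>] (1 : ℝ) := Ioc_mem_nhdsGT (by norm_num)
    exact Filter.mem_of_superset h1 fun s hs => hs
  have hsumf : ∀ (f : ℝ[X]) (c : ZMod 2) (s : ℝ), 1 < s → s ≤ 2 →
      Summable (fun P : Finset (Pl K) => if In Q P then
        tm w (fun P => if aS a P = c then f.eval ((nV sy P : ℝ) / 2) else 0) s P else 0) := by
    intro f c s hs1 hs2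
    obtain ⟨k, B, -, h1⟩ := hpb f
    exact summ Q n hn hD hTQL w k _ B (fun P => h1 c P) s hs1 hs2
  -- the limits
  have hlim : ∀ (f : ℝ[X]) (c : ZMod 2), Tendsto (fun s =>
      SQ Q w (fun P => if aS a P = c then f.eval ((nV sy P : ℝ) / 2) else 0) s /
        TQ Q w s) (𝓝[>] 1) (𝓝 (1 / 2 * Lf 2 f)) := by
    intro f c
    induction f using Polynomial.induction_on' with
    | add p q hp hq =>
      rw [map_add, mul_add]
      refine (hp.add hq).congr' ?_
      filter_upwards [hev] with s hs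
      rw [← add_div]
      congr 1
      rw [SQ_eq, SQ_eq, SQ_eq, ← (hsumf p c s hs.1 hs.2).tsum_add (hsumf q c s hs.1 hs.2)]
      refine tsum_congr fun P => ?_
      by_cases hP : In Q P
      · rw [if_pos hP, if_pos hP, if_pos hP]
        unfold tm
        rw [← mul_add]
        congr 1
        beta_reduce
        by_cases hc : aS a P = c
        · rw [if_pos hc, if_pos hc, if_pos hc, eval_add]
        · rw [if_neg hc, if_neg hc, if_neg hc, add_zero]
      · rw [if_neg hP, if_neg hP, if_neg hP, add_zero]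
    | monomial k b =>
      rw [Lf_monomial]
      have h1 := (hmom k c hw).const_mul (b / (2 : ℝ) ^ k)
      have h2 : b / (2 : ℝ) ^ k * (1 / 2 * ((2 : ℝ) ^ k * ∏ i ∈ Finset.range k, (1 + (2 : ℝ) ^ i))) =
          1 / 2 * (mm 2 k * b) := by
        unfold mm
        push_cast
        field_simp
      rw [h2] at h1
      refine h1.congr fun s => ?_
      rw [← mul_div_assoc]
      congr 1
      rw [SQ_eq, SQ_eq, ← tsum_mul_left]
      refine tsum_congr fun P => ?_
      by_cases hP : In Q P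
      · rw [if_pos hP, if_pos hP]
        unfold tm
        rw [mul_left_comm]
        congr 1
        beta_reduce
        by_cases hc : aS a P = c
        · rw [if_pos hc, if_pos hc, eval_monomial, div_pow]
          ring
        · rw [if_neg hc, if_neg hc, mul_zero]
      · rw [if_neg hP, if_neg hP, mul_zero]
  -- the choice of `J`
  obtain ⟨-, -, hK⟩ := hKAP 2 (by norm_num)
  have hJ : ∃ J, Odd J ∧ kap 2 - ε < Lf 2 (BB 2 J) := by
    have h1 := hK.eventually (lt_mem_nhds (show kap 2 - ε < kap 2 by linarith))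
    obtain ⟨N, hN⟩ := Filter.eventually_atTop.1 h1
    refine ⟨2 * N + 1, ⟨N, rfl⟩, ?_⟩
    rw [Lf_BB]
    exact hN (2 * N + 1) (by omega)
  obtain ⟨J, hJo, hJk⟩ := hJ
  -- the lower bound
  have hlow : ∀ s : ℝ, 1 < s → s ≤ 2 →
      SQ Q w (fun P => if aS a P = 1 then (BB 2 J).eval ((nV sy P : ℝ) / 2) else 0) s ≤
      SQ Q w (fun P => if nV sy P = 2 ∧ aS a P ≠ 0 then 1 else 0) s := by
    intro s hs1 hs2
    rw [SQ_eq, SQ_eq]
    refine (hsumf (BB 2 J) 1 s hs1 hs2).tsum_le_tsum
      (fun P => ?_) (summ Q n hn hD hTQL w 0 _ 1 (fun P => by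
        beta_reduce
        rw [pow_zero, mul_one]
        split_ifs <;> simp) s hs1 hs2)
    by_cases hP : In Q P
    · rw [if_pos hP, if_pos hP]
      unfold tm
      have hN : 0 ≤ (NA P : ℝ) ^ (-s) := Real.rpow_nonneg (Nat.cast_nonneg _) _
      refine mul_le_mul_of_nonneg_left ?_ (by positivity)
      beta_reduce
      by_cases h0 : aS a P = 0
      · rw [h0, if_neg (by decide), if_neg (fun h => h.2 rfl)]
      · have hPn : P.Nonempty := by
          rw [Finset.nonempty_iff_ne_empty]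
          rintro rfl
          apply h0
          unfold aS
          exact Finset.sum_eq_zero fun q _ => absurd q.2 (Finset.notMem_empty _)
        obtain ⟨r, hr⟩ := nV_pow sy P hPn
        have h6 : (nV sy P : ℝ) / 2 = ((2 : ℕ) : ℝ) ^ r := by
          rw [hr]
          push_cast
          rw [pow_succ]
          field_simp
        have h7 : (BB 2 J).eval ((nV sy P : ℝ) / 2) ≤
            if nV sy P = 2 ∧ aS a P ≠ 0 then 1 else 0 := by
          rw [h6]
          refine (BB_le (by norm_num) hJo r).trans (le_of_eq ?_)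
          by_cases hr0 : r = 0
          · rw [if_pos hr0, if_pos]
            refine ⟨?_, h0⟩
            rw [hr, hr0, zero_add, pow_one]
          · rw [if_neg hr0, if_neg]
            rintro ⟨h7, -⟩
            rw [hr] at h7
            have h8 : 2 ^ (r + 1) = 2 ^ 1 := by rw [h7, pow_one]
            have h9 := Nat.pow_right_injective (le_refl 2) h8
            omega
        have h8 : aS a P = 1 := by
          generalize aS a P = x at h0
          revert h0
          revert x
          decide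
        rw [if_pos h8]
        exact h7
    · rw [if_neg hP, if_neg hP]
  -- the limit
  have hfin := hlim (BB 2 J) 1
  have hpos : 1 / 2 * kap 2 - ε < 1 / 2 * Lf 2 (BB 2 J) := by linarith
  filter_upwards [hfin.eventually (lt_mem_nhds hpos), hev] with s h1 h2
  have hT0 : 0 < TQ Q w s := by
    have := (hTQ.1 s h2.1 h2.2).2
    linarith
  have h4 := hlow s h2.1 h2.2
  rw [lt_div_iff₀ hT0] at h1
  linarith

end T2h16.TG.DIS2
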