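import Pool.Agent.T2h16.TG.Stm

/-!
Project TG (helper16), task EQ2 (helper5): the two forms of the definitions agree.
-/

set_option autoImplicit false
set_option linter.all false

namespace T2h16.TG.EQ2

open T2h16.TG Q283.GA.St

theorem mem_iff (k : ℕ) (x : Def.Fam) : T2h16.TG.Def2.Mem k x ↔ T2h16.TG.Def.Mem k x := by
  constructor
  · intro h π
    have h1 : ∀ y : x.1, (∃ j, x.1.equivFin.symm j = y) →
        Adm k (y : GaussianInt) ∧ orderOf (x.2 y) = 2 ^ k := by
      rintro y ⟨j, rfl⟩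
      exact h x.1.equivFin.symm j
    exact h1 π ⟨_, x.1.equivFin.symm_apply_apply π⟩
  · intro h σ j
    exact h (σ j)

theorem t_EQ2 : S_EQ2 := by
  classical
  refine ⟨mem_iff, fun x => rfl, fun k x => Iff.rfl, fun k T s => ?_⟩
  unfold T2h16.TG.Def2.fsum T2h16.TG.Def.fsum
  refine tsum_congr fun x => ?_
  by_cases h : T2h16.TG.Def.Mem k x ∧ T x
  · rw [if_pos h, if_pos ⟨(mem_iff k x).2 h.1, h.2⟩]
    rfl
  · rw [if_neg h, if_neg fun h1 => h ⟨(mem_iff k x).1 h1.1, h1.2⟩]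

end T2h16.TG.EQ2
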