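import Pool.Agent.T2h16.TG.Stm
import Pool.Agent.T3h73.SD.T_EXP
import Pool.Agent.T3h73.SD.T_MASS

/-!
# TG, task EXP2 (helper94): the moments in terms of the coloured sums
(adapted from `TK/T_EXPQ.lean`)
-/

set_option autoImplicit false
set_option linter.all false

open NumberField IsDedekindDomain Filter Topology

namespace T2h16.TG.EXP2

open Pool.Agent.T3h73.SL (Pl)
open Pool.Agent.T3h73.SD
open Pool.Agent.T3h73.TK (In TQ Dens SymQ MhQ S_ANQ S_TQL S_PAP)

open Classical in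
/-- the sum over the pairs `(v, b)` -/
lemma sum_vb {P : Type} [Fintype P] [DecidableEq P] (sy : P → P → ZMod 2) (r : ℕ) :
    ∑ vb : P → Cl 2 r, ee 2 (∑ p, ∑ q, if p = q then 0 else
      (Rc 2 r (vb p) (vb q)) * sy p q) =
    ((2 : ℂ) ^ r) ^ Fintype.card P *
      (Nat.card ({v | ∀ j : P, ∑ i : P, sy i j * (v i - v j) = 0} :
        Set (P → ZMod 2)) : ℂ) ^ r := by
  let X : (P → ZMod 2) → P → ZMod 2 := fun v q => ∑ p, sy p q * (v p - v q)
  have h1 : ∑ x : (P → ZMod 2) × (P → ZMod 2), ee 2 (∑ q, x.2 q * X x.1 q) =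
      (2 : ℂ) ^ Fintype.card P *
      (Nat.card ({v | ∀ j : P, ∑ i : P, sy i j * (v i - v j) = 0} :
        Set (P → ZMod 2)) : ℂ) := by
    rw [Fintype.sum_prod_type]
    simp_rw [EXP.sum_kap]
    rw [Nat.card_eq_fintype_card, Fintype.card_subtype, Finset.card_filter, Nat.cast_sum,
      Finset.mul_sum]
    refine Finset.sum_congr rfl fun v _ => ?_
    by_cases h : ∀ q, X v q = 0
    · rw [if_pos h]
      have h' : v ∈ ({v | ∀ j : P, ∑ i : P, sy i j * (v i - v j) = 0} :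
        Set (P → ZMod 2)) := h
      rw [if_pos h']
      simp
    · rw [if_neg h]
      have h' : ¬ v ∈ ({v | ∀ j : P, ∑ i : P, sy i j * (v i - v j) = 0} :
        Set (P → ZMod 2)) := fun h2 => h h2
      rw [if_neg h']
      simp
  have h2 : (∑ x : (P → ZMod 2) × (P → ZMod 2), ee 2 (∑ q, x.2 q * X x.1 q)) ^ r =
      ∑ vb : P → Cl 2 r, ee 2 (∑ p, ∑ q, if p = q then 0 else
      (Rc 2 r (vb p) (vb q)) * sy p q) := by
    rw [Fintype.sum_pow]
    let E : (Fin r → (P → ZMod 2) × (P → ZMod 2)) ≃ (P → Cl 2 r) :=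
      { toFun := fun x q => (fun i => (x i).1 q, fun i => (x i).2 q)
        invFun := fun y i => (fun q => (y q).1 i, fun q => (y q).2 i)
        left_inv := fun x => rfl
        right_inv := fun y => rfl }
    refine Fintype.sum_equiv E _ _ fun x => ?_
    rw [← EXP.ee_sum]
    congr 1
    have h3 : ∀ p q : P, (if p = q then 0 else
        (Rc 2 r (E x p) (E x q)) * sy p q) =
        ∑ i : Fin r, (x i).2 q * (sy p q * ((x i).1 p - (x i).1 q)) := by
      intro p q
      have h4 : (Rc 2 r (E x p) (E x q)) * sy p q =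
          ∑ i : Fin r, (x i).2 q * (sy p q * ((x i).1 p - (x i).1 q)) := by
        rw [Rc, Finset.sum_mul]
        refine Finset.sum_congr rfl fun i _ => ?_
        show ((x i).2 q * ((x i).1 p - (x i).1 q)) * sy p q = _
        ring
      by_cases hpq : p = q
      · rw [if_pos hpq]
        subst hpq
        symm
        refine Finset.sum_eq_zero fun i _ => ?_
        rw [sub_self, mul_zero, mul_zero]
      · rw [if_neg hpq, h4]
    simp_rw [h3]
    symm
    calc ∑ p : P, ∑ q : P, ∑ i : Fin r, (x i).2 q * (sy p q * ((x i).1 p - (x i).1 q))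
        = ∑ p : P, ∑ i : Fin r, ∑ q : P, (x i).2 q * (sy p q *
          ((x i).1 p - (x i).1 q)) := Finset.sum_congr rfl fun p _ => Finset.sum_comm
      _ = ∑ i : Fin r, ∑ p : P, ∑ q : P, (x i).2 q * (sy p q *
          ((x i).1 p - (x i).1 q)) := Finset.sum_comm
      _ = ∑ i : Fin r, ∑ q : P, ∑ p : P, (x i).2 q * (sy p q *
          ((x i).1 p - (x i).1 q)) := Finset.sum_congr rfl fun i _ => Finset.sum_comm
      _ = ∑ i : Fin r, ∑ q : P, (x i).2 q * X (x i).1 q := by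
          refine Finset.sum_congr rfl fun i _ => Finset.sum_congr rfl fun q _ => ?_
          show _ = (x i).2 q * (∑ p, sy p q * ((x i).1 p - (x i).1 q))
          rw [Finset.mul_sum]
  rw [← h2, h1, mul_pow, ← pow_mul, ← pow_mul, mul_comm (Fintype.card P) r]

open Classical in
lemma total {P : Type} [Fintype P] [DecidableEq P] (sy : P → P → ZMod 2) (a : P → ZMod 2)
    (r w : ℕ) (α : ZMod 2) :
    ∑ col : P → CC r w, ee 2 (∑ q, α * a q +
      ∑ p, ∑ q, if p = q then 0 else RR r w (col p) (col q) * sy p q) =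
    (w : ℂ) ^ Fintype.card P * (ee 2 (α * ∑ q, a q) *
      (((2 : ℂ) ^ r) ^ Fintype.card P *
      (Nat.card ({v | ∀ j : P, ∑ i : P, sy i j * (v i - v j) = 0} :
        Set (P → ZMod 2)) : ℂ) ^ r)) := by
  let E : (P → CC r w) ≃ (P → Fin w) × (P → Cl 2 r) :=
    { toFun := fun x => (fun q => (x q).2, fun q => (x q).1)
      invFun := fun y q => (y.2 q, y.1 q)
      left_inv := fun x => rfl
      right_inv := fun y => rfl }
  rw [Fintype.sum_equiv E _ (fun y : (P → Fin w) × (P → Cl 2 r) =>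
    ee 2 (α * ∑ q, a q) * ee 2 (∑ p, ∑ q, if p = q then 0 else
      (Rc 2 r (y.2 p) (y.2 q)) * sy p q))]
  · rw [Fintype.sum_prod_type]
    simp only [Fintype.sum_prod_type, Finset.sum_const, Finset.card_univ, Fintype.card_pi,
      Fintype.card_fin, Finset.prod_const, nsmul_eq_mul, Nat.cast_pow]
    congr 1
    rw [← Finset.mul_sum, sum_vb]
  · intro x
    rw [EXP.ee_add]
    congr 1
    congr 1
    rw [Finset.mul_sum]

lemma orth (A c : ZMod 2) : (1 / 2 : ℂ) * ∑ α : ZMod 2, ee 2 (-(α * c)) * ee 2 (α * A) =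
    if A = c then 1 else 0 := by
  classical
  have h1 : ∀ α : ZMod 2, ee 2 (-(α * c)) * ee 2 (α * A) =
      ee 2 ((AddMonoidHom.mulRight (A - c)) α) := by
    intro α
    rw [← EXP.ee_add]
    congr 1
    show -(α * c) + α * A = α * (A - c)
    ring
  simp_rw [h1]
  have h2 := EXP.sum_char (ℓ := 2) (G := ZMod 2) (AddMonoidHom.mulRight (A - c))
  rw [h2]
  have h3 : (∀ g : ZMod 2, (AddMonoidHom.mulRight (A - c)) g = 0) ↔ A = c := by
    constructor
    · intro h
      have := h 1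
      rw [AddMonoidHom.mulRight_apply, one_mul] at this
      exact sub_eq_zero.1 this
    · intro h g
      rw [AddMonoidHom.mulRight_apply, h, sub_self, mul_zero]
  by_cases h : A = c
  · rw [if_pos h, if_pos (h3.2 h)]
    simp [ZMod.card]
  · rw [if_neg h, if_neg (fun h4 => h (h3.1 h4)), mul_zero]

open Classical in
lemma summ {K : Type} [Field K] [NumberField K] (Q : Set (Pl K)) (sy : Pl K → Pl K → ZMod 2)
    (a : Pl K → ZMod 2) (w r : ℕ) (α : ZMod 2) (s : ℝ) (hs : 1 < s) (hs2 : s ≤ 2) :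
    Summable (fun P : Finset (Pl K) => if In Q P then
      (((((2 ^ r : ℕ) : ℝ) ^ P.card)⁻¹ * (NA P : ℝ) ^ (-s) : ℝ) : ℂ) * ∑ col : P → CC r w,
      ee 2 (∑ q : P, α * a q +
        ∑ p : P, ∑ q : P, if p = q then 0 else RR r w (col p) (col q) * sy p q) else 0) := by
  have hm : 1 ≤ Fintype.card (CC r w) + 1 := by omega
  obtain ⟨C, hC, hC1, -⟩ := MASS.t_MASS K (Fintype.card (CC r w) + 1) 0 hm le_rfl
  have h1 := (hC1 s hs hs2).1
  refine Summable.of_norm_bounded h1 fun P => ?_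
  have hNA : 0 ≤ (NA P : ℝ) ^ (-s) := Real.rpow_nonneg (Nat.cast_nonneg _) _
  rw [Real.rpow_zero, mul_one]
  split_ifs with hP
  · rw [norm_mul, Complex.norm_real, Real.norm_eq_abs, abs_of_nonneg (by positivity)]
    have h2 : ‖∑ col : P → CC r w, ee 2 (∑ q : P, α * a q +
        ∑ p : P, ∑ q : P, if p = q then 0 else RR r w (col p) (col q) * sy p q)‖ ≤
        ((Fintype.card (CC r w) + 1 : ℕ) : ℝ) ^ P.card := by
      refine (norm_sum_le _ _).trans ?_
      simp_rw [EXP.norm_ee]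
      rw [Finset.sum_const, Finset.card_univ, nsmul_eq_mul, mul_one, Fintype.card_pi,
        Finset.prod_const, Finset.card_univ, Fintype.card_coe]
      rw [Nat.cast_pow]
      exact pow_le_pow_left₀ (Nat.cast_nonneg _) (by push_cast; linarith) _
    have h3 : ((((2 ^ r : ℕ) : ℝ) ^ P.card)⁻¹) ≤ 1 := by
      apply inv_le_one_of_one_le₀
      apply one_le_pow₀
      exact_mod_cast Nat.one_le_pow _ _ (by norm_num)
    calc (((2 ^ r : ℕ) : ℝ) ^ P.card)⁻¹ * (NA P : ℝ) ^ (-s) * _ ≤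
          (1 * (NA P : ℝ) ^ (-s)) * ((Fintype.card (CC r w) + 1 : ℕ) : ℝ) ^ P.card := by
          gcongr
      _ = _ := by ring
  · rw [norm_zero]
    positivity

open Classical in
lemma term_one {K : Type} [Field K] [NumberField K] (sy : Pl K → Pl K → ZMod 2)
    (a : Pl K → ZMod 2) (w r : ℕ) (c : ZMod 2) (s : ℝ) (P : Finset (Pl K)) :
    ((((w : ℝ) ^ P.card * (NA P : ℝ) ^ (-s) *
      if aS a P = c then (nV sy P : ℝ) ^ r else 0) : ℝ) : ℂ) =
    (1 / 2 : ℂ) * ∑ α : ZMod 2, ee 2 (-(α * c)) *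
      ((((((2 ^ r : ℕ) : ℝ) ^ P.card)⁻¹ * (NA P : ℝ) ^ (-s) : ℝ) : ℂ) * ∑ col : P → CC r w,
      ee 2 (∑ q : P, α * a q +
        ∑ p : P, ∑ q : P, if p = q then 0 else RR r w (col p) (col q) * sy p q)) := by
  have h1 : ∀ α : ZMod 2, ∑ col : P → CC r w,
      ee 2 (∑ q : P, α * a q +
        ∑ p : P, ∑ q : P, if p = q then 0 else RR r w (col p) (col q) * sy p q) =
      (w : ℂ) ^ P.card * (ee 2 (α * aS a P) *
      (((2 : ℂ) ^ r) ^ P.card * (nV sy P : ℂ) ^ r)) := by
    intro α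
    have := total (P := P) (fun p q : P => sy p q) (fun q : P => a q) r w α
    rw [Fintype.card_coe] at this
    exact this
  simp_rw [h1]
  have h3 : ((2 : ℂ) ^ r) ^ P.card ≠ 0 := pow_ne_zero _ (pow_ne_zero _ (by norm_num))
  have h4 : (1 / 2 : ℂ) * ∑ α : ZMod 2, ee 2 (-(α * c)) *
      ((((((2 ^ r : ℕ) : ℝ) ^ P.card)⁻¹ * (NA P : ℝ) ^ (-s) : ℝ) : ℂ) *
      ((w : ℂ) ^ P.card * (ee 2 (α * aS a P) *
      (((2 : ℂ) ^ r) ^ P.card * (nV sy P : ℂ) ^ r)))) =
      ((w : ℂ) ^ P.card * (((NA P : ℝ) ^ (-s) : ℝ) : ℂ)) * ((nV sy P : ℂ) ^ r *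
        ((1 / 2 : ℂ) * ∑ α : ZMod 2, ee 2 (-(α * c)) * ee 2 (α * aS a P))) := by
    simp_rw [Finset.mul_sum]
    refine Finset.sum_congr rfl fun α _ => ?_
    push_cast
    field_simp
  rw [h4, orth]
  push_cast
  congr 1
  split_ifs with h
  · rw [mul_one]
    push_cast
    rfl
  · rw [mul_zero]
    push_cast
    rfl

open Classical in
theorem t_EXP2 : S_EXP2 := by
  intro K _ _ Q sy a w r c s hs hs2
  rw [SQ, Complex.ofReal_tsum]
  have h1 : ∀ α : ZMod 2, ee 2 (-(α * c)) *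
      MhQ Q (fun (h : ZMod 2) q => h * a q) sy (RR r w) (2 ^ r) (fun _ => α) s =
      ∑' P : Finset (Pl K), ee 2 (-(α * c)) * (if In Q P then
      (((((2 ^ r : ℕ) : ℝ) ^ P.card)⁻¹ * (NA P : ℝ) ^ (-s) : ℝ) : ℂ) * ∑ col : P → CC r w,
      ee 2 (∑ q : P, α * a q +
        ∑ p : P, ∑ q : P, if p = q then 0 else RR r w (col p) (col q) * sy p q) else 0) := by
    intro α
    rw [tsum_mul_left]
    rfl
  simp_rw [h1]
  rw [← Summable.tsum_finsetSum (fun α _ => (summ Q sy a w r α s hs hs2).mul_left _),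
    ← tsum_mul_left]
  refine tsum_congr fun P => ?_
  by_cases hP : In Q P
  · simp only [hP, if_true]
    exact term_one sy a w r c s P
  · simp [hP]

end T2h16.TG.EXP2
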