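import Pool.Agent.T2h16.TG.Stm
import Pool.Agent.T3h73.SD.T_MASS

/-! Task FAM2 of project TG: from the sums over the places to the sums over the family. -/

set_option autoImplicit false
set_option linter.all false

open NumberField IsDedekindDomain Filter Topology

namespace T2h16.TG.FAM2

open Pool.Agent.T3h73.SL (Pl)
open Pool.Agent.T3h73.SD (ee NA gA syA SymSys)
open Pool.Agent.T3h73.TK (In TQ)
open Q283.GA.St (Adm sy)
open T2h16.TG.Def (Fam Mem fsum Nice)

variable {K : Type} [Field K] [NumberField K]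

/-- the facts on the dictionary -/
structure Dk (f : GaussianInt ≃+* 𝓞 K) (k : ℕ) : Prop where
  adm : ∀ q ∈ Qk f k, Adm k (gn f q)
  pp : ∀ q ∈ Qk f k, Pp (gn f q)
  nm : ∀ q ∈ Qk f k, (gn f q).norm = Ideal.absNorm q.asIdeal
  inj : ∀ p ∈ Qk f k, ∀ q ∈ Qk f k, gn f p = gn f q → p = q
  sur : ∀ π, Adm k π → ∃ q ∈ Qk f k, gn f q = π

theorem dk (hDIC : S_DIC2) (hPAR : S_PAR2) (f : GaussianInt ≃+* 𝓞 K) (k : ℕ) (hk : 1 ≤ k) :
    Dk f k := by
  obtain ⟨S, hS, hgn, hsurj⟩ := hDIC K f
  obtain ⟨-, -, hP3, hP4, -⟩ := hPAR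
  have hQ : ∀ q ∈ Qk f k, q ∉ S := fun q hq h => hq.1 ((hS q).1 h)
  refine ⟨fun q hq => ?_, fun q hq => ?_, fun q hq => (hgn q (hQ q hq)).2.2.2, fun p hp q hq h => ?_,
    fun π hπ => ?_⟩
  · obtain ⟨h1, h2, -, h3⟩ := hgn q (hQ q hq)
    have h4 : (2 : ℤ) ^ (k + 2) ∣ (gn f q).norm - 1 := by
      rw [h3]
      exact hq.2
    refine ⟨h1, (hP3 _ h2).2 ?_, h4⟩
    have h5 : (8 : ℤ) ∣ 2 ^ (k + 2) := by
      have : (8 : ℤ) = 2 ^ 3 := by norm_num
      rw [this]
      exact pow_dvd_pow 2 (by omega)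
    exact h5.trans h4
  · obtain ⟨h1, h2, -, h3⟩ := hgn q (hQ q hq)
    exact ⟨h1, h2⟩
  · apply HeightOneSpectrum.ext
    rw [← (hgn p (hQ p hp)).2.2.1, ← (hgn q (hQ q hq)).2.2.1, h]
  · obtain ⟨v, hv, h⟩ := hsurj π hπ.1 (hP4 _ hπ.2.1)
    refine ⟨v, ⟨fun h3 => hv ((hS v).2 h3), ?_⟩, h⟩
    rw [← (hgn v hv).2.2.2, h]
    exact hπ.2.2

open Classical in
/-- the set of the primary generators -/
noncomputable def im (f : GaussianInt ≃+* 𝓞 K) (k : ℕ) (P : {P : Finset (Pl K) // In (Qk f k) P}) :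
    Finset GaussianInt := P.1.image (gn f)

open Classical in
theorem im_inj {f : GaussianInt ≃+* 𝓞 K} {k : ℕ} (h : Dk f k) : Function.Injective (im f k) := by
  intro P P' hP
  have key : ∀ P P' : {P : Finset (Pl K) // In (Qk f k) P}, im f k P = im f k P' →
      ∀ q ∈ P.1, q ∈ P'.1 := by
    intro P P' hP q hq
    have h1 : gn f q ∈ im f k P := Finset.mem_image_of_mem _ hq
    rw [hP] at h1
    obtain ⟨q', hq', h2⟩ := Finset.mem_image.1 h1
    rw [← h.inj q' (P'.2 q' hq') q (P.2 q hq) h2]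
    exact hq'
  apply Subtype.ext
  ext q
  exact ⟨key P P' hP q, key P' P hP.symm q⟩

open Classical in
theorem im_range {f : GaussianInt ≃+* 𝓞 K} {k : ℕ} (h : Dk f k) (P' : Finset GaussianInt)
    (hP' : ∀ π ∈ P', Adm k π) : ∃ P, im f k P = P' := by
  have h1 : ∀ π : P', ∃ q ∈ Qk f k, gn f q = π := fun π => h.sur π (hP' π π.2)
  choose g hg hg2 using h1
  refine ⟨⟨Finset.univ.image g, ?_⟩, ?_⟩
  · intro q hq
    obtain ⟨π, -, rfl⟩ := Finset.mem_image.1 hq
    exact hg π
  · unfold im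
    ext π
    rw [Finset.mem_image]
    constructor
    · rintro ⟨q, hq, rfl⟩
      obtain ⟨π, -, rfl⟩ := Finset.mem_image.1 hq
      rw [hg2]
      exact π.2
    · intro hπ
      exact ⟨g ⟨π, hπ⟩, Finset.mem_image_of_mem _ (Finset.mem_univ _), hg2 ⟨π, hπ⟩⟩

open Classical in
theorem im_adm {f : GaussianInt ≃+* 𝓞 K} {k : ℕ} (h : Dk f k)
    (P : {P : Finset (Pl K) // In (Qk f k) P}) :
    ∀ π ∈ im f k P, Adm k π := by
  intro π hπ
  obtain ⟨q, hq, rfl⟩ := Finset.mem_image.1 hπ
  exact h.adm q (P.2 q hq)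

open Classical in
theorem im_card {f : GaussianInt ≃+* 𝓞 K} {k : ℕ} (h : Dk f k)
    (P : {P : Finset (Pl K) // In (Qk f k) P}) :
    (im f k P).card = P.1.card :=
  Finset.card_image_of_injOn fun p hp q hq hpq => h.inj p (P.2 p hp) q (P.2 q hq) hpq

open Classical in
theorem im_prod {f : GaussianInt ≃+* 𝓞 K} {k : ℕ} (h : Dk f k)
    (P : {P : Finset (Pl K) // In (Qk f k) P}) :
    ∏ π ∈ im f k P, ((π : GaussianInt).norm : ℝ) = (NA P.1 : ℝ) := by
  unfold im NA
  rw [Finset.prod_image fun p hp q hq hpq => h.inj p (P.2 p hp) q (P.2 q hq) hpq, Nat.cast_prod]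
  refine Finset.prod_congr rfl fun q hq => ?_
  rw [h.nm q (P.2 q hq)]
  norm_cast

/-! ### The sum over the family -/

section
variable (k : ℕ) (H : Finset GaussianInt → ℝ) (s : ℝ)

open Classical in
noncomputable def gg (x : Fam) : ℝ :=
  if Mem k x then Def.cond x ^ (-s) * H x.1 else 0

open Classical in
noncomputable def aa (P : Finset GaussianInt) : ℝ :=
  if ∀ π ∈ P, Adm k π then (∏ π ∈ P, ((π : GaussianInt).norm : ℝ)) ^ (-s) *
    (((2 ^ (k - 1) : ℕ) : ℝ) ^ P.card * H P) else 0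

theorem nrm_nn (π : GaussianInt) : (0 : ℝ) ≤ π.norm := by
  have : 0 ≤ π.norm := GaussianInt.norm_nonneg π
  exact_mod_cast this

theorem cond_nn (x : Fam) : 0 ≤ Def.cond x := by
  unfold Def.cond
  exact Finset.prod_nonneg fun π _ => nrm_nn π

theorem mem_iff (P : Finset GaussianInt) (hP : ∀ π ∈ P, Adm k π)
    (lam : ∀ π : P, MulChar (GaussianInt ⧸ Ideal.span {(π : GaussianInt)}) ℂ) :
    Mem k ⟨P, lam⟩ ↔ ∀ π, orderOf (lam π) = 2 ^ k :=
  ⟨fun h π => (h π).2, fun h π => ⟨hP π π.2, h π⟩⟩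

variable {k}

open Classical in
theorem fib (hk : 1 ≤ k) (hFIB : S_FIB2) (P : Finset GaussianInt) :
    Summable (fun lam => gg k H s ⟨P, lam⟩) ∧ ∑' lam, gg k H s ⟨P, lam⟩ = aa k H s P := by
  by_cases hP : ∀ π ∈ P, Adm k π
  · obtain ⟨h1, h2⟩ := hFIB k hk P hP
    constructor
    · refine summable_of_finite_support (h1.subset fun lam hlam => ?_)
      rw [Function.mem_support] at hlam
      by_contra h3
      apply hlam
      unfold gg
      exact if_neg fun h4 => h3 ((mem_iff k P hP lam).1 h4)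
    · unfold aa
      rw [if_pos hP]
      have h4 : (∏ π ∈ P, ((π : GaussianInt).norm : ℝ)) ^ (-s) *
          (((2 ^ (k - 1) : ℕ) : ℝ) ^ P.card * H P) =
          ((∏ π ∈ P, ((π : GaussianInt).norm : ℝ)) ^ (-s) * H P) *
            ((2 ^ (k - 1) : ℕ) : ℝ) ^ P.card := by
        ring
      rw [h4, ← h2, ← tsum_mul_left]
      refine tsum_congr fun lam => ?_
      unfold gg
      by_cases h5 : ∀ π, orderOf (lam π) = 2 ^ k
      · rw [if_pos h5, if_pos ((mem_iff k P hP lam).2 h5), mul_one]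
        rfl
      · rw [if_neg h5, if_neg fun h6 => h5 ((mem_iff k P hP lam).1 h6), mul_zero]
  · have h0 : ∀ lam, gg k H s ⟨P, lam⟩ = 0 := by
      intro lam
      unfold gg
      refine if_neg fun h => hP fun π hπ => (h ⟨π, hπ⟩).1
    unfold aa
    rw [if_neg hP]
    constructor
    · exact summable_zero.congr fun lam => (h0 lam).symm
    · rw [tsum_congr h0, tsum_zero]

open Classical in
theorem total (hk : 1 ≤ k) (hFIB : S_FIB2) {f : GaussianInt ≃+* 𝓞 K} (hD : Dk f k)
    (hH0 : ∀ P, 0 ≤ H P) (hH1 : ∀ P, H P ≤ 1) (hs1 : 1 < s) (hs2 : s ≤ 2) :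
    Summable (gg k H s) ∧ ∑' x, gg k H s x =
      ∑' P : Finset (Pl K), if hP : In (Qk f k) P then
        ((2 ^ (k - 1) : ℕ) : ℝ) ^ P.card * (NA P : ℝ) ^ (-s) * H (im f k ⟨P, hP⟩) else 0 := by
  have hg0 : ∀ x, 0 ≤ gg k H s x := by
    intro x
    unfold gg
    split_ifs
    · exact mul_nonneg (Real.rpow_nonneg (cond_nn x) _) (hH0 _)
    · exact le_rfl
  have ha : ∀ P : {P : Finset (Pl K) // In (Qk f k) P}, aa k H s (im f k P) =
      ((2 ^ (k - 1) : ℕ) : ℝ) ^ P.1.card * (NA P.1 : ℝ) ^ (-s) * H (im f k P) := by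
    intro P
    unfold aa
    rw [if_pos (im_adm hD P), im_prod hD, im_card hD]
    ring
  have hle : ∀ P : {P : Finset (Pl K) // In (Qk f k) P}, aa k H s (im f k P) ≤
      ((2 ^ (k - 1) : ℕ) : ℝ) ^ P.1.card * (NA P.1 : ℝ) ^ (-s) * gA P.1 ^ (0 : ℝ) := by
    intro P
    rw [ha, Real.rpow_zero]
    exact mul_le_mul_of_nonneg_left (hH1 _) (by positivity)
  have ha0 : ∀ P, 0 ≤ aa k H s P := by
    intro P
    unfold aa
    split_ifs
    · exact mul_nonneg (Real.rpow_nonneg (Finset.prod_nonneg fun π _ => nrm_nn π) _)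
        (mul_nonneg (by positivity) (hH0 _))
    · exact le_rfl
  obtain ⟨C, -, hM, -⟩ := Pool.Agent.T3h73.SD.MASS.t_MASS K (2 ^ (k - 1)) 0
    (Nat.one_le_pow _ _ (by norm_num)) le_rfl
  have hsub : Summable (fun P : {P : Finset (Pl K) // In (Qk f k) P} => aa k H s (im f k P)) := by
    refine Summable.of_nonneg_of_le (fun P => ha0 _) hle ?_
    exact (hM s hs1 hs2).1.comp_injective (i := Subtype.val) Subtype.val_injective
  have hz : ∀ P ∉ Set.range (im f k), aa k H s P = 0 := by
    intro P hP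
    unfold aa
    refine if_neg fun h => hP ?_
    exact im_range hD P h
  have hsa : Summable (aa k H s) := ((im_inj hD).summable_iff hz).1 hsub
  have hsg : Summable (gg k H s) := by
    rw [summable_sigma_of_nonneg hg0]
    refine ⟨fun P => (fib H s hk hFIB P).1, ?_⟩
    exact hsa.congr fun P => ((fib H s hk hFIB P).2).symm
  refine ⟨hsg, ?_⟩
  have h1 : ∑' x, gg k H s x = ∑' P, ∑' lam, gg k H s ⟨P, lam⟩ := hsg.tsum_sigma
  rw [h1, tsum_congr fun P => (fib H s hk hFIB P).2,
    ← (im_inj hD).tsum_eq (f := aa k H s) (fun P hP => by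
      by_contra h2
      exact hP (hz P h2)), tsum_congr ha]
  have h3 := tsum_subtype {P : Finset (Pl K) | In (Qk f k) P} (fun P : Finset (Pl K) =>
    if hP : In (Qk f k) P then ((2 ^ (k - 1) : ℕ) : ℝ) ^ P.card * (NA P : ℝ) ^ (-s) *
      H (im f k ⟨P, hP⟩) else 0)
  have h4 : (∑' P : {P : Finset (Pl K) // In (Qk f k) P},
      ((2 ^ (k - 1) : ℕ) : ℝ) ^ P.1.card * (NA P.1 : ℝ) ^ (-s) * H (im f k P)) =
      ∑' x : {P : Finset (Pl K) | In (Qk f k) P}, (fun P : Finset (Pl K) =>
    if hP : In (Qk f k) P then ((2 ^ (k - 1) : ℕ) : ℝ) ^ P.card * (NA P : ℝ) ^ (-s) *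
      H (im f k ⟨P, hP⟩) else 0) x := by
    refine tsum_congr fun P => ?_
    simp only [dif_pos P.2]
  rw [h4, h3]
  refine tsum_congr fun P => ?_
  by_cases hP : In (Qk f k) P
  · exact Set.indicator_of_mem (show P ∈ {P : Finset (Pl K) | In (Qk f k) P} from hP) _
  · rw [Set.indicator_of_notMem (show P ∉ {P : Finset (Pl K) | In (Qk f k) P} from hP), dif_neg hP]

end

/-! ### The good sets -/

/-- the condition -/
def GE (P : Finset GaussianInt) : Prop :=
  (∀ v : P → ZMod 2, (∀ j : P, ∑ i : P, sy (j : GaussianInt) (i : GaussianInt) * (v i - v j) = 0) →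
    ∀ i j, v i = v j) ∧ ∑ π : P, ap π ≠ 0

open Classical in
/-- the bijection from `P` to its image -/
noncomputable def beta {f : GaussianInt ≃+* 𝓞 K} {k : ℕ} (h : Dk f k)
    (P : {P : Finset (Pl K) // In (Qk f k) P}) : P.1 ≃ ↥(im f k P) :=
  Equiv.ofBijective (fun q => ⟨gn f q, Finset.mem_image_of_mem _ q.2⟩) ⟨fun p q hpq =>
    Subtype.ext (h.inj p (P.2 p p.2) q (P.2 q q.2) (congrArg Subtype.val hpq)), fun π => by
      obtain ⟨q, hq, h2⟩ := Finset.mem_image.1 π.2
      exact ⟨⟨q, hq⟩, Subtype.ext h2⟩⟩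

theorem beta_val {f : GaussianInt ≃+* 𝓞 K} {k : ℕ} (h : Dk f k)
    (P : {P : Finset (Pl K) // In (Qk f k) P}) (q : P.1) :
    ((beta h P q : ↥(im f k P)) : GaussianInt) = gn f q :=
  rfl

open Classical in
theorem const_of_two (sy : Pl K → Pl K → ZMod 2) (P : Finset (Pl K))
    (hne : P.Nonempty) (h : nV sy P = 2) (v : P → ZMod 2) (hv : v ∈ VV sy P) :
    ∀ i j, v i = v j := by
  have hc : ∀ c : ZMod 2, (fun _ => c : P → ZMod 2) ∈ VV sy P := by
    intro c j
    simp
  let φ : ZMod 2 → VV sy P := fun c => ⟨fun _ => c, hc c⟩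
  obtain ⟨q, hq⟩ := hne
  have hφ : Function.Injective φ := by
    intro c d hcd
    exact congrFun (congrArg Subtype.val hcd) ⟨q, hq⟩
  have hfin : Finite (VV sy P) := Subtype.finite
  have hb : Function.Bijective φ := by
    rw [Nat.bijective_iff_injective_and_card]
    refine ⟨hφ, ?_⟩
    rw [Nat.card_zmod]
    exact h.symm
  obtain ⟨c, hc2⟩ := hb.2 ⟨v, hv⟩
  intro i j
  have h1 : v = fun _ => c := (congrArg Subtype.val hc2).symm
  rw [h1]

open Classical in
theorem ge_of {f : GaussianInt ≃+* 𝓞 K} {k : ℕ} (h : Dk f k) (hREC : S_REC2)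
    (P : {P : Finset (Pl K) // In (Qk f k) P})
    (h1 : nV (fun p q => sy (gn f p) (gn f q)) P.1 = 2)
    (h2 : aS (fun q => ap (gn f q)) P.1 ≠ 0) :
    GE (im f k P) := by
  have hne : P.1.Nonempty := by
    by_contra h3
    apply h2
    unfold aS
    have : IsEmpty P.1 := ⟨fun q => h3 ⟨q, q.2⟩⟩
    exact Finset.sum_of_isEmpty _
  constructor
  · intro v hv
    have h3 : (fun q => v (beta h P q)) ∈ VV (fun p q => sy (gn f p) (gn f q)) P.1 := by
      intro j
      have h4 := hv (beta h P j)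
      rw [← (beta h P).sum_comp] at h4
      refine Eq.trans (Finset.sum_congr rfl fun i _ => ?_) h4
      by_cases hij : i = j
      · subst hij
        simp
      · have h5 : sy (gn f i) (gn f j) = sy (gn f j) (gn f i) := by
          refine hREC _ _ (h.pp i (P.2 i i.2)) (h.pp j (P.2 j j.2)) fun h6 => hij ?_
          exact Subtype.ext (h.inj i (P.2 i i.2) j (P.2 j j.2) h6)
        change sy (gn f i) (gn f j) *
          (v (beta h P i) - v (beta h P j)) = sy (gn f j) (gn f i) *
          (v (beta h P i) - v (beta h P j))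
        rw [h5]
    have h5 := const_of_two _ P.1 hne h1 _ h3
    intro i j
    have h6 := h5 ((beta h P).symm i) ((beta h P).symm j)
    simpa using h6
  · have h3 : ∑ π : ↥(im f k P), ap π = aS (fun q => ap (gn f q)) P.1 := by
      unfold aS
      rw [← (beta h P).sum_comp]
      rfl
    rw [h3]
    exact h2

open Classical in
theorem t_FAM2 (hD : S_DIC2) (hC : S_CRI2) (hR : S_REC2) (hF : S_FIB2) (hP : S_PAR2) : S_FAM2 := by
  intro K _ _ f k hk s hs1 hs2
  have hk1 : 1 ≤ k := by omega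
  have hDk := dk hD hP f k hk1
  -- everything
  obtain ⟨h1, h2⟩ := total (K := K) (fun _ => 1) s hk1 hF hDk (fun _ => zero_le_one)
    (fun _ => le_rfl) hs1 hs2
  have hg1 : ∀ x : Fam, gg k (fun _ => 1) s x = if Mem k x then Def.cond x ^ (-s) else 0 := by
    intro x
    unfold gg
    simp only [mul_one]
  -- the good sets
  obtain ⟨h3, h4⟩ := total (K := K) (fun P => if GE P then 1 else 0) s hk1 hF hDk
    (fun P => by split_ifs <;> norm_num) (fun P => by split_ifs <;> norm_num) hs1 hs2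
  refine ⟨h1.congr fun x => hg1 x, ?_, ?_⟩
  · have e1 : fsum k (fun _ => True) s = ∑' x, gg k (fun _ => 1) s x := by
      unfold fsum
      refine tsum_congr fun x => ?_
      rw [hg1]
      simp only [and_true]
    rw [e1, h2]
    unfold TQ
    refine tsum_congr fun P => ?_
    by_cases hP : In (Qk f k) P
    · rw [dif_pos hP, if_pos hP, mul_one]
    · rw [dif_neg hP, if_neg hP]
  · have hle : ∀ x : Fam, gg k (fun P => if GE P then 1 else 0) s x ≤
        if Mem k x ∧ Nice k x then Def.cond x ^ (-s) else 0 := by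
      intro x
      unfold gg
      by_cases hx : Mem k x
      · rw [if_pos hx]
        by_cases hge : GE x.1
        · have hn : Nice k x := hC k hk x hx hge.1 hge.2
          dsimp only
          rw [if_pos hge, if_pos ⟨hx, hn⟩, mul_one]
        · dsimp only
          rw [if_neg hge, mul_zero]
          split_ifs
          · exact Real.rpow_nonneg (cond_nn x) _
          · exact le_rfl
      · rw [if_neg hx, if_neg fun h => hx h.1]
    have hsn : Summable (fun x : Fam => if Mem k x ∧ Nice k x then Def.cond x ^ (-s) else 0) := by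
      refine Summable.of_nonneg_of_le (fun x => ?_) (fun x => ?_) h1
      · split_ifs
        · exact Real.rpow_nonneg (cond_nn x) _
        · exact le_rfl
      · rw [hg1]
        by_cases hx : Mem k x
        · rw [if_pos hx]
          split_ifs
          · exact le_rfl
          · exact Real.rpow_nonneg (cond_nn x) _
        · rw [if_neg hx, if_neg fun h => hx h.1]
    have h5 : ∑' x, gg k (fun P => if GE P then 1 else 0) s x ≤ fsum k (Nice k) s :=
      h3.tsum_le_tsum hle hsn
    refine le_trans ?_ h5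
    rw [h4]
    unfold SQ
    -- summability of the right-hand side
    obtain ⟨C, -, hM, -⟩ := Pool.Agent.T3h73.SD.MASS.t_MASS K (2 ^ (k - 1)) 0
      (Nat.one_le_pow _ _ (by norm_num)) le_rfl
    have hM1 := (hM s hs1 hs2).1
    have hb : ∀ (P : Finset (Pl K)) (x : ℝ), x ≤ 1 →
        ((2 ^ (k - 1) : ℕ) : ℝ) ^ P.card * (NA P : ℝ) ^ (-s) * x ≤
          ((2 ^ (k - 1) : ℕ) : ℝ) ^ P.card * (NA P : ℝ) ^ (-s) * gA P ^ (0 : ℝ) := by
      intro P x hx
      rw [Real.rpow_zero]
      exact mul_le_mul_of_nonneg_left hx (by positivity)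
    refine Summable.tsum_le_tsum (fun P => ?_) ?_ ?_
    · by_cases hP : In (Qk f k) P
      · rw [dif_pos hP, if_pos hP]
        refine mul_le_mul_of_nonneg_left ?_ (by positivity)
        by_cases h6 : nV (fun p q => sy (gn f p) (gn f q)) P = 2 ∧
            aS (fun q => ap (gn f q)) P ≠ 0
        · dsimp only
          rw [if_pos h6, if_pos]
          exact ge_of hDk hR ⟨P, hP⟩ h6.1 h6.2
        · dsimp only
          rw [if_neg h6]
          split_ifs <;> norm_num
      · rw [dif_neg hP, if_neg hP]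
    · refine Summable.of_nonneg_of_le (fun P => ?_) (fun P => ?_) hM1
      · by_cases hP : In (Qk f k) P
        · rw [if_pos hP]
          refine mul_nonneg (by positivity) ?_
          dsimp only
          split_ifs <;> norm_num
        · rw [if_neg hP]
      · by_cases hP : In (Qk f k) P
        · rw [if_pos hP]
          refine hb P _ ?_
          dsimp only
          split_ifs <;> norm_num
        · rw [if_neg hP]
          unfold gA
          positivity
    · refine Summable.of_nonneg_of_le (fun P => ?_) (fun P => ?_) hM1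
      · by_cases hP : In (Qk f k) P
        · rw [dif_pos hP]
          refine mul_nonneg (by positivity) ?_
          split_ifs <;> norm_num
        · rw [dif_neg hP]
      · by_cases hP : In (Qk f k) P
        · rw [dif_pos hP]
          refine hb P _ ?_
          split_ifs <;> norm_num
        · rw [dif_neg hP]
          unfold gA
          positivity

end T2h16.TG.FAM2
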