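import Pool.Agent.T2h16.TG.Stm

/-!
# FIB2: the number of the families of characters for a fixed set of primes
-/

set_option autoImplicit false

namespace T2h16.TG.FIB2

open T2h16.TG T2h16.TG.Def
open Q283.GA.St (Adm sy Concl)

theorem t_FIB2 (hC : S_CHC2) : S_FIB2 := by
  classical
  intro k hk P hP
  have hfin : {lam : ∀ π : P, MulChar (GaussianInt ⧸ Ideal.span {(π : GaussianInt)}) ℂ |
      ∀ π, orderOf (lam π) = 2 ^ k}.Finite := by
    refine Set.Finite.pi' (t := fun π : P =>
      {l : MulChar (GaussianInt ⧸ Ideal.span {(π : GaussianInt)}) ℂ | orderOf l = 2 ^ k}) fun π => ?_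
    have := (hC k hk π (hP π π.2)).2
    exact this
  refine ⟨hfin, ?_⟩
  rw [tsum_eq_sum (s := hfin.toFinset) (fun lam hlam => if_neg (by simpa using hlam))]
  have h1 : ∀ lam ∈ hfin.toFinset, (if ∀ π, orderOf (lam π) = 2 ^ k then (1 : ℝ) else 0) = 1 :=
    fun lam hlam => if_pos (by simpa using hlam)
  rw [Finset.sum_congr rfl h1, Finset.sum_const, nsmul_eq_mul, mul_one]
  have h4 : Nat.card {lam : ∀ π : P, MulChar (GaussianInt ⧸ Ideal.span {(π : GaussianInt)}) ℂ //
      ∀ π, orderOf (lam π) = 2 ^ k} = hfin.toFinset.card := by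
    refine Nat.subtype_card _ fun lam => ?_
    rw [Set.Finite.mem_toFinset]
    rfl
  have h5 : Nat.card {lam : ∀ π : P, MulChar (GaussianInt ⧸ Ideal.span {(π : GaussianInt)}) ℂ //
      ∀ π, orderOf (lam π) = 2 ^ k} = (2 ^ (k - 1)) ^ P.card := by
    rw [Nat.card_congr (Equiv.subtypePiEquivPi (p := fun (π : P)
      (l : MulChar (GaussianInt ⧸ Ideal.span {(π : GaussianInt)}) ℂ) => orderOf l = 2 ^ k)),
      Nat.card_pi]
    rw [Finset.prod_congr rfl (fun (π : P) _ => (hC k hk π (hP π π.2)).1), Finset.prod_const,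
      Finset.card_univ, Fintype.card_coe]
  rw [← h4, h5]
  push_cast
  rfl

end T2h16.TG.FIB2
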