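import Pool.Agent.T2h16.TG.Stm

/-!
Project TG (helper16), task FLD2 (helper5): a number field with ring of integers `ℤ[i]`.
-/

set_option autoImplicit false
set_option linter.all false

open NumberField

namespace T2h16.TG.FLD2

open T2h16.TG

theorem t_FLD2 : S_FLD2 := by
  have hne : NeZero ((4 : ℕ) : ℚ) := ⟨by norm_num⟩
  have hcyc : IsCyclotomicExtension {4} ℚ (CyclotomicField 4 ℚ) :=
    CyclotomicField.isCyclotomicExtension 4 ℚ
  have hnf : NumberField (CyclotomicField 4 ℚ) := IsCyclotomicExtension.numberField {4} ℚ _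
  refine ⟨CyclotomicField 4 ℚ, inferInstance, hnf, ?_⟩
  have hζ : IsPrimitiveRoot (IsCyclotomicExtension.zeta 4 ℚ (CyclotomicField 4 ℚ)) 4 :=
    IsCyclotomicExtension.zeta_spec 4 ℚ (CyclotomicField 4 ℚ)
  have hprim : IsPrimitiveRoot hζ.toInteger 4 := hζ.toInteger_isPrimitiveRoot
  have hη : hζ.toInteger * hζ.toInteger = ((-1 : ℤ) : 𝓞 (CyclotomicField 4 ℚ)) := by
    have h1 : (hζ.toInteger ^ 2 - 1) * (hζ.toInteger ^ 2 + 1) = 0 := by
      have := hprim.pow_eq_one
      linear_combination this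
    have h2 : hζ.toInteger ^ 2 - 1 ≠ 0 := by
      intro h
      exact hprim.pow_ne_one_of_pos_of_lt (by norm_num : (2 : ℕ) ≠ 0) (by norm_num) (sub_eq_zero.1 h)
    have h3 := (mul_eq_zero.1 h1).resolve_left h2
    push_cast
    linear_combination h3
  have hlift : ∀ z : GaussianInt, Zsqrtd.lift ⟨hζ.toInteger, hη⟩ z =
      (z.re : 𝓞 (CyclotomicField 4 ℚ)) + (z.im : 𝓞 (CyclotomicField 4 ℚ)) * hζ.toInteger := fun z => rfl
  refine ⟨RingEquiv.ofBijective (Zsqrtd.lift ⟨hζ.toInteger, hη⟩ : GaussianInt →+* 𝓞 (CyclotomicField 4 ℚ))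
    ⟨?_, ?_⟩⟩
  · exact Zsqrtd.lift_injective _ fun n hn => by nlinarith [mul_self_nonneg n]
  · intro y
    obtain ⟨f, hf⟩ := hζ.integralPowerBasis.exists_eq_aeval' y
    rw [hζ.integralPowerBasis_gen, Polynomial.aeval_eq_sum_range] at hf
    have hmem : y ∈ (Zsqrtd.lift ⟨hζ.toInteger, hη⟩ : GaussianInt →+* 𝓞 (CyclotomicField 4 ℚ)).range := by
      rw [hf]
      refine sum_mem fun i _ => ?_
      rw [zsmul_eq_mul]
      refine mul_mem ?_ (pow_mem ?_ _)
      · exact ⟨(f.coeff i : GaussianInt), map_intCast _ _⟩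
      · refine ⟨⟨0, 1⟩, ?_⟩
        rw [hlift]
        push_cast
        ring
    exact hmem

end T2h16.TG.FLD2
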