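import Pool.Agent.T2h16.TG.Stm

/-! Task MAIN2 of project TG: the assembly. -/

set_option autoImplicit false
set_option linter.all false

open NumberField IsDedekindDomain Filter Topology

namespace T2h16.TG.MAIN2

open Pool.Agent.T3h73.SL (Pl)
open Pool.Agent.T3h73.SD (kap)
open Pool.Agent.T3h73.TK (In TQ Dens SymQ S_TQL)
open Q283.GA.St (Adm sy Concl)
open T2h16.TG.Def

theorem norm_pos {π : GaussianInt} (h : π ≠ 0) : 1 ≤ π.norm := by
  have h1 : 0 < π.norm := by
    have h2 : 0 ≤ π.norm := GaussianInt.norm_nonneg π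
    have h3 : π.norm ≠ 0 := by
      rw [Ne, GaussianInt.norm_eq_zero]
      exact h
    omega
  omega

open Classical in
theorem t_MAIN2 (hFLD : S_FLD2) (hSYS : S_SYS2) (hDIS : S_DIS2) (hFAM : S_FAM2) (hTQL : S_TQL) :
    S_MAIN2 := by
  intro k hk
  obtain ⟨K, _, _, ⟨f⟩⟩ := hFLD
  obtain ⟨S, hS, hQ⟩ := hSYS K f k (by omega)
  have hw : 1 ≤ 2 ^ (k - 1) := Nat.one_le_pow _ _ (by norm_num)
  have hfam := hFAM K f k hk
  obtain ⟨hT1, hT⟩ := hTQL K (Qk f k) (2 ^ k) (Nat.one_le_pow _ _ (by norm_num)) hQ.dens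
    ((2 ^ (k - 1) : ℕ) : ℝ) (by positivity)
  have hkap : kap 2 = ∏' i : ℕ, (1 + ((2 : ℝ) ^ (i + 1))⁻¹)⁻¹ := by
    unfold kap
    norm_num
  have hev : ∀ᶠ s : ℝ in 𝓝[>] 1, 1 < s ∧ s ≤ 2 := by
    have h1 : Set.Ioc (1 : ℝ) 2 ∈ 𝓝[>] (1 : ℝ) := Ioc_mem_nhdsGT (by norm_num)
    exact Filter.mem_of_superset h1 fun s hs => hs
  refine ⟨?_, ?_, ?_⟩
  · intro s hs
    by_cases hs2 : s ≤ 2
    · exact (hfam s hs hs2).1
    · refine Summable.of_nonneg_of_le (fun x => ?_) (fun x => ?_) (hfam 2 (by norm_num) le_rfl).1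
      · split_ifs with h
        · refine Real.rpow_nonneg ?_ _
          unfold Def.cond
          refine Finset.prod_nonneg fun π _ => ?_
          have : 0 ≤ π.norm := GaussianInt.norm_nonneg π
          exact_mod_cast this
        · exact le_rfl
      · split_ifs with h
        · have h1 : 1 ≤ cond x := by
            unfold Def.cond
            refine Finset.one_le_prod fun π hπ => ?_
            have h2 := (h ⟨π, hπ⟩).1.1
            have h3 : 1 ≤ π.norm := norm_pos h2.ne_zero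
            exact_mod_cast h3
          exact Real.rpow_le_rpow_of_exponent_le h1 (by linarith)
        · exact le_rfl
  · have h1 := hT (1 / 4) (by norm_num)
    have e1 : ((2 ^ (k - 1) : ℕ) : ℝ) / ((2 ^ k : ℕ) : ℝ) - 1 / 4 = 1 / 4 := by
      obtain ⟨j, rfl⟩ : ∃ j, k = j + 1 := ⟨k - 1, by omega⟩
      rw [Nat.add_sub_cancel]
      push_cast
      rw [pow_succ]
      have : (2 : ℝ) ^ j ≠ 0 := by positivity
      field_simp
      norm_num
    rw [e1] at h1
    have h2 : Tendsto (fun s : ℝ => (1 / (s - 1)) ^ (1 / 4 : ℝ)) (𝓝[>] 1) atTop := by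
      refine (tendsto_rpow_atTop (by norm_num : (0 : ℝ) < 1 / 4)).comp ?_
      have h3 : Tendsto (fun s : ℝ => s - 1) (𝓝[>] 1) (𝓝[>] 0) := by
        refine tendsto_nhdsWithin_iff.2 ⟨?_, ?_⟩
        · have h3 : Tendsto (fun s : ℝ => s - 1) (𝓝 1) (𝓝 (1 - 1)) :=
            (continuous_id.sub continuous_const).tendsto 1
          rw [sub_self] at h3
          exact h3.mono_left nhdsWithin_le_nhds
        · filter_upwards [self_mem_nhdsWithin] with s hs
          exact sub_pos.2 (Set.mem_Ioi.1 hs)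
      have h4 := tendsto_inv_nhdsGT_zero.comp h3
      refine h4.congr fun s => ?_
      rw [Function.comp, one_div]
    refine tendsto_atTop_mono' _ ?_ h2
    filter_upwards [h1, hev] with s h3 h4
    rw [(hfam s h4.1 h4.2).2.1]
    exact h3
  · intro ε hε
    have hd := hDIS K S _ _ _ _ _ _ _ hQ (2 ^ (k - 1)) hw ε hε
    filter_upwards [hd, hev] with s h1 h2
    obtain ⟨-, h3, h4⟩ := hfam s h2.1 h2.2
    rw [← hkap, h3]
    refine ⟨zero_lt_one.trans_le (hT1 s h2.1 h2.2).2, ?_⟩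
    exact h1.trans h4

end T2h16.TG.MAIN2
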