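import Pool.Agent.T2h16.TG.Stm

/-! Project TG, task MOM2: the moments (adapted from `TK/T_MOMQ.lean`). -/

set_option autoImplicit false
set_option linter.all false

open NumberField IsDedekindDomain Filter Topology

namespace T2h16.TG.MOM2

open Pool.Agent.T3h73.SL (Pl)
open Pool.Agent.T3h73.SD (ee NA gA syA SymSys Cl Rc kap)
open Pool.Agent.T3h73.TK (In TQ Dens SymQ MhQ S_ANQ)

open Classical in
theorem t_MOM2 (hE : S_EXP2) (hA : S_ANQ) (hU : S_UNQ2) : S_MOM2 := by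
  intro K _ _ S 𝔪 a sy Q n ι _ Ψ hM w r c hw
  obtain ⟨hR, hU, hcard⟩ := hU r w hw
  have hM0 : ((w * 2 ^ r : ℕ) : ℝ) / ((2 ^ r : ℕ) : ℝ) = w := by
    push_cast
    field_simp
  set X : ℕ := 2 ^ r * ∏ i ∈ Finset.range r, (1 + 2 ^ i) with hX
  have hlim : ∀ α : ZMod 2, Tendsto (fun s : ℝ => ee 2 (-(α * c)) *
      (MhQ Q (fun (h : ZMod 2) q => h * a q) sy (RR r w) (2 ^ r)
        (fun _ => α) s / ((TQ Q w s : ℝ) : ℂ))) (𝓝[>] 1)
      (𝓝 (if α = 0 then (X : ℂ) else 0)) := by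
    intro α
    have h := hA 2 Nat.prime_two K S 𝔪 (ZMod 2) (fun (h : ZMod 2) q => h * a q) sy Q n ι Ψ hM
      (CC r w) (RR r w) (2 ^ r) (w * 2 ^ r) (fun _ => α)
      (Nat.one_le_pow _ _ (by norm_num)) (by
        have : 1 ≤ 2 ^ r := Nat.one_le_pow _ _ (by norm_num)
        nlinarith) hR hU
    rw [hM0, hcard α] at h
    have h2 := h.const_mul (ee 2 (-(α * c)))
    have h3 : ee 2 (-(α * c)) * (((if α = 0 then X else 0 : ℕ)) : ℂ) =
        if α = 0 then (X : ℂ) else 0 := by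
      by_cases h0 : α = 0
      · rw [if_pos h0, if_pos h0, h0, zero_mul, neg_zero]
        simp [ee]
      · rw [if_neg h0, if_neg h0, Nat.cast_zero, mul_zero]
    rw [h3] at h2
    exact h2
  have h1 : ∀ᶠ s : ℝ in 𝓝[>] 1, (1 / 2 : ℂ) * ∑ α : ZMod 2, ee 2 (-(α * c)) *
      (MhQ Q (fun (h : ZMod 2) q => h * a q) sy (RR r w) (2 ^ r)
        (fun _ => α) s / ((TQ Q w s : ℝ) : ℂ)) =
      ((SQ Q w (fun P => if aS a P = c then (nV sy P : ℝ) ^ r else 0) s /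
        TQ Q w s : ℝ) : ℂ) := by
    filter_upwards [Ioc_mem_nhdsGT (show (1 : ℝ) < 2 by norm_num)] with s hs
    rw [Complex.ofReal_div, hE K Q sy a w r c s hs.1 hs.2, mul_div_assoc, Finset.sum_div]
    congr 1
    refine Finset.sum_congr rfl fun α _ => ?_
    rw [mul_div_assoc]
  have h2 : Tendsto (fun s : ℝ => (1 / 2 : ℂ) * ∑ α : ZMod 2, ee 2 (-(α * c)) *
      (MhQ Q (fun (h : ZMod 2) q => h * a q) sy (RR r w) (2 ^ r)
        (fun _ => α) s / ((TQ Q w s : ℝ) : ℂ))) (𝓝[>] 1)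
      (𝓝 ((1 / 2 : ℂ) * ∑ α : ZMod 2, if α = 0 then (X : ℂ) else 0)) :=
    Tendsto.const_mul _ (tendsto_finsetSum _ fun α _ => hlim α)
  have h3 : (1 / 2 : ℂ) * ∑ α : ZMod 2, (if α = 0 then (X : ℂ) else 0) =
      ((1 / 2 * ((2 : ℝ) ^ r * ∏ i ∈ Finset.range r, (1 + (2 : ℝ) ^ i)) : ℝ) : ℂ) := by
    rw [Finset.sum_ite_eq' Finset.univ (0 : ZMod 2) (fun _ => (X : ℂ)), if_pos (Finset.mem_univ _), hX]
    push_cast
    ring
  rw [h3] at h2
  have h8 := h2.congr' h1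
  have h9 := (Complex.continuous_re.tendsto _).comp h8
  exact h9

end T2h16.TG.MOM2
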