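import Pool.Agent.T2h16.TG.T_PAR2

/-!
Task NTR2 of project TG (helper16): the characters are not trivial, by helper46 (adapted from `TK/T_NTR.lean`).
-/

set_option autoImplicit false
set_option linter.all false

namespace T2h16.TG.NTR2

open Q283.GA.St (Adm sy Concl)
open PAR2 (pm par mre mim)

lemma pm_norm (u v : ℤ) : (pm u v).norm = (1 - 2 * u + 4 * v) ^ 2 + (2 * u) ^ 2 := by
  rw [Zsqrtd.norm_def]
  show (1 - 2 * u + 4 * v) * (1 - 2 * u + 4 * v) - -1 * (2 * u) * (2 * u) = _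
  ring

/-- a primary unit is one -/
lemma unit_one {u : GaussianInt} (hu : IsUnit u) (h : tt ∣ u - 1) : u = 1 := by
  obtain ⟨s, t, rfl⟩ := par.1 h
  have h1 : (pm s t).norm.natAbs = 1 := Zsqrtd.norm_eq_one_iff.2 hu
  have h2 : (pm s t).norm = 1 := by
    have := GaussianInt.norm_nonneg (pm s t)
    omega
  rw [pm_norm] at h2
  have h3 : s = 0 := by
    by_contra hs
    have : 1 ≤ s ^ 2 := by
      have := sq_pos_of_ne_zero hs
      omega
    nlinarith [sq_nonneg (1 - 2 * s + 4 * t)]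
  subst h3
  have h4 : t = 0 := by
    have h5 : t * (2 * t + 1) = 0 := by nlinarith
    rcases mul_eq_zero.1 h5 with h6 | h6
    · exact h6
    · omega
  subst h4
  rfl

/-- two associated primary elements are equal -/
lemma eq_of_assoc {a b : GaussianInt} (ha : tt ∣ a - 1) (hb : tt ∣ b - 1)
    (h : Associated a b) : a = b := by
  obtain ⟨u, rfl⟩ := h
  have hu : tt ∣ (u : GaussianInt) - 1 := by
    have h1 : tt ∣ (a * u - 1) - (a - 1) * u := dvd_sub hb (Dvd.dvd.mul_right ha _)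
    have e : (a * u - 1) - (a - 1) * u = (u : GaussianInt) - 1 := by ring
    rwa [e] at h1
  rw [unit_one u.isUnit hu, mul_one]

/-- a primary prime does not divide two -/
lemma not_dvd_two {b : GaussianInt} (hb : Prime b) (h : tt ∣ b - 1) : ¬ b ∣ 2 := by
  intro hd
  apply hb.not_isUnit
  rw [← Zsqrtd.norm_eq_one_iff]
  obtain ⟨c, hc⟩ := hd
  obtain ⟨u, v, rfl⟩ := par.1 h
  have h1 : (pm u v).norm * c.norm = 4 := by
    rw [← Zsqrtd.norm_mul, ← hc]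
    decide
  have h2 : (pm u v).norm ∣ 4 := ⟨_, h1.symm⟩
  have h3 : (pm u v).norm % 2 = 1 := by
    rw [pm_norm]
    have : (1 - 2 * u + 4 * v) ^ 2 + (2 * u) ^ 2 =
        1 + 2 * (4 * u ^ 2 + 8 * v ^ 2 - 2 * u + 4 * v - 8 * u * v) := by ring
    rw [this]
    omega
  have h4 := GaussianInt.norm_nonneg (pm u v)
  have h5 := Int.le_of_dvd (by norm_num) h2
  generalize (pm u v).norm = N at *
  interval_cases N <;> omega

/-- elements `1` modulo `2 ^ (k + 3)` -/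
lemma of_one (hP : S_PAR2) {k : ℕ} {α : GaussianInt} (h : (2 : GaussianInt) ^ (k + 3) ∣ α - 1) :
    tt ∣ α - 1 ∧ (2 : ℤ) ^ (k + 2) ∣ α.norm - 1 ∧ ap α = 0 := by
  have h8 : (8 : GaussianInt) ∣ 1 - α := by
    rw [← dvd_neg, neg_sub]
    refine dvd_trans ⟨2 ^ k, ?_⟩ h
    rw [pow_add]
    norm_num
    ring
  obtain ⟨h1, h2⟩ := hP.2.1 1 α (by rw [sub_self]; exact dvd_zero _) h8
  refine ⟨h1, ?_, ?_⟩
  · obtain ⟨c, hc⟩ := h
    have hcast : ((2 : GaussianInt) ^ (k + 3)) = (((2 : ℤ) ^ (k + 3) : ℤ) : GaussianInt) := by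
      push_cast
      rfl
    rw [hcast] at hc
    have e1 : (((2 : ℤ) ^ (k + 3) : ℤ) : GaussianInt).re = 2 ^ (k + 3) := Zsqrtd.re_intCast _
    have e2 : (((2 : ℤ) ^ (k + 3) : ℤ) : GaussianInt).im = 0 := Zsqrtd.im_intCast _
    have r1 := congrArg Zsqrtd.re hc
    have r2 := congrArg Zsqrtd.im hc
    rw [mre, e1, e2] at r1
    rw [mim, e1, e2] at r2
    have e3 : (α - 1).re = α.re - 1 := rfl
    have e4 : (α - 1).im = α.im - 0 := rfl
    rw [e3] at r1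
    rw [e4] at r2
    have r3 : α.re = 1 + 2 ^ (k + 3) * c.re := by linarith
    have r4 : α.im = 2 ^ (k + 3) * c.im := by linarith
    rw [Zsqrtd.norm_def, r3, r4]
    refine ⟨4 * c.re + 2 * 2 ^ (k + 3) * (c.re ^ 2 + c.im ^ 2), ?_⟩
    ring
  · rw [← h2]
    exact hP.2.2.2.2.2

theorem case_ne (hQ : S_QRS) (hP : S_PAR2) (k : ℕ) (h : ZMod 2) (j : GaussianInt → ZMod 2)
    (B : Finset GaussianInt)
    (hB : ∀ b ∈ B, Prime b ∧ tt ∣ b - 1 ∧ j b ≠ 0) (hne : B.Nonempty) :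
    ∃ α : GaussianInt, tt ∣ α - 1 ∧ (2 : ℤ) ^ (k + 2) ∣ α.norm - 1 ∧ (∀ b ∈ B, ¬ b ∣ α) ∧
    h * ap α + ∑ b ∈ B, j b * sy b α ≠ 0 := by
  classical
  obtain ⟨b₀, hb₀⟩ := hne
  have h2 : ∀ b ∈ B, ¬ b ∣ 2 := fun b hb => not_dvd_two (hB b hb).1 (hB b hb).2.1
  obtain ⟨x, hx, hsx⟩ := (hQ b₀ (hB b₀ hb₀).1 (h2 b₀ hb₀)).2.2.1
  set M : GaussianInt := 2 ^ (k + 3) * ∏ b ∈ B.erase b₀, b with hM
  have hnd : ¬ b₀ ∣ M := by
    intro h1
    rcases (hB b₀ hb₀).1.dvd_or_dvd h1 with h2' | h2'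
    · exact h2 b₀ hb₀ ((hB b₀ hb₀).1.dvd_of_dvd_pow h2')
    · rw [(hB b₀ hb₀).1.dvd_finsetProd_iff] at h2'
      obtain ⟨b, hb, h3⟩ := h2'
      have hbB := Finset.mem_of_mem_erase hb
      have h4 := (hB b₀ hb₀).1.irreducible.associated_of_dvd (hB b hbB).1.irreducible h3
      exact Finset.ne_of_mem_erase hb
        (eq_of_assoc (hB b₀ hb₀).2.1 (hB b hbB).2.1 h4).symm
  obtain ⟨u, v, huv⟩ := ((hB b₀ hb₀).1.irreducible.coprime_iff_not_dvd).2 hnd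
  set α : GaussianInt := 1 + (x - 1) * (v * M) with hα
  have h1 : M ∣ α - 1 := ⟨(x - 1) * v, by rw [hα]; ring⟩
  have h2' : b₀ ∣ α - x := by
    refine ⟨-((x - 1) * u), ?_⟩
    have : v * M = 1 - u * b₀ := by rw [← huv]; ring
    rw [hα, this]
    ring
  obtain ⟨h3, h4, h5⟩ := of_one hP (dvd_trans (Dvd.intro _ rfl) h1)
  have h6 : ∀ b ∈ B, b ≠ b₀ → b ∣ α - 1 := by
    intro b hb hne
    have : b ∣ M := dvd_mul_of_dvd_right (Finset.dvd_prod_of_mem _ (Finset.mem_erase.2 ⟨hne, hb⟩)) _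
    exact dvd_trans this h1
  have h7 : ∀ b ∈ B, ¬ b ∣ α := by
    intro b hb h8
    by_cases hbb : b = b₀
    · subst hbb
      exact hx (by have := dvd_sub h8 h2'; rwa [sub_sub_cancel] at this)
    · have := dvd_sub h8 (h6 b hb hbb)
      rw [sub_sub_cancel] at this
      exact (hB b hb).1.not_isUnit (isUnit_of_dvd_one this)
  refine ⟨α, h3, h4, h7, ?_⟩
  rw [h5, mul_zero, zero_add, ← Finset.add_sum_erase _ _ hb₀, Finset.sum_eq_zero, add_zero]
  · refine mul_ne_zero (hB b₀ hb₀).2.2 ?_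
    rw [(hQ b₀ (hB b₀ hb₀).1 (h2 b₀ hb₀)).1 α x h2']
    exact hsx
  · intro b hb
    have hbB := Finset.mem_of_mem_erase hb
    have hq := hQ b (hB b hbB).1 (h2 b hbB)
    rw [hq.1 α 1 (h6 b hbB (Finset.ne_of_mem_erase hb)), hq.2.2.2, mul_zero]

theorem case_emp (hP : S_PAR2) (k : ℕ) (h : ZMod 2) (hh : h ≠ 0) :
    ∃ α : GaussianInt, tt ∣ α - 1 ∧ (2 : ℤ) ^ (k + 2) ∣ α.norm - 1 ∧ h * ap α ≠ 0 := by
  set z : GaussianInt := ⟨1, 2⟩ with hz
  set s : GaussianInt := ⟨1, -2⟩ with hs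
  have hzs : z * s = 5 := by decide
  have hs1 : ((2 : ℕ) : GaussianInt) ∣ s - 1 := ⟨⟨0, -1⟩, by decide⟩
  have h1 := dvd_sub_pow_of_dvd_sub hs1 (k + 2)
  rw [one_pow] at h1
  have h8 : (8 : GaussianInt) ∣ s ^ 2 ^ (k + 2) - 1 := by
    refine dvd_trans ⟨2 ^ k, ?_⟩ h1
    push_cast
    ring
  obtain ⟨n, hn⟩ : ∃ n, 2 ^ (k + 2) = n + 1 := ⟨2 ^ (k + 2) - 1, by
    have := Nat.pos_of_ne_zero (pow_ne_zero (k + 2) (by norm_num : (2 : ℕ) ≠ 0)); omega⟩
  set α : GaussianInt := z * s ^ n with hα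
  have h2 : α * s = z * s ^ 2 ^ (k + 2) := by rw [hα, hn, pow_succ]; ring
  obtain ⟨q, hq⟩ := h8
  have h3 : (8 : GaussianInt) ∣ ⟨1, 4⟩ - α := by
    refine ⟨⟨2, -2⟩ - (5 * (z * z) * q - 3 * α), ?_⟩
    have e1 : s ^ 2 ^ (k + 2) = 1 + 8 * q := by rw [← hq]; ring
    have e2 : α * 25 = 5 * (z * z) * (1 + 8 * q) := by
      have e25 : (25 : GaussianInt) = 5 * (z * s) := by rw [hzs]; norm_num
      rw [e25, ← e1]
      calc α * (5 * (z * s)) = 5 * z * (α * s) := by ring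
        _ = 5 * z * (z * s ^ 2 ^ (k + 2)) := by rw [h2]
        _ = _ := by ring
    have e3 : 5 * (z * z) = ⟨1, 4⟩ - 8 * ⟨2, -2⟩ := by decide
    linear_combination -e3 - e2
  have h4 : tt ∣ (⟨1, 4⟩ : GaussianInt) - 1 := ⟨⟨1, 1⟩, by decide⟩
  obtain ⟨h5, h6⟩ := hP.2.1 ⟨1, 4⟩ α h4 h3
  refine ⟨α, h5, ?_, ?_⟩
  · have e1 : α.norm = 5 ^ 2 ^ (k + 2) := by
      have hpow : ∀ m : ℕ, (s ^ m).norm = 5 ^ m := by
        intro m
        induction m with
        | zero => rw [pow_zero, pow_zero]; decide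
        | succ m ih =>
          rw [pow_succ, pow_succ, ← ih, Zsqrtd.norm_mul]
          rfl
      rw [hα, hn, pow_succ, ← hpow n, Zsqrtd.norm_mul]
      have : z.norm = 5 := by decide
      rw [this, mul_comm]
    rw [e1]
    have := dvd_sub_pow_of_dvd_sub (R := ℤ) (p := 2) (a := 5) (b := 1) (by norm_num) (k + 2)
    rw [one_pow] at this
    refine dvd_trans ⟨2, ?_⟩ this
    push_cast
    ring
  · refine mul_ne_zero hh ?_
    rw [← h6]
    decide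

theorem t_NTR2 (hQ : S_QRS) (hP : S_PAR2) : S_NTR2 := by
  intro k hk h j B hB hor
  rcases B.eq_empty_or_nonempty with hE | hE
  · subst hE
    have hh : h ≠ 0 := by
      rcases hor with h1 | h1
      · exact h1
      · exact absurd h1 (by simp)
    obtain ⟨α, h1, h2, h3⟩ := case_emp hP k h hh
    exact ⟨α, h1, h2, by simp, by simpa using h3⟩
  · exact case_ne hQ hP k h j B hB hE

end T2h16.TG.NTR2
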