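import Pool.Agent.T2h16.TG.Stm
import Pool.Agent.T3h73.TK.Num

/-! Task NUM2 -/

set_option autoImplicit false

open Filter Topology

namespace T2h16.TG.NUM2

open Pool.Agent.T3h73

theorem t_NUM2 : S_NUM2 := by
  unfold S_NUM2 T2h16.TG.Def2.kappa
  have hq0 : (0 : ℝ) ≤ 2⁻¹ := by norm_num
  have hq1 : (2 : ℝ)⁻¹ ≤ 1 / 2 := by norm_num
  have hlim := SD.KAP.hasProd hq0 hq1
  have e0 : ∀ i : ℕ, ((2 : ℝ) ^ (i + 1))⁻¹ = (2 : ℝ)⁻¹ ^ (i + 1) := fun i => (inv_pow _ _).symm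
  simp_rw [e0]
  have h1 : (0.41941 : ℝ) ≤ ∏' i : ℕ, (1 + (2 : ℝ)⁻¹ ^ (i + 1))⁻¹ := by
    refine ge_of_tendsto hlim ?_
    filter_upwards [eventually_ge_atTop 16] with n hn
    obtain ⟨m, rfl⟩ := Nat.exists_eq_add_of_le hn
    rw [Finset.prod_range_add]
    have h2 : (0.419428 : ℝ) ≤ ∏ i ∈ Finset.range 16, (1 + (2 : ℝ)⁻¹ ^ (i + 1))⁻¹ := by
      simp only [Finset.prod_range_succ, Finset.prod_range_zero]
      norm_num
    have h3 := TK.Num.tail (2 : ℝ)⁻¹ (by norm_num) m 16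
    have h4 := SD.KAP.geo_le hq0 hq1 m
    have h5 : ∑ i ∈ Finset.range m, (2 : ℝ)⁻¹ ^ (16 + i + 1) =
        (2 : ℝ)⁻¹ ^ 16 * ∑ i ∈ Finset.range m, (2 : ℝ)⁻¹ ^ (i + 1) := by
      rw [Finset.mul_sum]
      exact Finset.sum_congr rfl fun i _ => by ring
    have h6 : (0.99998 : ℝ) ≤ ∏ i ∈ Finset.range m, (1 + (2 : ℝ)⁻¹ ^ (16 + i + 1))⁻¹ := by
      refine le_trans ?_ h3
      rw [h5]
      have : (2 : ℝ)⁻¹ ^ 16 * ∑ i ∈ Finset.range m, (2 : ℝ)⁻¹ ^ (i + 1) ≤ (2 : ℝ)⁻¹ ^ 16 * 1 := by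
        refine mul_le_mul_of_nonneg_left (h4.trans ?_) (by positivity)
        norm_num
      norm_num at this ⊢
      linarith
    calc (0.41941 : ℝ) ≤ 0.419428 * 0.99998 := by norm_num
      _ ≤ _ := mul_le_mul h2 h6 (by norm_num) (le_trans (by norm_num) h2)
  linarith

end T2h16.TG.NUM2
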