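import Pool.Agent.T2h16.TG.Stm
import Pool.Agent.Y715.Rs

/-!
# Project TG, task QRS (helper67): the quadratic symbol modulo an odd Gaussian prime
-/

set_option autoImplicit false
set_option linter.all false

namespace T2h16.TG.QRS

open Q283.GA.St (sy)
open Pool.Agent.Y715.Rs

/-- squares in a finite field of odd characteristic -/
theorem sq_mul {F : Type} [Field F] [Fintype F] (hc : ringChar F ≠ 2) {a b : F} (ha : a ≠ 0)
    (hb : b ≠ 0) : IsSquare (a * b) ↔ (IsSquare a ↔ IsSquare b) := by
  have h11 : (-1 : F) ≠ 1 := Ring.neg_one_ne_one_of_char_ne_two hc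
  rw [FiniteField.isSquare_iff hc ha, FiniteField.isSquare_iff hc hb,
    FiniteField.isSquare_iff hc (mul_ne_zero ha hb), mul_pow]
  rcases FiniteField.pow_dichotomy hc ha with h1 | h1 <;>
    rcases FiniteField.pow_dichotomy hc hb with h2 | h2 <;> rw [h1, h2] <;> simp [h11]

theorem sy_zero {π x : GaussianInt} :
    sy π x = 0 ↔ IsSquare (Ideal.Quotient.mk (Ideal.span {π}) x) := by
  have h1 : sy π x = 0 ↔ ∃ y, π ∣ x - y ^ 2 := by
    unfold sy
    split_ifs with h
    · simp [h]
    · simp [h]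
  rw [h1]
  constructor
  · rintro ⟨y, hy⟩
    refine ⟨Ideal.Quotient.mk _ y, ?_⟩
    rw [← map_mul, ← sub_eq_zero, ← map_sub, Ideal.Quotient.eq_zero_iff_mem,
      Ideal.mem_span_singleton, ← pow_two]
    exact hy
  · rintro ⟨y, hy⟩
    obtain ⟨z, rfl⟩ := Ideal.Quotient.mk_surjective y
    refine ⟨z, ?_⟩
    rw [← map_mul, ← sub_eq_zero, ← map_sub, Ideal.Quotient.eq_zero_iff_mem,
      Ideal.mem_span_singleton, ← pow_two] at hy
    exact hy

theorem sy_eq {a b : ZMod 2} (h : a = 0 ↔ b = 0) : a = b := by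
  revert h
  revert a b
  decide

theorem t_QRS : S_QRS := by
  intro π hπ h2
  have hmax : (Ideal.span {π}).IsMaximal :=
    PrincipalIdealRing.isMaximal_of_irreducible hπ.irreducible
  letI : Field (GaussianInt ⧸ Ideal.span {π}) := Ideal.Quotient.field _
  letI : Fintype (GaussianInt ⧸ Ideal.span {π}) := @Fintype.ofFinite _ (fin_quo hπ.ne_zero)
  have hmk : ∀ x : GaussianInt, Ideal.Quotient.mk (Ideal.span {π}) x = 0 ↔ π ∣ x := fun x => by
    rw [Ideal.Quotient.eq_zero_iff_mem, Ideal.mem_span_singleton]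
  have hc : ringChar (GaussianInt ⧸ Ideal.span {π}) ≠ 2 := by
    intro h
    have h3 := ringChar.Nat.cast_ringChar (R := GaussianInt ⧸ Ideal.span {π})
    rw [h] at h3
    apply h2
    rw [← hmk]
    have h4 : Ideal.Quotient.mk (Ideal.span {π}) (2 : GaussianInt) =
        ((2 : ℕ) : GaussianInt ⧸ Ideal.span {π}) := by
      exact map_natCast (Ideal.Quotient.mk (Ideal.span {π})) 2
    rw [h4]
    exact h3
  refine ⟨?_, ?_, ?_, ?_⟩
  · intro x y hxy
    refine sy_eq ?_
    have h3 : Ideal.Quotient.mk (Ideal.span {π}) x = Ideal.Quotient.mk (Ideal.span {π}) y := by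
      rw [← sub_eq_zero, ← map_sub, hmk]
      exact hxy
    rw [sy_zero, sy_zero, h3]
  · intro x y hx hy
    have h3 := sq_mul hc (fun h => hx ((hmk x).1 h)) (fun h => hy ((hmk y).1 h))
    rw [← map_mul, ← sy_zero, ← sy_zero, ← sy_zero] at h3
    generalize sy π (x * y) = a at *
    generalize sy π x = b at *
    generalize sy π y = c at *
    revert h3
    revert a b c
    decide
  · obtain ⟨a, ha⟩ := FiniteField.exists_nonsquare hc
    obtain ⟨x, rfl⟩ := Ideal.Quotient.mk_surjective a
    refine ⟨x, ?_, ?_⟩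
    · intro h
      rw [← hmk] at h
      apply ha
      rw [h]
      exact IsSquare.zero
    · rw [Ne, sy_zero]
      exact ha
  · rw [sy_zero, map_one]
    exact IsSquare.one

end T2h16.TG.QRS
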