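import Pool.Agent.T2h16.TG.Stm
import Pool.Agent.Y715.Rec

/-!
# Quadratic reciprocity for all primary Gaussian primes
-/

set_option autoImplicit false
set_option linter.unusedSectionVars false

namespace T2h16.TG.REC2

open Pool.Agent.Y715.Rs Pool.Agent.Y715.Qr
open Pool.Agent.Y715.Rec (norm_eq exists_rat unit_cases split_iso split_dvd split_int split_cop split_im_ne
  split_not_dvd_im)

open scoped NumberTheorySymbols

/-- primary primes -/
structure Pm (π : GaussianInt) : Prop where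
  prime : Prime π
  re : (2 : ℤ) ∣ π.re - 1
  im : (2 : ℤ) ∣ π.im
  sum : (4 : ℤ) ∣ π.re - 1 + π.im

variable {π : GaussianInt}

lemma Pm.norm4 (h : Pm π) : (4 : ℤ) ∣ π.norm - 1 := by
  obtain ⟨a, ha⟩ := h.re
  obtain ⟨b, hb⟩ := h.im
  rw [norm_eq, hb]
  have : π.re = 2 * a + 1 := by linarith
  rw [this]
  exact ⟨a ^ 2 + a + b ^ 2, by ring⟩

lemma Pm.norm2 (h : Pm π) : (2 : ℤ) ∣ π.norm - 1 := dvd_trans (by norm_num) h.norm4

/-- split and inert primes -/
lemma Pm.cases (h : Pm π) : (∃ p : ℕ, p.Prime ∧ p % 4 = 1 ∧ π.norm = p) ∨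
    (∃ q : ℕ, q.Prime ∧ q % 4 = 3 ∧ π.re = -q ∧ π.im = 0) := by
  obtain ⟨l, hl, w, hw⟩ := exists_rat h.prime
  have hn : π.norm * w.norm = l * l := by
    rw [← Zsqrtd.norm_mul, ← hw, Zsqrtd.norm_natCast]
  have hn' : π.norm.natAbs * w.norm.natAbs = l ^ 2 := by
    rw [← Int.natAbs_mul, hn, Int.natAbs_mul, Int.natAbs_natCast, pow_two]
  have hN1 : π.norm.natAbs ≠ 1 := fun h0 => h.prime.not_isUnit (Zsqrtd.norm_eq_one_iff.1 h0)
  have hnn : ((π.norm.natAbs : ℕ) : ℤ) = π.norm := Int.natAbs_of_nonneg (GaussianInt.norm_nonneg π)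
  obtain ⟨e, he, hπe⟩ := (Nat.dvd_prime_pow hl).1 (⟨_, hn'.symm⟩ : π.norm.natAbs ∣ l ^ 2)
  rcases (by omega : e = 0 ∨ e = 1 ∨ e = 2) with rfl | rfl | rfl
  · exact absurd hπe hN1
  · left
    rw [pow_one] at hπe
    refine ⟨l, hl, ?_, by rw [← hnn, hπe]⟩
    have := h.norm4
    rw [← hnn, hπe] at this
    omega
  · right
    have hw1 : w.norm.natAbs = 1 := by
      rw [hπe] at hn'
      have : 0 < l ^ 2 := pow_pos hl.pos 2
      exact Nat.eq_of_mul_eq_mul_left this (by rw [hn', mul_one])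
    have hwu : IsUnit w := Zsqrtd.norm_eq_one_iff.1 hw1
    have hre := congrArg Zsqrtd.re hw
    have him := congrArg Zsqrtd.im hw
    rw [Zsqrtd.re_mul] at hre
    rw [Zsqrtd.im_mul] at him
    simp only [Zsqrtd.re_natCast, Zsqrtd.im_natCast] at hre him
    have h1 := h.re
    have h2 := h.im
    have h3' := h.sum
    have hass : Associated π (l : GaussianInt) := ⟨hwu.unit, hw.symm⟩
    have hpl : Prime (l : GaussianInt) := hass.prime_iff.1 h.prime
    have : Fact l.Prime := ⟨hl⟩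
    have hl4 : l % 4 = 3 := (GaussianInt.prime_iff_mod_four_eq_three_of_nat_prime l).1 hpl
    have hq : π.im = 0 ∧ (π.re = l ∨ π.re = -l) := by
      rcases unit_cases hwu with ⟨h3, h4 | h4⟩ | ⟨h3, h4 | h4⟩
      · rw [h3, h4] at hre him
        omega
      · rw [h3, h4] at hre him
        omega
      · rw [h3, h4] at hre him
        omega
      · rw [h3, h4] at hre him
        omega
    refine ⟨l, hl, hl4, ?_, hq.1⟩
    rcases hq.2 with h5 | h5
    · have := hq.1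
      omega
    · exact h5

/-! ### The symbol -/

section

lemma char_ne' (hπ : Prime π) (h2 : (2 : ℤ) ∣ π.norm - 1) : letI := fld hπ; ringChar (FF π) ≠ 2 := by
  let _ := fld hπ
  let _ := ftp hπ
  intro h
  have h1 : (Fintype.card (FF π) : ℤ) = π.norm := card_FF hπ
  have h2 := FiniteField.even_card_of_char_two h
  have h3 : Fintype.card (FF π) % 2 = 0 := h2
  omega

lemma euler' (hπ : Prime π) (h2 : (2 : ℤ) ∣ π.norm - 1) {x : GaussianInt} (hx : ¬ π ∣ x) :
    letI := ftp hπ;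
    Sqm π x ↔ (Ideal.Quotient.mk (Ideal.span {π}) x) ^ (Fintype.card (FF π) / 2) = 1 := by
  let _ := fld hπ
  let _ := ftp hπ
  have h0 : (Ideal.Quotient.mk (Ideal.span {π}) x) ≠ 0 := fun h => hx ((mk_eq_zero x).1 h)
  rw [sqm_iff]
  exact FiniteField.isSquare_iff (char_ne' hπ h2) h0

/-- multiplication with the square of a nonzero class -/
lemma sqm_sq (hπ : Prime π) {b x : GaussianInt} (hb : ¬ π ∣ b) :
    Sqm π (b * (b * x)) ↔ Sqm π x := by
  let _ := fld hπ
  have h0 : (Ideal.Quotient.mk (Ideal.span {π}) b) ≠ 0 := fun h => hb ((mk_eq_zero b).1 h)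
  rw [sqm_iff, sqm_iff, map_mul, map_mul]
  set B := Ideal.Quotient.mk (Ideal.span {π}) b
  set X := Ideal.Quotient.mk (Ideal.span {π}) x
  constructor
  · rintro ⟨y, hy⟩
    refine ⟨B⁻¹ * y, ?_⟩
    have h1 : B⁻¹ * y * (B⁻¹ * y) = B⁻¹ * B⁻¹ * (y * y) := by ring
    rw [h1, ← hy]
    field_simp
  · rintro ⟨y, hy⟩
    exact ⟨B * y, by rw [hy]; ring⟩

end

/-! ### Split primes -/

section split

variable {p : ℕ} [hp : Fact p.Prime]

lemma jac_two (hp4 : p % 4 = 1) {n : ℤ} {s n' : ℕ} (ho : Odd n') (h : n.natAbs = 2 ^ s * n') :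
    J(n | p) = J(2 | p) ^ s * J(p | n') := by
  have hpo : Odd p := Nat.odd_iff.2 (by omega)
  have h1 : J(n | p) = J((n.natAbs : ℤ) | p) := by
    rcases Int.natAbs_eq n with h2 | h2
    · conv_lhs => rw [h2]
    · conv_lhs => rw [h2]
      rw [jacobiSym.neg _ hpo, ZMod.χ₄_nat_one_mod_four hp4, one_mul]
  rw [h1, h]
  push_cast
  rw [jacobiSym.mul_left, jacobiSym.pow_left,
    jacobiSym.quadratic_reciprocity_one_mod_four' ho hp4]

lemma two_one (hp8 : p % 8 = 1) : J(2 | p) = 1 := by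
  rw [jacobiSym.at_two (Nat.odd_iff.2 (by omega)), ZMod.χ₈_nat_eq_if_mod_eight]
  have h3 : ¬ p % 2 = 0 := by omega
  rw [if_neg h3, if_pos (Or.inl hp8)]

lemma two_five (hp8 : p % 8 = 5) : J(2 | p) = -1 := by
  rw [jacobiSym.at_two (Nat.odd_iff.2 (by omega)), ZMod.χ₈_nat_eq_if_mod_eight]
  have h3 : ¬ p % 2 = 0 := by omega
  have h4 : ¬ (p % 8 = 1 ∨ p % 8 = 7) := by omega
  rw [if_neg h3, if_neg h4]

variable (hπ : Prime π) (hn : π.norm = p)

include hπ hn

lemma im_symb' (hp4 : p % 4 = 1) {s b : ℕ} (hb : Odd b) (e : π.im.natAbs = 2 ^ s * b) :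
    J(π.im | p) = J(2 | p) ^ s := by
  rw [jac_two hp4 hb e]
  have hbd : (b : ℤ) ∣ π.im := by
    rw [← Int.dvd_natAbs, e]
    push_cast
    exact Dvd.intro_left _ rfl
  have h1 : J(p | b) = J(π.re ^ 2 | b) := by
    apply jacobiSym.mod_left'
    apply Int.ModEq.eq
    apply (Int.modEq_iff_dvd).2
    rw [← hn, norm_eq]
    have : π.re ^ 2 - (π.re ^ 2 + π.im ^ 2) = -(π.im ^ 2) := by ring
    rw [this]
    exact (dvd_neg.2 (Dvd.dvd.pow hbd two_ne_zero))
  have h2 : J(π.re ^ 2 | b) = 1 := by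
    apply jacobiSym.sq_one'
    have h2 := split_cop hπ hn
    refine Nat.eq_one_of_dvd_one ?_
    rw [← h2]
    exact Nat.dvd_gcd (Int.gcd_dvd_natAbs_left ..) ((Int.gcd_dvd_natAbs_right ..).trans
      (Int.natAbs_dvd_natAbs.2 hbd))
  rw [h1, h2, mul_one]

/-- the symbol of a Gaussian integer modulo a split prime -/
lemma split_symb' {x : GaussianInt} (hx : ¬ π ∣ x) :
    ¬ (p : ℤ) ∣ π.im * x.re - π.re * x.im ∧
      (Sqm π x ↔ J(π.im | p) * J(π.im * x.re - π.re * x.im | p) = 1) := by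
  have hb : ¬ π ∣ (π.im : GaussianInt) := fun h => split_not_dvd_im hπ hn ((split_dvd hπ hn _).1 h)
  have hbx : ¬ π ∣ (π.im : GaussianInt) * x := fun h => (hπ.dvd_or_dvd h).elim hb hx
  have e : (π.im : GaussianInt) * x - ((π.im * x.re - π.re * x.im : ℤ) : GaussianInt) =
      π * x.im := by
    ext
    · simp [Zsqrtd.re_mul]
    · simp [Zsqrtd.im_mul]
  have hm : ¬ π ∣ ((π.im * x.re - π.re * x.im : ℤ) : GaussianInt) := by
    intro h
    apply hbx
    have : (π.im : GaussianInt) * x = π * x.im + ((π.im * x.re - π.re * x.im : ℤ) : GaussianInt) := by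
      rw [← e]; ring
    rw [this]
    exact dvd_add (Dvd.intro _ rfl) h
  have hpm : ¬ (p : ℤ) ∣ π.im * x.re - π.re * x.im := fun h => hm ((split_dvd hπ hn _).2 h)
  refine ⟨hpm, ?_⟩
  set m : ℤ := π.im * x.re - π.re * x.im with hmdef
  have hbm : ¬ (p : ℤ) ∣ π.im * m := by
    have hpp : Prime (p : ℤ) := Nat.prime_iff_prime_int.1 hp.out
    exact fun h => (hpp.dvd_or_dvd h).elim (split_not_dvd_im hπ hn) hpm
  rw [← jacobiSym.mul_left, ← split_int hπ hn hbm, ← sqm_sq hπ hb]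
  -- the difference is a multiple of the prime
  have e2 : (π.im : GaussianInt) * ((π.im : GaussianInt) * x) - ((π.im * m : ℤ) : GaussianInt) =
      π * ((π.im : GaussianInt) * x.im) := by
    have : (π.im : GaussianInt) * ((π.im : GaussianInt) * x) - ((π.im * m : ℤ) : GaussianInt) =
      (π.im : GaussianInt) * ((π.im : GaussianInt) * x - (m : GaussianInt)) := by
      push_cast
      ring
    rw [this, e]
    ring
  constructor
  · rintro ⟨y, hy⟩
    refine ⟨y, ?_⟩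
    have : ((π.im * m : ℤ) : GaussianInt) - y ^ 2 =
        ((π.im : GaussianInt) * ((π.im : GaussianInt) * x) - y ^ 2) - π * ((π.im : GaussianInt) * x.im) := by
      rw [← e2]; ring
    rw [this]
    exact dvd_sub hy (Dvd.intro _ rfl)
  · rintro ⟨y, hy⟩
    refine ⟨y, ?_⟩
    have : (π.im : GaussianInt) * ((π.im : GaussianInt) * x) - y ^ 2 =
        (((π.im * m : ℤ) : GaussianInt) - y ^ 2) + π * ((π.im : GaussianInt) * x.im) := by
      rw [← e2]; ring
    rw [this]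
    exact dvd_add hy (Dvd.intro _ rfl)

end split

/-! ### Inert primes -/

section inert

variable {q : ℕ} [hq : Fact q.Prime] (hπ : Pm π) (hre : π.re = -q) (him : π.im = 0)
  (hq4 : q % 4 = 3)

include hπ hre him hq4

lemma inert_norm : π.norm = (q : ℤ) ^ 2 := by
  rw [norm_eq, hre, him]
  ring

lemma inert_eq : π = ((-q : ℤ) : GaussianInt) := by
  ext
  · rw [hre]; simp
  · rw [him]; simp

lemma inert_symb {x : GaussianInt} (hx : ¬ π ∣ x) :
    ¬ (q : ℤ) ∣ x.norm ∧ (Sqm π x ↔ J(x.norm | q) = 1) := by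
  have hqn : ¬ (q : ℤ) ∣ x.norm := by
    intro h
    have h1 : π ∣ x * star x := by
      rw [← Zsqrtd.norm_eq_mul_conj]
      obtain ⟨m, hm⟩ := h
      rw [hm, inert_eq hπ hre him hq4]
      push_cast
      rw [neg_dvd]
      exact Dvd.intro _ rfl
    rcases hπ.prime.dvd_or_dvd h1 with h2 | h2
    · exact hx h2
    · apply hx
      obtain ⟨w, hw⟩ := h2
      refine ⟨star w, ?_⟩
      have h3 := congrArg star hw
      rw [star_star, star_mul, mul_comm] at h3
      rw [h3]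
      congr 1
      ext
      · simp
      · simp [him]
  refine ⟨hqn, ?_⟩
  let _ := fld hπ.prime
  let _ := ftp hπ.prime
  have hc : Fintype.card (FF π) = q ^ 2 := by
    have := card_FF hπ.prime
    rw [inert_norm hπ hre him hq4] at this
    exact_mod_cast this
  have hq0 : ((q : ℕ) : FF π) = 0 := by
    have h1 : ((q : ℕ) : FF π) = Ideal.Quotient.mk (Ideal.span {π}) (q : GaussianInt) := by
      rw [map_natCast]
    rw [h1, mk_eq_zero, inert_eq hπ hre him hq4]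
    push_cast
    rw [neg_dvd]
  have hch : ringChar (FF π) = q := CharP.ringChar_of_prime_eq_zero hq.out hq0
  have hcp : CharP (FF π) q := ringChar.of_eq hch
  let f : ZMod q →+* FF π := ZMod.castHom (dvd_refl q) (FF π)
  have hfi : Function.Injective f := f.injective
  have hfint : ∀ n : ℤ, f (n : ZMod q) = Ideal.Quotient.mk (Ideal.span {π}) (n : GaussianInt) := by
    intro n
    rw [map_intCast, map_intCast]
  have hfrob : ∀ n : ℤ, (Ideal.Quotient.mk (Ideal.span {π}) (n : GaussianInt)) ^ q =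
      Ideal.Quotient.mk (Ideal.span {π}) (n : GaussianInt) := by
    intro n
    rw [← hfint, ← map_pow, ZMod.pow_card]
  set i : FF π := Ideal.Quotient.mk (Ideal.span {π}) ⟨0, 1⟩ with hi
  have hi2 : i ^ 2 = -1 := by
    rw [hi, ← map_pow, ← map_one (Ideal.Quotient.mk (Ideal.span {π})), ← map_neg]
    congr 1
  have hi4 : i ^ 4 = 1 := by
    have : i ^ 4 = (i ^ 2) ^ 2 := by ring
    rw [this, hi2]
    ring
  have hiq : i ^ q = -i := by
    obtain ⟨m, hm⟩ : ∃ m, q = 4 * m + 3 := ⟨q / 4, by omega⟩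
    rw [hm, pow_add, pow_mul, hi4, one_pow, one_mul]
    have : i ^ 3 = i ^ 2 * i := by ring
    rw [this, hi2]
    ring
  have hxe : Ideal.Quotient.mk (Ideal.span {π}) x =
      Ideal.Quotient.mk (Ideal.span {π}) (x.re : GaussianInt) +
      Ideal.Quotient.mk (Ideal.span {π}) (x.im : GaussianInt) * i := by
    rw [hi, ← map_mul, ← map_add]
    congr 1
    ext
    · simp [Zsqrtd.re_mul]
    · simp [Zsqrtd.im_mul]
  have hpow : (Ideal.Quotient.mk (Ideal.span {π}) x) ^ (q + 1) = f (x.norm : ZMod q) := by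
    rw [pow_succ, hxe, add_pow_char, mul_pow, hfrob, hfrob, hiq, hfint, norm_eq]
    push_cast
    rw [map_add, map_pow, map_pow]
    linear_combination (-(Ideal.Quotient.mk (Ideal.span {π}) (x.im : GaussianInt)) ^ 2) * hi2
  have hcard : Fintype.card (FF π) / 2 = (q + 1) * (q / 2) := by
    rw [hc]
    obtain ⟨m, hm⟩ : ∃ m, q = 2 * m + 1 := ⟨q / 2, by omega⟩
    have h1 : q / 2 = m := by omega
    rw [h1, hm]
    have h2 : (2 * m + 1) ^ 2 = 2 * ((2 * m + 1 + 1) * m) + 1 := by ring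
    rw [h2]
    omega
  have hz : (x.norm : ZMod q) ≠ 0 := by
    rwa [Ne, ZMod.intCast_zmod_eq_zero_iff_dvd]
  rw [euler' hπ.prime hπ.norm2 hx, ← jacobiSym.legendreSym.to_jacobiSym, legendreSym.eq_one_iff q hz,
    ZMod.euler_criterion q hz]
  have h1 : (Ideal.Quotient.mk (Ideal.span {π}) x) ^ (Fintype.card (FF π) / 2) =
      f ((x.norm : ZMod q) ^ (q / 2)) := by
    rw [hcard, pow_mul, hpow, map_pow]
  constructor
  · intro h
    have h2 : (Ideal.Quotient.mk (Ideal.span {π}) x) ^ (Fintype.card (FF π) / 2) = 1 := h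
    rw [h1] at h2
    apply hfi
    rw [h2, map_one]
  · intro h
    show (Ideal.Quotient.mk (Ideal.span {π}) x) ^ (Fintype.card (FF π) / 2) = 1
    rw [h1, h, map_one]

end inert

/-! ### Reciprocity -/

lemma not_dvd {π ρ : GaussianInt} (hπ : Pm π) (hρ : Pm ρ) (hne : π ≠ ρ) : ¬ π ∣ ρ := by
  intro h
  obtain ⟨u, hu⟩ := (hπ.prime.dvd_prime_iff_associated hρ.prime).1 h
  apply hne
  have hre := congrArg Zsqrtd.re hu
  have him := congrArg Zsqrtd.im hu
  rw [Zsqrtd.re_mul] at hre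
  rw [Zsqrtd.im_mul] at him
  have h1 := hπ.re
  have h2 := hπ.im
  have h3 := hρ.re
  have h4 := hρ.im
  have h1' := hπ.sum
  have h3' := hρ.sum
  rcases unit_cases u.isUnit with ⟨h5, h6 | h6⟩ | ⟨h5, h6 | h6⟩
  · rw [h5, h6] at hre him
    omega
  · rw [h5, h6] at hre him
    omega
  · rw [h5, h6] at hre him
    ext
    · omega
    · omega
  · rw [h5, h6] at hre him
    omega

/-- squares modulo eight -/
lemma norm8 {π : GaussianInt} (hπ : Pm π) : ((8 : ℤ) ∣ π.norm - 1 ∧ (4 : ℤ) ∣ π.im) ∨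
    ((8 : ℤ) ∣ π.norm - 5 ∧ (4 : ℤ) ∣ π.im - 2) := by
  obtain ⟨a, ha⟩ := hπ.re
  obtain ⟨b, hb⟩ := hπ.im
  have ha' : π.re = 2 * a + 1 := by linarith
  obtain ⟨c, hc⟩ : ∃ c, a * (a + 1) = 2 * c := by
    have := Int.even_mul_succ_self a
    obtain ⟨c, hc⟩ := this
    exact ⟨c, by rw [hc]; ring⟩
  have e : π.norm = 8 * c + 1 + 4 * b ^ 2 := by
    rw [norm_eq, ha', hb]
    have : (2 * a + 1) ^ 2 = 4 * (a * (a + 1)) + 1 := by ring
    rw [this, hc]
    ring
  rcases Int.even_or_odd b with ⟨d, hd⟩ | ⟨d, hd⟩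
  · left
    refine ⟨⟨c + 2 * d ^ 2, ?_⟩, ⟨d, ?_⟩⟩
    · rw [e, hd]; ring
    · rw [hb, hd]; ring
  · right
    refine ⟨⟨c + 2 * d ^ 2 + 2 * d, ?_⟩, ⟨d, ?_⟩⟩
    · rw [e, hd]; ring
    · rw [hb, hd]; ring

/-- the exponent of two in a number which is `2` modulo `4` -/
lemma exp_one {m : ℤ} {s n' : ℕ} (hn : Odd n') (e : m.natAbs = 2 ^ s * n') (h : (4 : ℤ) ∣ m - 2) :
    s = 1 := by
  have hm : m.natAbs % 4 = 2 := by omega
  rcases s with _ | _ | s
  · rw [pow_zero, one_mul] at e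
    have := Nat.odd_iff.1 hn
    omega
  · rfl
  · exfalso
    have : 4 ∣ m.natAbs := by
      rw [e, show s + 1 + 1 = 2 + s by ring, pow_add, mul_assoc]
      exact Dvd.intro _ rfl
    omega

lemma recip_ss {π ρ : GaussianInt} (hπ : Pm π) (hρ : Pm ρ) (hne : π ≠ ρ) {p r : ℕ}
    [hp : Fact p.Prime] [hr : Fact r.Prime] (hp4 : p % 4 = 1) (hr4 : r % 4 = 1)
    (hpn : π.norm = p) (hrn : ρ.norm = r) : qs π ρ = qs ρ π := by
  obtain ⟨h1, h2⟩ := split_symb' hπ.prime hpn (not_dvd hπ hρ hne)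
  obtain ⟨h3, h4⟩ := split_symb' hρ.prime hrn (not_dvd hρ hπ hne.symm)
  set m := π.im * ρ.re - π.re * ρ.im with hm
  have hm' : ρ.im * π.re - ρ.re * π.im = -m := by rw [hm]; ring
  rw [hm'] at h3 h4
  have hm0 : m ≠ 0 := by
    rintro h0
    rw [h0] at h1
    exact h1 (dvd_zero _)
  obtain ⟨s, n', hn', e⟩ := Nat.exists_eq_two_pow_mul_odd (n := m.natAbs) (Int.natAbs_ne_zero.2 hm0)
  obtain ⟨s1, b1, hb1, e1⟩ := Nat.exists_eq_two_pow_mul_odd (n := π.im.natAbs)
    (Int.natAbs_ne_zero.2 (split_im_ne hπ.prime hpn))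
  obtain ⟨s2, b2, hb2, e2⟩ := Nat.exists_eq_two_pow_mul_odd (n := ρ.im.natAbs)
    (Int.natAbs_ne_zero.2 (split_im_ne hρ.prime hrn))
  apply qs_eq
  rw [h2, h4, jac_two (n := m) hp4 hn' e,
    jac_two (n := -m) hr4 hn' (by rw [Int.natAbs_neg]; exact e),
    im_symb' hπ.prime hpn hp4 hb1 e1, im_symb' hρ.prime hrn hr4 hb2 e2]
  -- the product of the symbols
  have hnd : (n' : ℤ) ∣ m := by
    rw [← Int.dvd_natAbs, e]
    push_cast
    exact Dvd.intro_left _ rfl
  set w := π.re * ρ.re + π.im * ρ.im with hw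
  have hprod : (p : ℤ) * r = w ^ 2 + m ^ 2 := by
    rw [← hpn, ← hrn, norm_eq, norm_eq, hw, hm]
    ring
  have hcop : w.gcd n' = 1 := by
    by_contra hcon
    obtain ⟨l, hl, hd⟩ := Nat.exists_prime_and_dvd hcon
    have g1 : (l : ℤ) ∣ w := (Int.natCast_dvd_natCast.2 hd).trans (Int.gcd_dvd_left ..)
    have g2 : (l : ℤ) ∣ m := ((Int.natCast_dvd_natCast.2 hd).trans (Int.gcd_dvd_right ..)).trans hnd
    have g3 : (l : ℤ) ∣ (p : ℤ) * r := by
      rw [hprod]
      exact dvd_add (Dvd.dvd.pow g1 two_ne_zero) (Dvd.dvd.pow g2 two_ne_zero)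
    have hlp : Prime (l : ℤ) := Nat.prime_iff_prime_int.1 hl
    rcases hlp.dvd_or_dvd g3 with g4 | g4
    · have g5 : l = p := (Nat.prime_dvd_prime_iff_eq hl hp.out).1 (Int.natCast_dvd_natCast.1 g4)
      rw [g5] at g2
      exact h1 g2
    · have g5 : l = r := (Nat.prime_dvd_prime_iff_eq hl hr.out).1 (Int.natCast_dvd_natCast.1 g4)
      rw [g5] at g2
      exact h3 ((dvd_neg).2 g2)
  have h5 : J(p | n') * J(r | n') = 1 := by
    rw [← jacobiSym.mul_left, ← jacobiSym.sq_one' hcop]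
    apply jacobiSym.mod_left'
    apply Int.ModEq.eq
    apply (Int.modEq_iff_dvd).2
    have : w ^ 2 - (p : ℤ) * r = -(m ^ 2) := by rw [hprod]; ring
    rw [this]
    exact (dvd_neg.2 (Dvd.dvd.pow hnd two_ne_zero))
  have hA := norm8 hπ
  have hB := norm8 hρ
  rw [hpn] at hA
  rw [hrn] at hB
  have hπ1 := hπ.re
  have hρ1 := hρ.re
  have h6' : J(p | n') = J(r | n') := by
    rcases jacobiSym.trichotomy p n' with h6 | h6 | h6 <;>
    rcases jacobiSym.trichotomy r n' with h7 | h7 | h7 <;> rw [h6, h7] at h5 <;> norm_num at h5 <;>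
      simp [h6, h7]
  rw [h6']
  rcases hA with ⟨hA1, hA2⟩ | ⟨hA1, hA2⟩ <;> rcases hB with ⟨hB1, hB2⟩ | ⟨hB1, hB2⟩
  · rw [two_one (p := p) (by omega), two_one (p := r) (by omega)]
    simp
  · have hs2 : s2 = 1 := exp_one hb2 e2 hB2
    have hs : s = 1 := by
      apply exp_one hn' e
      obtain ⟨x, hx⟩ := hA2
      obtain ⟨y, hy⟩ := hB2
      obtain ⟨z, hz⟩ := hπ1
      have hx' : ρ.im = 4 * y + 2 := by linarith
      have hz' : π.re = 2 * z + 1 := by linarith
      refine ⟨x * ρ.re - 2 * z * y - z - y - 1, ?_⟩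
      rw [hm, hx, hx', hz']
      ring
    rw [hs, hs2, two_one (p := p) (by omega), two_five (p := r) (by omega)]
    simp
  · have hs1 : s1 = 1 := exp_one hb1 e1 hA2
    have hs : s = 1 := by
      apply exp_one hn' e
      obtain ⟨x, hx⟩ := hA2
      obtain ⟨y, hy⟩ := hB2
      obtain ⟨z, hz⟩ := hρ1
      have hx' : π.im = 4 * x + 2 := by linarith
      have hz' : ρ.re = 2 * z + 1 := by linarith
      refine ⟨2 * x * z + x + z - π.re * y, ?_⟩
      rw [hm, hy, hx', hz']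
      ring
    rw [hs, hs1, two_one (p := r) (by omega), two_five (p := p) (by omega)]
    simp
  · have hs1 : s1 = 1 := exp_one hb1 e1 hA2
    have hs2 : s2 = 1 := exp_one hb2 e2 hB2
    rw [hs1, hs2, two_five (p := p) (by omega), two_five (p := r) (by omega)]

lemma recip_is {π ρ : GaussianInt} (hπ : Pm π) (hρ : Pm ρ) (hne : π ≠ ρ) {q r : ℕ}
    [hq : Fact q.Prime] [hr : Fact r.Prime] (hq4 : q % 4 = 3) (hre : π.re = -q)
    (him : π.im = 0) (hr4 : r % 4 = 1) (hrn : ρ.norm = r) : qs π ρ = qs ρ π := by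
  obtain ⟨h1, h2⟩ := inert_symb hπ hre him hq4 (not_dvd hπ hρ hne)
  have hqr : ¬ (r : ℤ) ∣ -q := by
    intro h
    rw [dvd_neg] at h
    have h3 : r = q := (Nat.prime_dvd_prime_iff_eq hr.out hq.out).1 (Int.natCast_dvd_natCast.1 h)
    omega
  apply qs_eq
  rw [h2, hrn, inert_eq hπ hre him hq4, split_int hρ.prime hrn hqr,
    jacobiSym.neg _ (Nat.odd_iff.2 (by omega)), ZMod.χ₄_nat_one_mod_four (by omega), one_mul,
    jacobiSym.quadratic_reciprocity_one_mod_four' (a := q) (b := r) (Nat.odd_iff.2 (by omega))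
      (by omega)]

lemma recip_ii {π ρ : GaussianInt} (hπ : Pm π) (hρ : Pm ρ) (hne : π ≠ ρ) {q r : ℕ}
    [hq : Fact q.Prime] [hr : Fact r.Prime] (hq4 : q % 4 = 3) (hre : π.re = -q)
    (him : π.im = 0) (hr4 : r % 4 = 3) (hre' : ρ.re = -r) (him' : ρ.im = 0) : qs π ρ = 0 := by
  obtain ⟨h1, h2⟩ := inert_symb hπ hre him hq4 (not_dvd hπ hρ hne)
  rw [qs_zero, h2, inert_norm hρ hre' him' hr4]
  apply jacobiSym.sq_one'
  rw [inert_norm hρ hre' him' hr4] at h1
  have h3 : ¬ q ∣ r := by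
    intro h
    apply h1
    exact Dvd.dvd.pow (Int.natCast_dvd_natCast.2 h) two_ne_zero
  rw [Int.gcd_natCast_natCast]
  exact ((Nat.Prime.coprime_iff_not_dvd hq.out).2 h3).symm

/-- **Quadratic reciprocity.** -/
theorem recip {π ρ : GaussianInt} (hπ : Pm π) (hρ : Pm ρ) (hne : π ≠ ρ) : qs π ρ = qs ρ π := by
  rcases hπ.cases with ⟨p, hp, hp8, hpn⟩ | ⟨q, hq, hq16, hre, him⟩
  · have : Fact p.Prime := ⟨hp⟩
    rcases hρ.cases with ⟨r, hr, hr8, hrn⟩ | ⟨r, hr, hr16, hre', him'⟩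
    · have : Fact r.Prime := ⟨hr⟩
      exact recip_ss hπ hρ hne hp8 hr8 hpn hrn
    · have : Fact r.Prime := ⟨hr⟩
      exact (recip_is hρ hπ hne.symm hr16 hre' him' hp8 hpn).symm
  · have : Fact q.Prime := ⟨hq⟩
    rcases hρ.cases with ⟨r, hr, hr8, hrn⟩ | ⟨r, hr, hr16, hre', him'⟩
    · have : Fact r.Prime := ⟨hr⟩
      exact recip_is hπ hρ hne hq16 hre him hr8 hrn
    · have : Fact r.Prime := ⟨hr⟩
      rw [recip_ii hπ hρ hne hq16 hre him hr16 hre' him',
        recip_ii hρ hπ hne.symm hr16 hre' him' hq16 hre him]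

lemma sy_qs (π x : GaussianInt) : Q283.GA.St.sy π x = qs π x := by
  unfold Q283.GA.St.sy qs Sqm
  split_ifs <;> rfl

lemma pm_of {π : GaussianInt} (h : Pp π) : Pm π := by
  obtain ⟨h1, w, hw⟩ := h
  have hre := congrArg Zsqrtd.re hw
  have him := congrArg Zsqrtd.im hw
  have e1 : π.re - 1 = 2 * w.re - 2 * w.im := by
    have : (tt * w).re = 2 * w.re - 2 * w.im := by
      rw [Zsqrtd.re_mul]
      show 2 * w.re + -1 * 2 * w.im = _
      ring
    rw [← this, ← hw]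
    simp
  have e2 : π.im = 2 * w.im + 2 * w.re := by
    have : (tt * w).im = 2 * w.im + 2 * w.re := by
      rw [Zsqrtd.im_mul]
      rfl
    rw [← this, ← hw]
    simp
  exact ⟨h1, ⟨w.re - w.im, by linarith⟩, ⟨w.im + w.re, by linarith⟩, ⟨w.re, by linarith⟩⟩

/-- REC2: quadratic reciprocity for all primary primes -/
theorem t_REC2 : S_REC2 := fun π ρ hπ hρ hne => by
  rw [sy_qs, sy_qs]
  exact recip (pm_of hπ) (pm_of hρ) hne

end T2h16.TG.REC2
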