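import Pool.Agent.T2h16.TG.Stm

/-! Task SYS2 of project TG: the system of symbols over the Gaussian integers. -/

set_option autoImplicit false
set_option linter.all false

open NumberField IsDedekindDomain Filter Topology

namespace T2h16.TG.SYS2

open Pool.Agent.T3h73.SL (Pl)
open Pool.Agent.Y773.G (IsModChar)
open Pool.Agent.T3h73.SD (ee NA gA syA SymSys)
open Pool.Agent.T3h73.TK (In TQ Dens SymQ)
open Q283.GA.St (Adm sy)

variable {K : Type} [Field K] [NumberField K]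

/-- a place without `2` is prime to powers of `2` -/
theorem cop2 (v : Pl K) (n : ℕ) (h : (2 : 𝓞 K) ∉ v.asIdeal) :
    IsCoprime v.asIdeal (Ideal.span {(2 : 𝓞 K) ^ n}) := by
  have hm : v.asIdeal.IsMaximal := v.isMaximal
  have h1 : IsCoprime v.asIdeal (Ideal.span {(2 : 𝓞 K)}) := by
    rw [Ideal.isCoprime_iff_sup_eq]
    by_contra htop
    apply h
    have h2 : v.asIdeal = v.asIdeal ⊔ Ideal.span {(2 : 𝓞 K)} := hm.eq_of_le htop le_sup_left
    rw [h2]
    exact Ideal.mem_sup_right (Ideal.mem_span_singleton_self _)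
  rw [← Ideal.span_singleton_pow]
  exact h1.pow_right

theorem cop2_iff (v : Pl K) (n : ℕ) :
    IsCoprime v.asIdeal (Ideal.span {(2 : 𝓞 K) ^ (n + 1)}) ↔ (2 : 𝓞 K) ∉ v.asIdeal := by
  refine ⟨fun h h3 => ?_, cop2 v (n + 1)⟩
  have h1 : Ideal.span {(2 : 𝓞 K) ^ (n + 1)} ≤ v.asIdeal := by
    rw [Ideal.span_singleton_le_iff_mem]
    exact v.asIdeal.pow_mem_of_mem h3 _ (Nat.succ_pos n)
  rw [Ideal.isCoprime_iff_sup_eq, sup_eq_left.2 h1] at h
  exact v.isPrime.ne_top h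

/-- the norm of a place without `2` is a unit modulo powers of `2` -/
theorem unit_norm (v : Pl K) (n : ℕ) (h : (2 : 𝓞 K) ∉ v.asIdeal) :
    IsUnit ((Ideal.absNorm v.asIdeal : ℕ) : ZMod (2 ^ n)) := by
  rw [ZMod.isUnit_iff_coprime]
  refine Nat.Coprime.pow_right _ ?_
  rw [Nat.coprime_comm, Nat.Prime.coprime_iff_not_dvd Nat.prime_two]
  intro h3
  -- a power of the residue characteristic
  have h1 : ((Ideal.absNorm v.asIdeal : ℕ) : 𝓞 K) ∈ v.asIdeal := Ideal.absNorm_mem _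
  obtain ⟨p, m, hp, hm, hpm⟩ : ∃ p m : ℕ, p.Prime ∧ 0 < m ∧ Ideal.absNorm v.asIdeal = p ^ m := by
    have hfin : Finite (𝓞 K ⧸ v.asIdeal) := Ideal.finiteQuotientOfFreeOfNeBot _ v.ne_bot
    have hmx : v.asIdeal.IsMaximal := v.isMaximal
    letI : Field (𝓞 K ⧸ v.asIdeal) := Ideal.Quotient.field _
    letI : Fintype (𝓞 K ⧸ v.asIdeal) := Fintype.ofFinite _
    obtain ⟨p, hcp⟩ := CharP.exists (𝓞 K ⧸ v.asIdeal)
    obtain ⟨m, hp, hc⟩ := FiniteField.card (𝓞 K ⧸ v.asIdeal) p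
    refine ⟨p, m, hp, m.2, ?_⟩
    rw [Ideal.absNorm_apply, Submodule.cardQuot_apply, Nat.card_eq_fintype_card]
    exact hc
  rw [hpm] at h3 h1
  have h4 : p = 2 := ((Nat.prime_dvd_prime_iff_eq Nat.prime_two hp).1
    (Nat.prime_two.dvd_of_dvd_pow h3)).symm
  rw [h4] at h1
  apply h
  have h5 : ((2 ^ m : ℕ) : 𝓞 K) = (2 : 𝓞 K) ^ m := by push_cast; rfl
  rw [h5] at h1
  exact v.isPrime.mem_of_pow_mem _ h1

theorem t_SYS2 (hD : S_DIC2) (hR : S_REC2) (hC : S_CHR2) (hE : S_DEN2) : S_SYS2 := by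
  intro K _ _ f k hk
  obtain ⟨S, hS, hgn, hsurj⟩ := hD K f
  have hcop : ∀ v : Pl K, IsCoprime v.asIdeal (Ideal.span {(2 : 𝓞 K) ^ (k + 2)}) ↔ v ∉ S :=
    fun v => by rw [cop2_iff v (k + 1), hS]
  have hinj : ∀ p q : Pl K, p ∉ S → q ∉ S → gn f p = gn f q → p = q := by
    intro p q hp hq h
    apply HeightOneSpectrum.ext
    rw [← (hgn p hp).2.2.1, ← (hgn q hq).2.2.1, h]
  have hPs1 : ∀ q : Pl K, q ∉ S → Ps K k 1 q = 1 := by
    intro q hq
    unfold Ps
    exact MulChar.one_apply (unit_norm q (k + 2) fun h => hq ((hS q).2 h))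
  refine ⟨S, hS, ?_⟩
  refine
    { sys :=
        { ne_bot := ?_
          cop := hcop
          add := fun h h' q => add_mul _ _ _
          symm := ?_
          char := ?_ }
      pos := Nat.one_le_pow _ _ (by norm_num)
      ne := ⟨1⟩
      disj := fun q hq hqS => hq.1 ((hS q).1 hqS)
      dens := hE K f k hk
      psi_le := fun ψ q => DirichletCharacter.norm_le_one ψ _
      ind := ?_
      ind' := ?_
      char := ?_ }
  · rw [Ne, Ideal.span_singleton_eq_bot]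
    exact pow_ne_zero _ (by exact_mod_cast (show (2 : ℕ) ≠ 0 by norm_num))
  · intro p q hp hq hpq
    exact hR _ _ ⟨(hgn p hp).1, (hgn p hp).2.1⟩ ⟨(hgn q hq).1, (hgn q hq).2.1⟩
      fun h => hpq (hinj p q hp hq h)
  · intro h j B hB hj
    obtain ⟨η, h1, h2, h3, h4, h5⟩ := hC K f k hk S hS h j B hB hj 1
    refine ⟨η, h1, h3 rfl, fun q hq hqB => ?_, fun hn => ?_, fun hn => ?_⟩
    · rw [h4 q hq hqB, hPs1 q hq, one_mul]
    · obtain ⟨α, h6, h7⟩ := h5 hn
      exact ⟨_, h6, h7⟩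
    · exact h5 (Or.inr hn)
  · intro q hq
    have h1 : ((Ideal.absNorm q.asIdeal : ℕ) : ZMod (2 ^ (k + 2))) = 1 := by
      have h2 := hq.2
      have h3 : (((Ideal.absNorm q.asIdeal : ℤ) - 1 : ℤ) : ZMod (2 ^ (k + 2))) = 0 := by
        rw [ZMod.intCast_zmod_eq_zero_iff_dvd]
        exact_mod_cast h2
      push_cast at h3
      exact sub_eq_zero.1 h3
    unfold Ps
    rw [h1]
    simp
  · intro q hqS hq
    have h1 : ((Ideal.absNorm q.asIdeal : ℕ) : ZMod (2 ^ (k + 2))) ≠ 1 := by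
      intro h1
      apply hq
      refine ⟨fun h => hqS ((hS q).2 h), ?_⟩
      have h3 : (((Ideal.absNorm q.asIdeal : ℤ) - 1 : ℤ) : ZMod (2 ^ (k + 2))) = 0 := by
        push_cast
        exact sub_eq_zero.2 h1
      rw [ZMod.intCast_zmod_eq_zero_iff_dvd] at h3
      exact_mod_cast h3
    unfold Ps
    exact DirichletCharacter.sum_characters_eq_zero ℂ h1
  · intro h j B hB hj hn ψ
    obtain ⟨η, h1, h2, -, h4, h5⟩ := hC K f k hk S hS h j B hB hj ψ
    obtain ⟨α, h6, h7⟩ := h5 hn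
    exact ⟨η, h1, h2, h4, _, h6, h7⟩

end T2h16.TG.SYS2
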