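import Pool.Agent.T2h16.TG.Stm
import Pool.Agent.T3h73.SD.T_UNL

/-!
# TG, task UNL2 (helper94): unlinked sets of colours for `ℓ = 2`
(adapted from `SD/T_UNL.lean`)
-/

set_option autoImplicit false
set_option linter.all false

open Filter Topology

namespace T2h16.TG.UNL2

open Pool.Agent.T3h73.SD (Cl Rc)
open Pool.Agent.T3h73.SD.UNL (Q B B_apply B_symm rc_eq Q_sub nondeg finrank_le)

theorem t_UNL2 : S_UNL2 := by
  classical
  intro k U hU
  rcases U.eq_empty_or_nonempty with rfl | ⟨x₀, hx₀⟩
  · refine ⟨by simp, fun h => ?_⟩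
    have := pow_pos (zero_lt_two (α := ℕ)) k
    rw [Finset.card_empty] at h
    omega
  have hQ : ∀ a ∈ U, ∀ b ∈ U, Q (a - b) = 0 := by
    intro a ha b hb
    have := hU a ha b hb
    rw [rc_eq] at this
    exact neg_eq_zero.1 this
  set D : Finset (Cl 2 k) := U.image fun a => a - x₀ with hD
  have hDQ : ∀ a ∈ D, Q a = 0 := by
    intro a ha
    obtain ⟨b, hb, rfl⟩ := Finset.mem_image.1 ha
    exact hQ b hb x₀ hx₀
  have hDB : ∀ a ∈ D, ∀ b ∈ D, B 2 k a b = 0 := by
    intro a ha b hb
    have h1 : Q (a - b) = 0 := by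
      obtain ⟨a', ha', rfl⟩ := Finset.mem_image.1 ha
      obtain ⟨b', hb', rfl⟩ := Finset.mem_image.1 hb
      have h2 : a' - x₀ - (b' - x₀) = a' - b' := by abel
      rw [h2]
      exact hQ a' ha' b' hb'
    rw [Q_sub, hDQ a ha, hDQ b hb, zero_add, zero_sub, neg_eq_zero] at h1
    exact h1
  set X : Submodule (ZMod 2) (Cl 2 k) := Submodule.span (ZMod 2) (D : Set (Cl 2 k)) with hX
  have hXB : ∀ x ∈ X, ∀ y ∈ X, B 2 k x y = 0 := by
    intro x hx y hy
    induction hx using Submodule.span_induction with
    | mem x hx =>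
      induction hy using Submodule.span_induction with
      | mem y hy => exact hDB x hx y hy
      | zero => rw [map_zero]
      | add a b _ _ h1 h2 => rw [map_add, h1, h2, add_zero]
      | smul c a _ h1 => rw [map_smul, h1, smul_zero]
    | zero => rw [map_zero, LinearMap.zero_apply]
    | add a b _ _ h1 h2 => rw [map_add, LinearMap.add_apply, h1, h2, add_zero]
    | smul c a _ h1 => rw [map_smul, LinearMap.smul_apply, h1, smul_zero]
  have hXQ : ∀ x ∈ X, Q x = 0 := by
    intro x hx
    induction hx using Submodule.span_induction with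
    | mem x hx => exact hDQ x hx
    | zero =>
      unfold Q
      exact Finset.sum_eq_zero fun i _ => by simp
    | add a b ha hb h1 h2 =>
      have h3 : Q (a + b) = Q a + Q b + B 2 k a b := by
        have h4 := Q_sub a (-b)
        rw [sub_neg_eq_add] at h4
        rw [h4]
        have h5 : Q (-b) = Q b := by
          unfold Q
          refine Finset.sum_congr rfl fun i _ => ?_
          simp only [Prod.fst_neg, Prod.snd_neg, Pi.neg_apply]
          ring
        rw [h5, map_neg, sub_neg_eq_add]
      rw [h3, h1, h2, hXB a ha b hb, add_zero, add_zero]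
    | smul c a ha h1 =>
      have h3 : Q (c • a) = c ^ 2 * Q a := by
        unfold Q
        rw [Finset.mul_sum]
        refine Finset.sum_congr rfl fun i _ => ?_
        simp only [Prod.smul_fst, Prod.smul_snd, Pi.smul_apply, smul_eq_mul]
        ring
      rw [h3, h1, mul_zero]
  have hrk := finrank_le X hXB
  have hcardX : Nat.card X = 2 ^ Module.finrank (ZMod 2) X := by
    rw [Module.natCard_eq_pow_finrank (K := ZMod 2) (V := X), Nat.card_zmod]
  have hinj : Function.Injective fun a : Cl 2 k => a - x₀ := sub_left_injective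
  have hcardD : D.card = U.card := Finset.card_image_of_injective _ hinj
  have hcX : Nat.card X = (X : Set (Cl 2 k)).ncard := Nat.card_coe_set_eq (X : Set (Cl 2 k))
  have hDX : D.card ≤ Nat.card X := by
    rw [← Set.ncard_coe_finset, hcX]
    exact Set.ncard_le_ncard Submodule.subset_span (Set.toFinite _)
  have hle : Nat.card X ≤ 2 ^ k := by
    rw [hcardX]
    exact Nat.pow_le_pow_right (by norm_num) hrk
  refine ⟨by rw [← hcardD]; exact hDX.trans hle, fun hcard => ?_⟩
  have h1 : Nat.card X = 2 ^ k := le_antisymm hle (by rw [← hcard, ← hcardD]; exact hDX)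
  have h2 : Module.finrank (ZMod 2) X = k := by
    rw [hcardX] at h1
    exact Nat.pow_right_injective le_rfl h1
  have h3 : (D : Set (Cl 2 k)) = (X : Set (Cl 2 k)) := by
    apply Set.eq_of_subset_of_ncard_le Submodule.subset_span _ (Set.toFinite _)
    rw [Set.ncard_coe_finset, hcardD, hcard, ← hcX]
    exact h1.le
  refine ⟨x₀, X, fun x hx y hy => hXB x hx y hy, fun x hx => hXQ x hx, h2, fun a => ?_⟩
  constructor
  · intro ha
    exact Submodule.subset_span (Finset.mem_coe.2 (Finset.mem_image_of_mem _ ha))
  · intro ha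
    have h4 : a - x₀ ∈ (D : Set (Cl 2 k)) := by rw [h3]; exact ha
    obtain ⟨b, hb, hba⟩ := Finset.mem_image.1 (Finset.mem_coe.1 h4)
    have : b = a := hinj hba
    rw [← this]
    exact hb

end T2h16.TG.UNL2
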