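import Pool.Agent.T2h16.TG.Stm

/-!
# UNQ2: maximal unlinked sets of colours
-/

set_option autoImplicit false
set_option linter.all false

namespace T2h16.TG.UNQ2

open Pool.Agent.T3h73.SD (Cl Rc)

theorem RR_self (r w : ℕ) (a : CC r w) : RR r w a a = 0 := by
  unfold RR Rc
  simp

theorem RR_add_zero {r w : ℕ} (a b : CC r w) :
    RR r w a b + RR r w b a = 0 ↔ Rc 2 r a.1 b.1 + Rc 2 r b.1 a.1 = 0 := Iff.rfl

/-- unlinked sets of colours -/
def Un (r w : ℕ) (U : Finset (CC r w)) : Prop :=
  ∀ a ∈ U, ∀ b ∈ U, RR r w a b + RR r w b a = 0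

def Vn (r : ℕ) (V : Finset (Cl 2 r)) : Prop :=
  ∀ a ∈ V, ∀ b ∈ V, Rc 2 r a b + Rc 2 r b a = 0

open Classical in
theorem un_image {r w : ℕ} {U : Finset (CC r w)} (h : Un r w U) : Vn r (U.image Prod.fst) := by
  intro a ha b hb
  obtain ⟨x, hx, rfl⟩ := Finset.mem_image.mp ha
  obtain ⟨y, hy, rfl⟩ := Finset.mem_image.mp hb
  exact (RR_add_zero x y).mp (h x hx y hy)

theorem un_prod {r w : ℕ} {V : Finset (Cl 2 r)} (h : Vn r V) :
    Un r w (V ×ˢ (Finset.univ : Finset (Fin w))) := by
  intro a ha b hb
  rw [Finset.mem_product] at ha hb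
  exact (RR_add_zero a b).mpr (h _ ha.1 _ hb.1)

open Classical in
theorem sub_prod {r w : ℕ} (U : Finset (CC r w)) :
    U ⊆ (U.image Prod.fst) ×ˢ (Finset.univ : Finset (Fin w)) := by
  intro a ha
  rw [Finset.mem_product]
  exact ⟨Finset.mem_image_of_mem _ ha, Finset.mem_univ _⟩

theorem card_prod {r w : ℕ} (V : Finset (Cl 2 r)) :
    (V ×ˢ (Finset.univ : Finset (Fin w))).card = V.card * w := by
  rw [Finset.card_product, Finset.card_univ, Fintype.card_fin]

open Classical in
theorem image_prod {r w : ℕ} (hw : 1 ≤ w) (V : Finset (Cl 2 r)) :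
    (V ×ˢ (Finset.univ : Finset (Fin w))).image Prod.fst = V := by
  ext x
  rw [Finset.mem_image]
  constructor
  · rintro ⟨y, hy, rfl⟩
    exact (Finset.mem_product.mp hy).1
  · intro hx
    refine ⟨(x, ⟨0, by omega⟩), ?_, rfl⟩
    rw [Finset.mem_product]
    exact ⟨hx, Finset.mem_univ _⟩

open Classical in
theorem t_UNQ2 (hU : S_UNL2) (hC : S_CNT2) : S_UNQ2 := by
  intro r w hw
  have hle : ∀ V : Finset (Cl 2 r), Vn r V → V.card ≤ 2 ^ r := fun V hV => (hU r V hV).1
  have hcard : ∀ U : Finset (CC r w), Un r w U → U.card ≤ (U.image Prod.fst).card * w := by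
    intro U hU
    rw [← card_prod]
    exact Finset.card_le_card (sub_prod U)
  refine ⟨RR_self r w, ?_, ?_⟩
  · intro U hU
    have h1 := hcard U hU
    have h2 := hle _ (un_image hU)
    calc U.card ≤ (U.image Prod.fst).card * w := h1
      _ ≤ 2 ^ r * w := Nat.mul_le_mul_right _ h2
      _ = w * 2 ^ r := by ring
  · intro α
    by_cases hα : α = 0
    · rw [if_pos hα, ← hC r]
      have key : ∀ U : Finset (CC r w), Un r w U → U.card = w * 2 ^ r →
          (U.image Prod.fst).card = 2 ^ r ∧
            (U.image Prod.fst) ×ˢ (Finset.univ : Finset (Fin w)) = U := by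
        intro U hU hc
        have h1 := hcard U hU
        have h2 := hle _ (un_image hU)
        have h3 : (U.image Prod.fst).card = 2 ^ r := by
          apply le_antisymm h2
          by_contra hlt
          push Not at hlt
          have h4 : (U.image Prod.fst).card * w < 2 ^ r * w :=
            Nat.mul_lt_mul_of_pos_right hlt (by omega)
          have h5 : 2 ^ r * w = w * 2 ^ r := by ring
          omega
        refine ⟨h3, ?_⟩
        symm
        apply Finset.eq_of_subset_of_card_le (sub_prod U)
        rw [card_prod, h3, hc]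
        apply le_of_eq
        ring
      apply Nat.card_congr
      refine
        { toFun := fun U => ⟨U.1.image Prod.fst, un_image U.2.1, (key U.1 U.2.1 U.2.2.1).1⟩
          invFun := fun V => ⟨V.1 ×ˢ (Finset.univ : Finset (Fin w)), un_prod V.2.1, ?_, ?_⟩
          left_inv := ?_
          right_inv := ?_ }
      · rw [card_prod, V.2.2]
        ring
      · intro a _
        exact hα
      · intro U
        apply Subtype.ext
        exact (key U.1 U.2.1 U.2.2.1).2
      · intro V
        apply Subtype.ext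
        exact image_prod hw V.1
    · rw [if_neg hα]
      have : IsEmpty {U : Finset (CC r w) // (∀ a ∈ U, ∀ b ∈ U, RR r w a b + RR r w b a = 0) ∧
          U.card = w * 2 ^ r ∧ ∀ a ∈ U, α = 0} := by
        constructor
        rintro ⟨U, -, hc, h0⟩
        have hpos : 0 < U.card := by
          rw [hc]
          positivity
        obtain ⟨a, ha⟩ := Finset.card_pos.mp hpos
        exact hα (h0 a ha)
      exact Nat.card_of_isEmpty

end T2h16.TG.UNQ2
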