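import Pool.Agent.T3h73.TK.All
import Pool.Agent.T2h16.TG.T_EXP2
import Pool.Agent.T2h16.TG.T_UNL2
import Pool.Agent.T2h16.TG.T_CNT2
import Pool.Agent.T2h16.TG.T_UNQ2
import Pool.Agent.T2h16.TG.T_MOM2
import Pool.Agent.T2h16.TG.T_DIS2
import Pool.Agent.T2h16.TG.T_QRS
import Pool.Agent.T2h16.TG.T_REC2
import Pool.Agent.T2h16.TG.T_FLD2
import Pool.Agent.T2h16.TG.T_DIC2
import Pool.Agent.T2h16.TG.T_PAR2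
import Pool.Agent.T2h16.TG.T_NTR2
import Pool.Agent.T2h16.TG.T_CHR2
import Pool.Agent.T2h16.TG.T_DEN2
import Pool.Agent.T2h16.TG.T_SYS2
import Pool.Agent.T2h16.TG.T_CHC2
import Pool.Agent.T2h16.TG.T_CRI2
import Pool.Agent.T2h16.TG.T_FIB2
import Pool.Agent.T2h16.TG.T_FAM2
import Pool.Agent.T2h16.TG.T_MAIN2
import Pool.Agent.T2h16.TG.T_NUM2
import Pool.Agent.T2h16.TG.T_EQ2

set_option autoImplicit false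
set_option linter.all false

namespace T2h16.TG

open Pool.Agent.T3h73
open Pool.Agent.T3h73.TK (all_ANQ)

theorem all_CNT2 : S_CNT2 := CNT2.t_CNT2 UNL2.t_UNL2

theorem all_UNQ2 : S_UNQ2 := UNQ2.t_UNQ2 UNL2.t_UNL2 all_CNT2

theorem all_MOM2 : S_MOM2 := MOM2.t_MOM2 EXP2.t_EXP2 all_ANQ all_UNQ2

theorem all_DIS2 : S_DIS2 := DIS2.t_DIS2 all_MOM2 SD.KAP.t_KAP TK.TQL.t_TQL

theorem all_NTR2 : S_NTR2 := NTR2.t_NTR2 QRS.t_QRS PAR2.t_PAR2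

theorem all_CHR2 : S_CHR2 := CHR2.t_CHR2 DIC2.t_DIC2 all_NTR2 QRS.t_QRS PAR2.t_PAR2

theorem all_DEN2 : S_DEN2 := DEN2.t_DEN2 TK.PAP.t_PAP DIC2.t_DIC2

theorem all_SYS2 : S_SYS2 := SYS2.t_SYS2 DIC2.t_DIC2 REC2.t_REC2 all_CHR2 all_DEN2

theorem all_CRI2 : S_CRI2 := CRI2.t_CRI2 PAR2.t_PAR2

theorem all_FIB2 : S_FIB2 := FIB2.t_FIB2 CHC2.t_CHC2

theorem all_FAM2 : S_FAM2 :=
  FAM2.t_FAM2 DIC2.t_DIC2 all_CRI2 REC2.t_REC2 all_FIB2 PAR2.t_PAR2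

theorem all_MAIN2 : S_MAIN2 :=
  MAIN2.t_MAIN2 FLD2.t_FLD2 all_SYS2 all_DIS2 all_FAM2 TK.TQL.t_TQL

end T2h16.TG
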