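import Pool.Agent.T2h16.TG.Def2

/-!
# All the products of characters modulo the same primes
-/

set_option autoImplicit false

namespace T2h16.TG.Def3

open T2h16.TG.Def2

/-- The property `Nice` for every product of characters of exact order `2 ^ l`, `l ≥ 3`, modulo the same
primes (the elements of `set x`), if these primes have norm `1` modulo `2 ^ (l + 2)` (see `Mem`). If
`Mem k x` then this is so for all `l ≤ k`; among these products are the product of the characters of `x`
and all its powers of order at least `8`. -/
def NiceAll (x : Fam) : Prop :=
  ∀ (l : ℕ) (y : Fam), 3 ≤ l → set y = set x → Mem l y → Nice l y

end T2h16.TG.Def3
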