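import Pool.Agent.T3h73.TK.Stm
import Pool.Agent.T2h16.TG.Def
import Pool.Agent.T2h16.TG.Def2

/-!
# Project TG (helper16, MP_a43263): twists of `y² = x³ - x` over `ℚ(i)` by characters of order `2 ^ k`

Goal (`S_MAIN2`): for `k ≥ 3` the twists by at least `(1/2) ∏ (1 + 2 ^ (-i))⁻¹ = 0.2097...` of ALL products of
characters of exact order `2 ^ k` modulo distinct admissible Gaussian primes (lower Dirichlet density, ordered by the
norm of the conductor) have nonvanishing `L`-value and exact `2`-part.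

This is the analogue of project TK of helper73 (`Pool/Agent/T3h73/TK`) for `p = 2`; Part A (analysis, `S_ANQ`, for all
primes `ℓ`) is already proved there (`Pool.Agent.T3h73.TK.all_ANQ`, `TQL.t_TQL`, `PAP.t_PAP`). There are no weights
(`𝔽₂` has one unit).

File for the task `XXX`: `Pool/Agent/T2h16/TG/T_XXX.lean`, `import Pool.Agent.T2h16.TG.Stm`, namespace
`T2h16.TG.XXX`, theorem `t_XXX : S_XXX` (inputs named in the docstring are hypotheses of `t_XXX`, in the order given).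
-/

set_option autoImplicit false
set_option linter.all false

open NumberField IsDedekindDomain Filter Topology

namespace T2h16.TG

open Pool.Agent.T3h73.SL (Pl)
open Pool.Agent.Y773.G (IsModChar)
open Pool.Agent.T3h73.SD (ee NA gA syA SymSys Cl Rc kap S_KAP)
open Pool.Agent.T3h73.TK (In TQ Dens SymQ MhQ S_ANQ S_TQL S_PAP)
open Q283.GA.St (Adm sy Concl)
open T2h16.TG.Def

/-! ### Part B: moments -/

section
variable {K : Type} [Field K] [NumberField K]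

/-- the kernel of the Laplacian of `P` -/
def VV (sy : Pl K → Pl K → ZMod 2) (P : Finset (Pl K)) : Set (P → ZMod 2) :=
  {v | ∀ j : P, ∑ i : P, sy i j * (v i - v j) = 0}

/-- its order -/
noncomputable def nV (sy : Pl K → Pl K → ZMod 2) (P : Finset (Pl K)) : ℕ := Nat.card (VV sy P)

/-- `∑ a(q)` -/
def aS (a : Pl K → ZMod 2) (P : Finset (Pl K)) : ZMod 2 := ∑ q : P, a q

open Classical in
/-- the sum over the finite subsets `P` of `Q`, with the weight `w ^ |P|` -/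
noncomputable def SQ (Q : Set (Pl K)) (w : ℕ) (F : Finset (Pl K) → ℝ) (s : ℝ) : ℝ :=
  ∑' P : Finset (Pl K), if In Q P then (w : ℝ) ^ P.card * (NA P : ℝ) ^ (-s) * F P else 0

end

/-- the colours -/
abbrev CC (r w : ℕ) : Type := Cl 2 r × Fin w

/-- the linking -/
def RR (r w : ℕ) (a b : CC r w) : ZMod 2 := Rc 2 r a.1 b.1

open Classical in
/-- EXP2 (adapt `TK/T_EXPQ.lean`, 274 lines, simpler: no weights): the moments in terms of the coloured sums.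
`[aS = c] = (1/2) ∑_α ee 2 (α aS) ee 2 (-α c)`. The `r`-th power of `nV sy P` counts the `(v¹, …, vʳ)`, `vˡ ∈ F₂^P`,
with `∑_i sy i j (v^l_i - v^l_j) = 0` for all `l`, `j`, so it is
`2^(-r |P|) ∑_v ∑_b ee 2 (∑_l ∑_j b^l_j ∑_i sy i j (v^l_i - v^l_j))`. A colouring `P → Cl 2 r × Fin w` is a
triple `((v, b), f)`; the sum over `f` gives `w ^ |P|`. The terms `i = j` vanish, and the phase is
`∑_{i ≠ j} RR (col i) (col j) * sy i j` by the definition of `Rc`. -/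
def S_EXP2 : Prop := ∀ (K : Type) [Field K] [NumberField K] (Q : Set (Pl K))
  (sy : Pl K → Pl K → ZMod 2) (a : Pl K → ZMod 2) (w r : ℕ) (c : ZMod 2) (s : ℝ), 1 < s → s ≤ 2 →
  ((SQ Q w (fun P => if aS a P = c then (nV sy P : ℝ) ^ r else 0) s : ℝ) : ℂ) =
    (1 / 2 : ℂ) * ∑ α : ZMod 2, ee 2 (-(α * c)) *
      MhQ Q (fun (h : ZMod 2) q => h * a q) sy (RR r w) (2 ^ r) (fun _ => α) s

/-- UNL2 (adapt `SD/T_UNL.lean`, 204 lines): unlinked sets of colours for `ℓ = 2`. With `q(x) = ∑ x.1 i * x.2 i` one has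
`Rc a b + Rc b a = q(a - b)` (characteristic `2`). Let `U` be unlinked and `x₀ ∈ U`; for `x, y ∈ U - x₀` one has
`q(x) = q(y) = q(x - y) = 0`, so `B(x, y) = q(x) + q(y) - q(x - y) = 0`; hence `q = 0` and `B = 0` on the span `X` of
`U - x₀` (`q(x + y) = q(x) + q(y) + B(x, y)`), `X` is contained in its orthogonal space for the nondegenerate form
`B`, so `dim X ≤ k`. In `SD/T_UNL.lean` the number `2` is inverted only to get `q = 0` on `X` from `B(x, x) = 2 q(x)`. -/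
def S_UNL2 : Prop := ∀ (k : ℕ) (U : Finset (Cl 2 k)),
  (∀ a ∈ U, ∀ b ∈ U, Rc 2 k a b + Rc 2 k b a = 0) → U.card ≤ 2 ^ k ∧
  (U.card = 2 ^ k → ∃ (x₀ : Cl 2 k) (X : Submodule (ZMod 2) (Cl 2 k)),
    (∀ x ∈ X, ∀ y ∈ X, ∑ i, (x.1 i * y.2 i + y.1 i * x.2 i) = 0) ∧
    (∀ x ∈ X, ∑ i, x.1 i * x.2 i = 0) ∧ Module.finrank (ZMod 2) X = k ∧
    ∀ a, a ∈ U ↔ a - x₀ ∈ X)

/-- CNT2 (`t_CNT2 (h : S_UNL2) : S_CNT2`; adapt `SD/T_CNTU.lean`, 538 lines, whose only use of `ℓ ≠ 2` should be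
`S_UNL`): the number of the maximal unlinked sets of colours: `2^k` cosets for each of the `∏ (1 + 2^i)` maximal
totally singular subspaces of the hyperbolic quadratic space. -/
def S_CNT2 : Prop := ∀ k : ℕ,
  Nat.card {U : Finset (Cl 2 k) // (∀ a ∈ U, ∀ b ∈ U, Rc 2 k a b + Rc 2 k b a = 0) ∧
    U.card = 2 ^ k} = 2 ^ k * ∏ i ∈ Finset.range k, (1 + 2 ^ i)

/-- UNQ2 (`t_UNQ2 (hU : S_UNL2) (hC : S_CNT2) : S_UNQ2`; adapt `TK/T_UNLQ.lean`, 149 lines): maximal unlinked sets of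
colours `CC r w`: `U` is unlinked iff its projection to `Cl 2 r` is; the fibres have at most `w` elements; equality holds
iff `U` is the full preimage of an unlinked set with `2 ^ r` elements. For `α ≠ 0` no `U` is counted, as `U` is not
empty. -/
def S_UNQ2 : Prop := ∀ (r w : ℕ), 1 ≤ w → (∀ a : CC r w, RR r w a a = 0) ∧
  (∀ U : Finset (CC r w), (∀ a ∈ U, ∀ b ∈ U, RR r w a b + RR r w b a = 0) → U.card ≤ w * 2 ^ r) ∧
  ∀ α : ZMod 2, Nat.card {U : Finset (CC r w) // (∀ a ∈ U, ∀ b ∈ U, RR r w a b + RR r w b a = 0) ∧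
    U.card = w * 2 ^ r ∧ ∀ a ∈ U, α = 0} =
    if α = 0 then 2 ^ r * ∏ i ∈ Finset.range r, (1 + 2 ^ i) else 0

open Classical in
/-- MOM2 (`t_MOM2 (hE : S_EXP2) (hA : S_ANQ) (hU : S_UNQ2) : S_MOM2`; adapt `TK/T_MOMQ.lean`, 68 lines): the moments;
`S_ANQ` with `ℓ = 2`, `m = 2 ^ r`, `M = w 2 ^ r`, so `M / m = w`. -/
def S_MOM2 : Prop := ∀ (K : Type) [Field K] [NumberField K] (S : Finset (Pl K)) (𝔪 : Ideal (𝓞 K))
  (a : Pl K → ZMod 2) (sy : Pl K → Pl K → ZMod 2) (Q : Set (Pl K)) (n : ℕ) (ι : Type) [Fintype ι]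
  (Ψ : ι → Pl K → ℂ), SymQ 2 K S 𝔪 (ZMod 2) (fun h q => h * a q) sy Q n ι Ψ →
  ∀ (w r : ℕ) (c : ZMod 2), 1 ≤ w →
  Tendsto (fun s : ℝ => SQ Q w (fun P => if aS a P = c then (nV sy P : ℝ) ^ r else 0) s /
    TQ Q w s) (𝓝[>] 1) (𝓝 (1 / 2 * ((2 : ℝ) ^ r * ∏ i ∈ Finset.range r, (1 + (2 : ℝ) ^ i))))

open Classical in
/-- DIS2 (`t_DIS2 (hM : S_MOM2) (hK : S_KAP) (hT : S_TQL) : S_DIS2`; adapt `TK/T_DISTQ.lean`, 295 lines): the
proportion. `VV sy P` is a subspace which contains the constants, so `nV = 2 ^ (d + 1)` for nonempty `P`. The condition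
`aS = 1` implies that `P` is nonempty, and `SQ ([aS = 1] BB(nV / 2)) / TQ → (1/2) Lf 2 BB` by `S_MOM2`, while
`BB(nV / 2) ≤ [nV = 2]`. (Polynomials `BB`, `Lf`, `BB_le` of `SD/T_DIST.lean` with `ℓ = 2`; check there that `ℓ ≠ 2` is
not used.) -/
def S_DIS2 : Prop := ∀ (K : Type) [Field K] [NumberField K] (S : Finset (Pl K)) (𝔪 : Ideal (𝓞 K))
  (a : Pl K → ZMod 2) (sy : Pl K → Pl K → ZMod 2) (Q : Set (Pl K)) (n : ℕ) (ι : Type) [Fintype ι]
  (Ψ : ι → Pl K → ℂ), SymQ 2 K S 𝔪 (ZMod 2) (fun h q => h * a q) sy Q n ι Ψ →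
  ∀ w : ℕ, 1 ≤ w → ∀ ε : ℝ, 0 < ε → ∀ᶠ s : ℝ in 𝓝[>] 1,
  (1 / 2 * kap 2 - ε) * TQ Q w s ≤ SQ Q w (fun P => if nV sy P = 2 ∧ aS a P ≠ 0 then 1 else 0) s

/-! ### Part C: arithmetic of the Gaussian integers -/

/-- `2 + 2 i` -/
def tt : GaussianInt := ⟨2, 2⟩

/-- primary primes: every prime ideal not above `2` has exactly one primary generator -/
def Pp (π : GaussianInt) : Prop := Prime π ∧ tt ∣ π - 1

/-- a function of `α = a + b i`, `α ≡ 1 (mod 2 + 2 i)`: `(a - b - b² - 1) / 4` modulo `2` (the quadratic symbol of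
`1 + i`); for `α ≡ 1 (mod 4)` it is `0` iff `α ≡ 1 (mod 4 (1 + i))` -/
def ap (α : GaussianInt) : ZMod 2 := (((α.re - α.im - α.im ^ 2 - 1) / 4 : ℤ) : ZMod 2)

/-- QRS (80 lines): the quadratic symbol modulo an odd Gaussian prime (`sy π x = 0` iff `x` is a square modulo `π`).
Proof: `GaussianInt ⧸ span {π}` is a finite field of odd order; products of two nonsquares are squares
(`quadraticChar`, compare `Pool/Agent/Y715/Qr.lean`, where `π` satisfies more). -/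
def S_QRS : Prop := ∀ π : GaussianInt, Prime π → ¬ π ∣ 2 →
  (∀ x y : GaussianInt, π ∣ x - y → sy π x = sy π y) ∧
  (∀ x y : GaussianInt, ¬ π ∣ x → ¬ π ∣ y → sy π (x * y) = sy π x + sy π y) ∧
  (∃ x : GaussianInt, ¬ π ∣ x ∧ sy π x ≠ 0) ∧ sy π 1 = 0

/-- REC2 (200 lines; adapt `Pool/Agent/Y715/Rec.lean`): quadratic reciprocity for all primary primes. Proof. Let
`π = a + b i`, `N π = p` prime (`p ≡ 1 mod 4`, `b` even) and `x = c + d i`, `π ∤ x`: modulo `π` one has `i ≡ - a / b`, so `x` is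
a square modulo `π` iff `J((bc - ad) / p) J(b / p) = 1`. Write `b = 2^s b'`: `J(b' / p) = J(p / b') = J(a² / b') = 1`, and
`J(2 / p) ^ s = 1` if `8 ∣ p - 1`, `= -1` if not (then `s = 1`). If `ρ = c + d i` has norm `r` prime, put `m = bc - ad`,
`n = ac + bd`, `p r = n² + m²`. If `p = r` then `ρ = star π` and the symmetry is clear (apply the conjugation). Otherwise
`J(m / p) J(m / r) = J(m / (p r))`, `m = 2^t m'`, `J(m' / (p r)) = J(n² / m') = 1` (`n`, `m` are coprime) and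
`J(2 / (p r)) ^ t = 1` if `p r ≡ 1 (mod 8)`, `= -1` if `p r ≡ 5 (mod 8)` (one of `b`, `d` is `2 mod 4`, the other `0 mod 4`,
`t = 1`): in all cases the product of the two symbols is `1`. Inert primes: `π = - q`, `q ≡ 3 (mod 4)` prime; `x` is a
square modulo `q` iff `J(N x / q) = 1`, and `- q` is a square modulo `ρ` of norm `r` iff `J(-q / r) = J(r / q) = 1`; two
inert primes: both symbols are trivial (`N x = x²`). The lemmas `split_symb`, `inert_symb`, `recip_*` of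
`Pool/Agent/Y715/Rec.lean` treat the case of the norms `1 (mod 8)`. -/
def S_REC2 : Prop := ∀ π ρ : GaussianInt, Pp π → Pp ρ → π ≠ ρ → sy π ρ = sy ρ π

/-- FLD2 (60 lines; adapt `TK/T_FLD.lean`): the field `ℚ(i)`. -/
def S_FLD2 : Prop := ∃ (K : Type) (_ : Field K) (_ : NumberField K), Nonempty (GaussianInt ≃+* 𝓞 K)

section
variable {K : Type} [Field K] [NumberField K]

open Classical in
/-- the primary generator of a place -/
noncomputable def gn (f : GaussianInt ≃+* 𝓞 K) (v : Pl K) : GaussianInt :=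
  if h : ∃ π : GaussianInt, Prime π ∧ tt ∣ π - 1 ∧ Ideal.span {f π} = v.asIdeal then h.choose else 1

/-- the set `Q` -/
def Qk (f : GaussianInt ≃+* 𝓞 K) (k : ℕ) : Set (Pl K) :=
  {v | (2 : 𝓞 K) ∉ v.asIdeal ∧ (2 : ℤ) ^ (k + 2) ∣ (Ideal.absNorm v.asIdeal : ℤ) - 1}

/-- the functions `Ψ` -/
noncomputable def Ps (K : Type) [Field K] [NumberField K] (k : ℕ)
    (ψ : DirichletCharacter ℂ (2 ^ (k + 2))) (v : Pl K) : ℂ :=
  ψ (Ideal.absNorm v.asIdeal : ZMod (2 ^ (k + 2)))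

end

/-- DIC2 (adapt `TK/T_DIC.lean`, 166 lines): dictionary. The four units `i ^ c` represent the odd classes modulo
`2 + 2 i`, so an odd element has exactly one primary associate; `a + b i` is primary iff `b` is even and `4 ∣ a + b - 1`; the
norm of `Ideal.span {f π}` is `π.norm`. There is one place containing `2`. -/
def S_DIC2 : Prop := ∀ (K : Type) [Field K] [NumberField K] (f : GaussianInt ≃+* 𝓞 K), ∃ S : Finset (Pl K),
  (∀ v, v ∈ S ↔ (2 : 𝓞 K) ∈ v.asIdeal) ∧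
  (∀ v, v ∉ S → Prime (gn f v) ∧ tt ∣ gn f v - 1 ∧ Ideal.span {f (gn f v)} = v.asIdeal ∧
    (gn f v).norm = Ideal.absNorm v.asIdeal) ∧
  ∀ π : GaussianInt, Prime π → tt ∣ π - 1 → ∃ v, v ∉ S ∧ gn f v = π

/-- PAR2 (60 lines): primary numbers. (1) products; (2) `ap` is additive (write `α = a + b i`, `b = 2 b'`,
`a = 1 - 2 b' + 4 a'`, similarly `β`; then it is a computation modulo `8`, e.g. `decide` on residues); (3) `ap` depends on
`α` modulo `8`; (4) a primary number is `1` modulo `4` iff its norm is `1` modulo `8`; (5) for `α ≡ 1 (mod 4)`: `ap α = 0`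
if `4 (1 + i) ∣ α - 1`. -/
def S_PAR2 : Prop := (∀ α β : GaussianInt, tt ∣ α - 1 → tt ∣ β - 1 →
    tt ∣ α * β - 1 ∧ ap (α * β) = ap α + ap β) ∧
  (∀ α β : GaussianInt, tt ∣ α - 1 → (8 : GaussianInt) ∣ α - β → tt ∣ β - 1 ∧ ap α = ap β) ∧
  (∀ α : GaussianInt, tt ∣ α - 1 → ((4 : GaussianInt) ∣ α - 1 ↔ (8 : ℤ) ∣ α.norm - 1)) ∧
  (∀ α : GaussianInt, (4 : GaussianInt) ∣ α - 1 → tt ∣ α - 1) ∧
  (∀ α : GaussianInt, (4 * ⟨1, 1⟩ : GaussianInt) ∣ α - 1 → ap α = 0) ∧ ap 1 = 0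

/-- NTR2 (`t_NTR2 (hQ : S_QRS) (hP : S_PAR2) : S_NTR2`; adapt `TK/T_NTR.lean`, 227 lines): the characters are not
trivial. If `B` is not empty choose `b₀ ∈ B` and, by the Chinese remainder theorem (`2^(k+3)` and the elements of `B` are
pairwise coprime: two primary primes which are associate are equal), `α ≡ 1` modulo `2^(k+3)` and modulo the other
elements of `B`, and `α ≡ x` modulo `b₀` with `¬ b₀ ∣ x`, `sy b₀ x ≠ 0` (`S_QRS`). Then `ap α = 0`, `α.norm ≡ 1`, and the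
sum is `j b₀ * sy b₀ x ≠ 0`. If `B = ∅`, `h ≠ 0`: `z = 1 + 2 i`, `α = z (star z)^(2^(k+2) - 1)`: `(star z)^(2^m) ≡ 1
(mod 2^(m+1))` for `m ≥ 2` (`(star z)^4 = -7 + 24 i ≡ 1 (mod 8)`, squaring), so `α * star z ≡ z (mod 8)`, that is
`α ≡ 1 + 4 i (mod 8)` (`(1 + 4i)(1 - 2i) = 9 + 2i ≡ z`, and `star z` is invertible modulo `8`), `ap α = ap (1 + 4 i) = 1`
(`(1 - 4 - 16 - 1)/4 = -5`), and `α.norm = 5^(2^(k+2)) ≡ 1 (mod 2^(k+4))`. -/
def S_NTR2 : Prop := ∀ (k : ℕ), 1 ≤ k → ∀ (h : ZMod 2) (j : GaussianInt → ZMod 2) (B : Finset GaussianInt),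
  (∀ b ∈ B, Prime b ∧ tt ∣ b - 1 ∧ j b ≠ 0) → (h ≠ 0 ∨ B.Nonempty) →
  ∃ α : GaussianInt, tt ∣ α - 1 ∧ (2 : ℤ) ^ (k + 2) ∣ α.norm - 1 ∧ (∀ b ∈ B, ¬ b ∣ α) ∧
    h * ap α + ∑ b ∈ B, j b * sy b α ≠ 0

/-- CHR2 (`t_CHR2 (hD : S_DIC2) (hN : S_NTR2) (hQ : S_QRS) (hP : S_PAR2) : S_CHR2`; adapt `TK/T_CHR.lean`, 508 lines):
the ray class characters. An ideal `𝔞` of `𝓞 K` prime to `2` has a unique primary generator `f α`, multiplicative in
`𝔞`. Put `η 𝔞 = ψ (N 𝔞) ee 2 (h ap α + ∑_{b ∈ B} j b sy (gn b) α)` if `𝔞` is prime to `2 ∏ b` and `0` otherwise. `IsModChar`: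
an element `≡ 1` modulo `2^(k+2) ∏ b` is its own primary generator, `ap = 0` because it is `1` modulo `8`, all symbols are
`sy b 1 = 0`, and the norm is `≡ 1 (mod 2^(k+2))`. Nontriviality: `S_NTR2`. -/
def S_CHR2 : Prop := ∀ (K : Type) [Field K] [NumberField K] (f : GaussianInt ≃+* 𝓞 K) (k : ℕ), 1 ≤ k →
  ∀ S : Finset (Pl K), (∀ v, v ∈ S ↔ (2 : 𝓞 K) ∈ v.asIdeal) →
  ∀ (h : ZMod 2) (j : Pl K → ZMod 2) (B : Finset (Pl K)), Disjoint B S → (∀ b, j b ≠ 0 ↔ b ∈ B) →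
  ∀ ψ : DirichletCharacter ℂ (2 ^ (k + 2)), ∃ η : Ideal (𝓞 K) →*₀ ℂ,
    IsModChar (Ideal.span {(2 : 𝓞 K) ^ (k + 2)} * ∏ b ∈ B, b.asIdeal) (fun _ => 0) η ∧
    (∀ 𝔞, ‖η 𝔞‖ ≤ 1) ∧
    (ψ = 1 → ∀ 𝔞, IsCoprime 𝔞 (Ideal.span {(2 : 𝓞 K) ^ (k + 2)} * ∏ b ∈ B, b.asIdeal) →
      η 𝔞 ^ 2 = 1) ∧
    (∀ q : Pl K, q ∉ S → q ∉ B →
      η q.asIdeal = Ps K k ψ q * ee 2 (h * ap (gn f q) + ∑ b ∈ B, j b * sy (gn f b) (gn f q))) ∧
    (h ≠ 0 ∨ B.Nonempty → ∃ α : 𝓞 K,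
      IsCoprime (Ideal.span {α}) (Ideal.span {(2 : 𝓞 K) ^ (k + 2)} * ∏ b ∈ B, b.asIdeal) ∧
      η (Ideal.span {α}) ≠ 1)

/-- DEN2 (`t_DEN2 (hP : S_PAP) (hD : S_DIC2) : S_DEN2`; adapt `TK/T_DENQ.lean`, 415 lines): the density of `Qk`:
`φ(2^(k+2)) = 2^(k+1)`; a prime number `p ≡ 1 (mod 2^(k+2))` is the norm of exactly two primary primes `π`, `star π`; a
prime number `p ≡ 3 (mod 4)` gives one place of norm `p²`, these contribute at most `∑ p^{-2}`. -/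
def S_DEN2 : Prop := ∀ (K : Type) [Field K] [NumberField K] (f : GaussianInt ≃+* 𝓞 K) (k : ℕ), 1 ≤ k →
  Dens (Qk f k) (2 ^ k)

/-- SYS2 (`t_SYS2 (hD : S_DIC2) (hR : S_REC2) (hC : S_CHR2) (hE : S_DEN2) : S_SYS2`; adapt `TK/T_SYSQ.lean`,
140 lines): everything together, with `∑_ψ ψ(x) = φ(2^(k+2)) [x = 1]`. -/
def S_SYS2 : Prop := ∀ (K : Type) [Field K] [NumberField K] (f : GaussianInt ≃+* 𝓞 K) (k : ℕ), 1 ≤ k →
  ∃ S : Finset (Pl K), (∀ v, v ∈ S ↔ (2 : 𝓞 K) ∈ v.asIdeal) ∧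
  SymQ 2 K S (Ideal.span {(2 : 𝓞 K) ^ (k + 2)}) (ZMod 2) (fun h q => h * ap (gn f q))
    (fun p q => sy (gn f p) (gn f q)) (Qk f k) (2 ^ k) (DirichletCharacter ℂ (2 ^ (k + 2))) (Ps K k)

/-- CHC2 (adapt `TK/T_CHC.lean`, 165 lines): the number of the characters of exact order `2 ^ k`: the group of the
multiplicative characters of the field `GaussianInt ⧸ span {π}` is cyclic of order `π.norm - 1`, divisible by `2 ^ k`, so
there are `φ(2^k) = 2^(k-1)` elements of order `2^k` (`IsCyclic.card_orderOf_eq_totient`). -/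
def S_CHC2 : Prop := ∀ (k : ℕ), 1 ≤ k → ∀ π : GaussianInt, Adm k π →
  Nat.card {lam : MulChar (GaussianInt ⧸ Ideal.span {π}) ℂ // orderOf lam = 2 ^ k} = 2 ^ (k - 1) ∧
  Finite {lam : MulChar (GaussianInt ⧸ Ideal.span {π}) ℂ // orderOf lam = 2 ^ k}

/-- CRI2 (`t_CRI2 (hP : S_PAR2) : S_CRI2`; adapt `TK/T_CRI.lean`, 153 lines): the criterion for one member:
`Q283.GA.concl_of` (file `Pool/Agent/Q283/GA/Cri.lean`) with `π j = σ j`; `Sel.aij π i j` is the symbol `sy (π j) (π i)`.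
`hodd`: if `4 (1 + i) ∣ ∏ π - 1`, then `∑ ap(π) = ap (∏ π) = 0`. -/
def S_CRI2 : Prop := ∀ (k : ℕ), 3 ≤ k → ∀ x : Fam, Mem k x →
  (∀ v : x.1 → ZMod 2, (∀ j : x.1, ∑ i : x.1, sy (j : GaussianInt) (i : GaussianInt) * (v i - v j) = 0) →
    ∀ i j, v i = v j) →
  ∑ π : x.1, ap π ≠ 0 → Nice k x

open Classical in
/-- FIB2 (`t_FIB2 (hC : S_CHC2) : S_FIB2`; adapt `TK/T_FIB.lean`, 70 lines): the families of characters for fixed `P`
are `(2 ^ (k - 1)) ^ |P|` many (a product of finite sets). -/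
def S_FIB2 : Prop := ∀ k : ℕ, 1 ≤ k → ∀ P : Finset GaussianInt, (∀ π ∈ P, Adm k π) →
  {lam : ∀ π : P, MulChar (GaussianInt ⧸ Ideal.span {(π : GaussianInt)}) ℂ |
    ∀ π, orderOf (lam π) = 2 ^ k}.Finite ∧
  ∑' lam : (∀ π : P, MulChar (GaussianInt ⧸ Ideal.span {(π : GaussianInt)}) ℂ),
    (if ∀ π, orderOf (lam π) = 2 ^ k then (1 : ℝ) else 0) = ((2 ^ (k - 1) : ℕ) : ℝ) ^ P.card

open Classical in
/-- FAM2 (`t_FAM2 (hD : S_DIC2) (hC : S_CRI2) (hR : S_REC2) (hF : S_FIB2) (hP : S_PAR2) (hT : S_TQL) (hE : S_DEN2) :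
S_FAM2`; leave out what you do not need; adapt `TK/T_FAM.lean`, 482 lines): from the sums over the places to the sums over
the family. `π ↦` the place with `gn = π` is a bijection from the admissible primes to `Qk f k` (`S_DIC2`; a primary prime
of norm `≡ 1 (mod 8)` is `1` modulo `4`, `S_PAR2`), preserving norms. If `nV = 2` the kernel consists of the constants
(`P ≠ ∅` because `aS ≠ 0`), so `Nice` holds by `S_CRI2` and `S_REC2`. -/
def S_FAM2 : Prop := ∀ (K : Type) [Field K] [NumberField K] (f : GaussianInt ≃+* 𝓞 K) (k : ℕ), 3 ≤ k →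
  ∀ s : ℝ, 1 < s → s ≤ 2 →
  Summable (fun x : Fam => if Mem k x then cond x ^ (-s) else 0) ∧
  fsum k (fun _ => True) s = TQ (Qk f k) ((2 ^ (k - 1) : ℕ) : ℝ) s ∧
  SQ (Qk f k) (2 ^ (k - 1)) (fun P => if nV (fun p q => sy (gn f p) (gn f q)) P = 2 ∧
    aS (fun q => ap (gn f q)) P ≠ 0 then 1 else 0) s ≤ fsum k (Nice k) s

open Classical in
/-- MAIN2 (assembly: `t_MAIN2 (hFLD : S_FLD2) (hSYS : S_SYS2) (hDIS : S_DIS2) (hFAM : S_FAM2) (hTQL : S_TQL) :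
S_MAIN2`, adapt `TK/Fin.lean` (75 lines) and `all_INF` of `TK/All.lean`) -/
def S_MAIN2 : Prop := ∀ k : ℕ, 3 ≤ k →
  (∀ s : ℝ, 1 < s → Summable (fun x : Fam => if Mem k x then cond x ^ (-s) else 0)) ∧
  Tendsto (fun s : ℝ => fsum k (fun _ => True) s) (𝓝[>] 1) atTop ∧
  ∀ ε : ℝ, 0 < ε → ∀ᶠ s : ℝ in 𝓝[>] 1, 0 < fsum k (fun _ => True) s ∧
    (1 / 2 * ∏' i : ℕ, (1 + ((2 : ℝ) ^ (i + 1))⁻¹)⁻¹ - ε) * fsum k (fun _ => True) s ≤
      fsum k (Nice k) s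

/-- NUM2 (adapt `TK/Num.lean`, 66 lines): the constant -/
def S_NUM2 : Prop := (0.2097 : ℝ) < 1 / 2 * T2h16.TG.Def2.kappa

open Classical in
/-- EQ2 (adapt `TK/Eq2.lean`, 33 lines): the two forms of the definitions -/
def S_EQ2 : Prop := (∀ (k : ℕ) (x : Fam), T2h16.TG.Def2.Mem k x ↔ Mem k x) ∧
  (∀ x : Fam, T2h16.TG.Def2.cond x = cond x) ∧
  (∀ (k : ℕ) (x : Fam), T2h16.TG.Def2.Nice k x ↔ Nice k x) ∧
  (∀ (k : ℕ) (T : Fam → Prop) (s : ℝ), T2h16.TG.Def2.fsum k T s = fsum k T s)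

end T2h16.TG
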