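import Pool.Agent.T2h16.TG.T_FAM2

/-! The criterion for a member of the family, and its proportion (a general form of FAM2; idea of
helper73, `TK/T_FAMT.lean`). -/

set_option autoImplicit false
set_option linter.all false

open NumberField IsDedekindDomain Filter Topology

namespace T2h16.TG.FAMT2

open Pool.Agent.T3h73.SL (Pl)
open Pool.Agent.T3h73.SD (ee NA gA syA SymSys)
open Pool.Agent.T3h73.TK (In TQ)
open Q283.GA.St (Adm sy)
open T2h16.TG.Def (Fam Mem fsum Nice)
open T2h16.TG.FAM2

open Classical in
/-- `fsum` over the members which satisfy the criterion -/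
theorem t_FAMT2 (hD : S_DIC2) (hR : S_REC2) (hF : S_FIB2) (hP : S_PAR2) (K : Type) [Field K]
    [NumberField K] (f : GaussianInt ≃+* 𝓞 K) (k : ℕ) (hk : 3 ≤ k) (s : ℝ) (hs1 : 1 < s)
    (hs2 : s ≤ 2) :
    Summable (fun x : Fam => if Mem k x then Def.cond x ^ (-s) else 0) ∧
    fsum k (fun _ => True) s = TQ (Qk f k) ((2 ^ (k - 1) : ℕ) : ℝ) s ∧
    SQ (Qk f k) (2 ^ (k - 1)) (fun P => if nV (fun p q => sy (gn f p) (gn f q)) P = 2 ∧
      aS (fun q => ap (gn f q)) P ≠ 0 then 1 else 0) s ≤ fsum k (fun x => GE x.1) s := by
  have hk1 : 1 ≤ k := by omega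
  have hDk := dk hD hP f k hk1
  -- everything
  obtain ⟨h1, h2⟩ := total (K := K) (fun _ => 1) s hk1 hF hDk (fun _ => zero_le_one)
    (fun _ => le_rfl) hs1 hs2
  have hg1 : ∀ x : Fam, gg k (fun _ => 1) s x = if Mem k x then Def.cond x ^ (-s) else 0 := by
    intro x
    unfold gg
    simp only [mul_one]
  -- the good sets
  obtain ⟨h3, h4⟩ := total (K := K) (fun P => if GE P then 1 else 0) s hk1 hF hDk
    (fun P => by split_ifs <;> norm_num) (fun P => by split_ifs <;> norm_num) hs1 hs2
  refine ⟨h1.congr fun x => hg1 x, ?_, ?_⟩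
  · have e1 : fsum k (fun _ => True) s = ∑' x, gg k (fun _ => 1) s x := by
      unfold fsum
      refine tsum_congr fun x => ?_
      rw [hg1]
      simp only [and_true]
    rw [e1, h2]
    unfold TQ
    refine tsum_congr fun P => ?_
    by_cases hP : In (Qk f k) P
    · rw [dif_pos hP, if_pos hP, mul_one]
    · rw [dif_neg hP, if_neg hP]
  · have hle : ∀ x : Fam, gg k (fun P => if GE P then 1 else 0) s x ≤
        if Mem k x ∧ GE x.1 then Def.cond x ^ (-s) else 0 := by
      intro x
      unfold gg
      by_cases hx : Mem k x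
      · rw [if_pos hx]
        by_cases hge : GE x.1
        · dsimp only
          rw [if_pos hge, if_pos ⟨hx, hge⟩, mul_one]
        · dsimp only
          rw [if_neg hge, mul_zero]
          split_ifs
          · exact Real.rpow_nonneg (cond_nn x) _
          · exact le_rfl
      · rw [if_neg hx, if_neg fun h => hx h.1]
    have hsn : Summable (fun x : Fam => if Mem k x ∧ GE x.1 then Def.cond x ^ (-s) else 0) := by
      refine Summable.of_nonneg_of_le (fun x => ?_) (fun x => ?_) h1
      · split_ifs
        · exact Real.rpow_nonneg (cond_nn x) _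
        · exact le_rfl
      · rw [hg1]
        by_cases hx : Mem k x
        · rw [if_pos hx]
          split_ifs
          · exact le_rfl
          · exact Real.rpow_nonneg (cond_nn x) _
        · rw [if_neg hx, if_neg fun h => hx h.1]
    have h5 : ∑' x, gg k (fun P => if GE P then 1 else 0) s x ≤ fsum k (fun x => GE x.1) s :=
      h3.tsum_le_tsum hle hsn
    refine le_trans ?_ h5
    rw [h4]
    unfold SQ
    -- summability of the right-hand side
    obtain ⟨C, -, hM, -⟩ := Pool.Agent.T3h73.SD.MASS.t_MASS K (2 ^ (k - 1)) 0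
      (Nat.one_le_pow _ _ (by norm_num)) le_rfl
    have hM1 := (hM s hs1 hs2).1
    have hb : ∀ (P : Finset (Pl K)) (x : ℝ), x ≤ 1 →
        ((2 ^ (k - 1) : ℕ) : ℝ) ^ P.card * (NA P : ℝ) ^ (-s) * x ≤
          ((2 ^ (k - 1) : ℕ) : ℝ) ^ P.card * (NA P : ℝ) ^ (-s) * gA P ^ (0 : ℝ) := by
      intro P x hx
      rw [Real.rpow_zero]
      exact mul_le_mul_of_nonneg_left hx (by positivity)
    refine Summable.tsum_le_tsum (fun P => ?_) ?_ ?_
    · by_cases hP : In (Qk f k) P
      · rw [dif_pos hP, if_pos hP]
        refine mul_le_mul_of_nonneg_left ?_ (by positivity)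
        by_cases h6 : nV (fun p q => sy (gn f p) (gn f q)) P = 2 ∧
            aS (fun q => ap (gn f q)) P ≠ 0
        · dsimp only
          rw [if_pos h6, if_pos]
          exact ge_of hDk hR ⟨P, hP⟩ h6.1 h6.2
        · dsimp only
          rw [if_neg h6]
          split_ifs <;> norm_num
      · rw [dif_neg hP, if_neg hP]
    · refine Summable.of_nonneg_of_le (fun P => ?_) (fun P => ?_) hM1
      · by_cases hP : In (Qk f k) P
        · rw [if_pos hP]
          refine mul_nonneg (by positivity) ?_
          dsimp only
          split_ifs <;> norm_num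
        · rw [if_neg hP]
      · by_cases hP : In (Qk f k) P
        · rw [if_pos hP]
          refine hb P _ ?_
          dsimp only
          split_ifs <;> norm_num
        · rw [if_neg hP]
          unfold gA
          positivity
    · refine Summable.of_nonneg_of_le (fun P => ?_) (fun P => ?_) hM1
      · by_cases hP : In (Qk f k) P
        · rw [dif_pos hP]
          refine mul_nonneg (by positivity) ?_
          split_ifs <;> norm_num
        · rw [dif_neg hP]
      · by_cases hP : In (Qk f k) P
        · rw [dif_pos hP]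
          refine hb P _ ?_
          split_ifs <;> norm_num
        · rw [dif_neg hP]
          unfold gA
          positivity

end T2h16.TG.FAMT2
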