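import Pool.Agent.T2h16.TG.Stm

/-!
Task PAR2 of project TG (helper16): primary numbers, by helper46.
-/

set_option autoImplicit false
set_option linter.all false

namespace T2h16.TG.PAR2

/-- the parametrisation of the primary numbers -/
def pm (u v : ℤ) : GaussianInt := ⟨1 - 2 * u + 4 * v, 2 * u⟩

lemma mre (x y : GaussianInt) : (x * y).re = x.re * y.re - x.im * y.im := by
  rw [Zsqrtd.re_mul]
  ring

lemma mim (x y : GaussianInt) : (x * y).im = x.re * y.im + x.im * y.re := by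
  rw [Zsqrtd.im_mul]

lemma par {α : GaussianInt} : tt ∣ α - 1 ↔ ∃ u v : ℤ, α = pm u v := by
  constructor
  · rintro ⟨c, hc⟩
    have h1 := congrArg Zsqrtd.re hc
    have h2 := congrArg Zsqrtd.im hc
    rw [mre] at h1
    rw [mim] at h2
    have e1 : (α - 1).re = α.re - 1 := rfl
    have e2 : (α - 1).im = α.im - 0 := rfl
    have e3 : tt.re = 2 := rfl
    have e4 : tt.im = 2 := rfl
    rw [e1, e3, e4] at h1
    rw [e2, e3, e4] at h2
    refine ⟨c.re + c.im, c.re, ?_⟩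
    unfold pm
    apply Zsqrtd.ext
    · show α.re = _
      linarith
    · show α.im = _
      linarith
  · rintro ⟨u, v, rfl⟩
    refine ⟨⟨v, u - v⟩, ?_⟩
    apply Zsqrtd.ext
    · rw [mre]
      show (1 - 2 * u + 4 * v) - 1 = 2 * v - 2 * (u - v)
      ring
    · rw [mim]
      show 2 * u - 0 = 2 * (u - v) + 2 * v
      ring

lemma ap_pm (u v : ℤ) : ap (pm u v) = (v : ZMod 2) := by
  unfold ap pm
  have e : (1 - 2 * u + 4 * v - 2 * u - (2 * u) ^ 2 - 1) / 4 = v - u * (u + 1) := by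
    have : (1 - 2 * u + 4 * v - 2 * u - (2 * u) ^ 2 - 1) = 4 * (v - u * (u + 1)) := by ring
    rw [this, Int.mul_ediv_cancel_left _ (by norm_num)]
  show (((1 - 2 * u + 4 * v - 2 * u - (2 * u) ^ 2 - 1) / 4 : ℤ) : ZMod 2) = _
  rw [e]
  push_cast
  have h2 : ∀ x : ZMod 2, x * (x + 1) = 0 := by decide
  rw [h2, sub_zero]

lemma two0 : (2 : ZMod 2) = 0 := by decide

lemma pm_mul (u v s t : ℤ) : pm u v * pm s t =
    pm (s + u - 4 * u * s + 4 * v * s + 4 * u * t) (t + v + 4 * v * t - 2 * u * s) := by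
  apply Zsqrtd.ext
  · rw [mre]
    show (1 - 2 * u + 4 * v) * (1 - 2 * s + 4 * t) - 2 * u * (2 * s) =
      1 - 2 * (s + u - 4 * u * s + 4 * v * s + 4 * u * t) +
        4 * (t + v + 4 * v * t - 2 * u * s)
    ring
  · rw [mim]
    show (1 - 2 * u + 4 * v) * (2 * s) + 2 * u * (1 - 2 * s + 4 * t) =
      2 * (s + u - 4 * u * s + 4 * v * s + 4 * u * t)
    ring

lemma four_dvd {x : GaussianInt} : (4 : GaussianInt) ∣ x ↔ (4 : ℤ) ∣ x.re ∧ (4 : ℤ) ∣ x.im := by
  have := Zsqrtd.intCast_dvd (4 : ℤ) x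
  exact_mod_cast this

theorem t_PAR2 : S_PAR2 := by
  refine ⟨?_, ?_, ?_, ?_, ?_, ?_⟩
  · intro α β hα hβ
    obtain ⟨u, v, rfl⟩ := par.1 hα
    obtain ⟨s, t, rfl⟩ := par.1 hβ
    rw [pm_mul, ap_pm, ap_pm, ap_pm]
    refine ⟨par.2 ⟨_, _, rfl⟩, ?_⟩
    push_cast
    have h4 : (4 : ZMod 2) = 0 := by decide
    rw [two0, h4]
    ring
  · intro α β hα hd
    obtain ⟨u, v, rfl⟩ := par.1 hα
    obtain ⟨c, hc⟩ := hd
    have hβ : β = pm (u - 4 * c.im) (v - 2 * c.re - 2 * c.im) := by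
      have h0 : β = pm u v - 8 * c := by rw [← hc]; ring
      rw [h0]
      have e1 : (8 : GaussianInt).re = 8 := rfl
      have e2 : (8 : GaussianInt).im = 0 := rfl
      apply Zsqrtd.ext
      · show (1 - 2 * u + 4 * v) - (8 * c).re =
          1 - 2 * (u - 4 * c.im) + 4 * (v - 2 * c.re - 2 * c.im)
        rw [mre, e1, e2]
        ring
      · show 2 * u - (8 * c).im = 2 * (u - 4 * c.im)
        rw [mim, e1, e2]
        ring
    rw [hβ, ap_pm, ap_pm]
    refine ⟨par.2 ⟨_, _, rfl⟩, ?_⟩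
    push_cast
    rw [two0]
    ring
  · intro α hα
    obtain ⟨u, v, rfl⟩ := par.1 hα
    rw [four_dvd]
    have e1 : (pm u v - 1).re = -2 * u + 4 * v := by
      show (1 - 2 * u + 4 * v) - 1 = _
      ring
    have e2 : (pm u v - 1).im = 2 * u := by
      show 2 * u - 0 = _
      ring
    have e3 : (pm u v).norm - 1 = -4 * u + 8 * (u ^ 2 + v + 2 * v ^ 2 - 2 * u * v) := by
      rw [Zsqrtd.norm_def]
      show (1 - 2 * u + 4 * v) * (1 - 2 * u + 4 * v) - -1 * (2 * u) * (2 * u) - 1 = _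
      ring
    rw [e1, e2, e3]
    generalize u ^ 2 + v + 2 * v ^ 2 - 2 * u * v = z
    omega
  · intro α h
    refine dvd_trans ⟨⟨1, -1⟩, ?_⟩ h
    decide
  · intro α h
    obtain ⟨c, hc⟩ := h
    have hα : α = pm (2 * (c.re + c.im)) (2 * c.re) := by
      have h0 : α = 1 + 4 * ⟨1, 1⟩ * c := by rw [← hc]; ring
      have h1 : (4 * ⟨1, 1⟩ : GaussianInt) = ⟨4, 4⟩ := by decide
      rw [h0, h1]
      apply Zsqrtd.ext
      · show 1 + ((⟨4, 4⟩ : GaussianInt) * c).re =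
          1 - 2 * (2 * (c.re + c.im)) + 4 * (2 * c.re)
        rw [mre]
        show 1 + (4 * c.re - 4 * c.im) = _
        ring
      · show 0 + ((⟨4, 4⟩ : GaussianInt) * c).im = 2 * (2 * (c.re + c.im))
        rw [mim]
        show 0 + (4 * c.im + 4 * c.re) = _
        ring
    rw [hα, ap_pm]
    push_cast
    rw [two0, zero_mul]
  · decide

end T2h16.TG.PAR2
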