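import Pool.Agent.T2h16.TG.All
import Pool.Agent.T2h16.TG.Def3
import Pool.Agent.T2h16.TG.T_FAMT2

/-! # All the products of characters modulo the same primes (compare `TK/Tower.lean` of helper73) -/

set_option autoImplicit false
set_option linter.all false

open NumberField Filter Topology

namespace T2h16.TG.Tower

open Pool.Agent.T3h73.SD (kap)
open Q283.GA.St (Adm sy Concl)
open T2h16.TG.FAM2 (GE)
open T2h16.TG.Def3 (NiceAll)

open Classical in
/-- the proportion of the members which satisfy the criterion -/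
theorem crit_main (k : ℕ) (hk : 3 ≤ k) (ε : ℝ) (hε : 0 < ε) : ∀ᶠ s : ℝ in 𝓝[>] 1,
    (1 / 2 * ∏' i : ℕ, (1 + ((2 : ℝ) ^ (i + 1))⁻¹)⁻¹ - ε) * Def.fsum k (fun _ => True) s ≤
      Def.fsum k (fun x => GE x.1) s := by
  obtain ⟨K, _, _, ⟨f⟩⟩ := FLD2.t_FLD2
  obtain ⟨S, hS, hQ⟩ := all_SYS2 K f k (by omega)
  have hw : 1 ≤ 2 ^ (k - 1) := Nat.one_le_pow _ _ (by norm_num)
  have hfam := FAMT2.t_FAMT2 DIC2.t_DIC2 REC2.t_REC2 all_FIB2 PAR2.t_PAR2 K f k hk
  have hkap : kap 2 = ∏' i : ℕ, (1 + ((2 : ℝ) ^ (i + 1))⁻¹)⁻¹ := by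
    unfold kap
    norm_num
  have hd := all_DIS2 K S _ _ _ _ _ _ _ hQ (2 ^ (k - 1)) hw ε hε
  have hev : ∀ᶠ s : ℝ in 𝓝[>] 1, 1 < s ∧ s ≤ 2 := by
    have h1 : Set.Ioc (1 : ℝ) 2 ∈ 𝓝[>] (1 : ℝ) := Ioc_mem_nhdsGT (by norm_num)
    exact Filter.mem_of_superset h1 fun s hs => hs
  filter_upwards [hd, hev] with s h1 h2
  obtain ⟨-, h3, h4⟩ := hfam s h2.1 h2.2
  rw [← hkap, h3]
  exact h1.trans h4

theorem nice_all {x : Def.Fam} (h : GE x.1) : NiceAll x := by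
  intro l y hl hs hy
  rw [EQ2.t_EQ2.2.2.1]
  have hy' : Def.Mem l y := (EQ2.t_EQ2.1 l y).1 hy
  have hge : GE y.1 := by
    have h1 : y.1 = x.1 := hs
    rw [h1]
    exact h
  exact all_CRI2 l hl y hy' hge.1 hge.2

open Classical in
theorem mono (k : ℕ) (hc : ∀ s : ℝ, 1 < s →
      Summable fun x : Def.Fam => if Def.Mem k x then Def.cond x ^ (-s) else 0)
    (T U : Def.Fam → Prop) (hTU : ∀ x, T x → U x) (s : ℝ) (hs : 1 < s) :
    Def.fsum k T s ≤ Def.fsum k U s := by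
  have hnn : ∀ x : Def.Fam, (0 : ℝ) ≤ Def.cond x ^ (-s) := fun x =>
    Real.rpow_nonneg (FAM2.cond_nn x) _
  have hsum : ∀ T : Def.Fam → Prop,
      Summable (fun x : Def.Fam => if Def.Mem k x ∧ T x then Def.cond x ^ (-s) else 0) := by
    intro T
    refine Summable.of_nonneg_of_le (fun x => ?_) (fun x => ?_) (hc s hs)
    · split_ifs
      · exact hnn x
      · exact le_rfl
    · by_cases hx : Def.Mem k x
      · rw [if_pos hx]
        split_ifs
        · exact le_rfl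
        · exact hnn x
      · rw [if_neg hx, if_neg fun h => hx h.1]
  refine (hsum T).tsum_le_tsum (fun x => ?_) (hsum U)
  by_cases h : Def.Mem k x ∧ T x
  · rw [if_pos h, if_pos ⟨h.1, hTU x h.2⟩]
  · rw [if_neg h]
    split_ifs
    · exact hnn x
    · exact le_rfl

theorem atLeast_niceAll (k : ℕ) (hk : 3 ≤ k) (ε : ℝ) (hε : 0 < ε) :
    Def2.AtLeast k NiceAll (1 / 2 * Def2.kappa - ε) := by
  have hev : ∀ᶠ s : ℝ in 𝓝[>] 1, 1 < s := self_mem_nhdsWithin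
  have hmain := all_MAIN2 k hk
  filter_upwards [crit_main k hk ε hε, hev] with s h1 h2
  rw [EQ2.t_EQ2.2.2.2, EQ2.t_EQ2.2.2.2]
  exact h1.trans (mono k hmain.1 _ _ (fun x hx => nice_all hx) s h2)

end T2h16.TG.Tower
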